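import Pool.Agent.H566U.Spec

set_option autoImplicit false

namespace Pool.Agent.H566U

open Filter Topology Set MeasureTheory

theorem t_ALLF (h0 : S_SOTB) (hF : S_FINS) (hE : S_EA) (hL : S_LC0) (hU : S_UC) : S_ALLF := by
  intro X _ _ hA F hFc hinv hNC y hy g
  obtain ⟨N₀, δ, K, hδ, hK, hKB, hKv⟩ := hL X hA F hFc hinv y hy
  have hUK : ∀ m : ℕ, ∀ u ∈ UF (N₀ + m), u • y ∈ K := by
    intro m u hu
    apply hKv
    intro i hi
    have h1 : u (e i) = e i := hu i (by omega)
    rw [h1, sub_self, norm_zero]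
    exact hδ.le
  have hz : ∀ m : ℕ, ∃ z : X, z ∈ closure {z | ∃ u ∈ UF (N₀ + m), u • y = z} ∧
      FixedBy (UF (N₀ + m)) z := by
    intro m
    obtain ⟨z, hz1, hz2⟩ := hE X hA (N₀ + m) y K hK (hUK m)
    exact ⟨z, hz1, hz2⟩
  choose z hz1 hz2 using hz
  have hzK : ∀ m, z m ∈ K := by
    intro m
    have h1 : closure {z | ∃ u ∈ UF (N₀ + m), u • y = z} ⊆ K := by
      apply closure_minimal _ hK.isClosed
      rintro w ⟨u, hu, rfl⟩
      exact hUK m u hu
    exact h1 (hz1 m)
  have hzfix : ∀ m, ∀ h : G, h • z m = z m := fun m =>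
    hF X hA F hFc hinv hNC (N₀ + m) (z m) (hKB (hzK m)) (hz2 m)
  have hlim : Tendsto z atTop (𝓝 y) := by
    rw [Metric.tendsto_atTop]
    intro ε hε
    obtain ⟨N, δ', hδ', hN⟩ := hU X hA {y} isCompact_singleton (ε / 2) (by positivity)
    refine ⟨N, fun m hm => ?_⟩
    have h1 : closure {z | ∃ u ∈ UF (N₀ + m), u • y = z} ⊆ Metric.closedBall y (ε / 2) := by
      apply closure_minimal _ Metric.isClosed_closedBall
      rintro w ⟨u, hu, rfl⟩
      rw [Metric.mem_closedBall]
      apply le_of_lt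
      apply hN y (mem_singleton y) u
      intro i hi
      have h1 : u (e i) = e i := hu i (by omega)
      rw [h1, sub_self, norm_zero]
      exact hδ'.le
    have h2 := h1 (hz1 m)
    rw [Metric.mem_closedBall] at h2
    linarith
  have h1 : Tendsto (fun k => g • z k) atTop (𝓝 (g • y)) :=
    hA (fun _ => g) g z y (fun v => tendsto_const_nhds) hlim
  have h2 : (fun k => g • z k) = z := by
    funext k
    exact hzfix k g
  rw [h2] at h1
  exact tendsto_nhds_unique h1 hlim

end Pool.Agent.H566U
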