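import Pool.Agent.H566U.Spec
import Pool.Agent.H212R2.KLS.T1

/-! BMB: Brunn–Minkowski for two separated subsets of the ball (helper911) -/

set_option autoImplicit false

namespace Pool.Agent.H566U

open Filter Topology Set MeasureTheory

theorem BMB_min (a b : ENNReal) :
    min a b ≤ a ^ (1 - 1 / 2 : ℝ) * b ^ (1 / 2 : ℝ) := by
  have h : min a b = (min a b) ^ (1 - 1 / 2 : ℝ) * (min a b) ^ (1 / 2 : ℝ) := by
    rw [← ENNReal.rpow_add_of_nonneg _ _ (by norm_num) (by norm_num)]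
    norm_num
  calc min a b = (min a b) ^ (1 - 1 / 2 : ℝ) * (min a b) ^ (1 / 2 : ℝ) := h
    _ ≤ a ^ (1 - 1 / 2 : ℝ) * b ^ (1 / 2 : ℝ) :=
        mul_le_mul' (ENNReal.rpow_le_rpow (min_le_left _ _) (by norm_num))
          (ENNReal.rpow_le_rpow (min_le_right _ _) (by norm_num))

theorem BMB_mid {F : Type} [NormedAddCommGroup F] [NormedSpace ℝ F]
    (hp : ∀ x y : F, ‖x + y‖ ^ 2 + ‖x - y‖ ^ 2 = 2 * ‖x‖ ^ 2 + 2 * ‖y‖ ^ 2) {t : ℝ} (ht : 0 < t)
    {x y : F} (hx : ‖x‖ ≤ 1) (hy : ‖y‖ ≤ 1) (hxy : t ≤ ‖x - y‖) :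
    ‖(1 - 1 / 2 : ℝ) • x + (1 / 2 : ℝ) • y‖ ≤ Real.sqrt (1 - t ^ 2 / 4) := by
  have h1 : (1 - 1 / 2 : ℝ) • x + (1 / 2 : ℝ) • y = (1 / 2 : ℝ) • (x + y) := by
    rw [smul_add]
    norm_num
  rw [h1, norm_smul]
  apply Real.le_sqrt_of_sq_le
  have h2 := hp x y
  have h3 : t ^ 2 ≤ ‖x - y‖ ^ 2 := pow_le_pow_left₀ ht.le hxy 2
  have h4 : ‖x‖ ^ 2 ≤ 1 := pow_le_one₀ (norm_nonneg _) hx
  have h5 : ‖y‖ ^ 2 ≤ 1 := pow_le_one₀ (norm_nonneg _) hy
  have h6 : ‖(1 / 2 : ℝ)‖ = 1 / 2 := by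
    rw [Real.norm_of_nonneg (by norm_num)]
  rw [h6, mul_pow]
  linarith

theorem t_BMB : S_BMB := by
  intro F _ _ _ _ _ ν _ hp A B hA hB hA1 hB1 t ht ht1 hAB
  set ρ : ℝ := Real.sqrt (1 - t ^ 2 / 4) with hρ
  have hρ0 : 0 ≤ ρ := Real.sqrt_nonneg _
  have ht2 : 0 ≤ 1 - t ^ 2 / 4 := by
    have : t ^ 2 ≤ 1 := pow_le_one₀ ht.le ht1
    linarith
  have key := Pool.Agent.H212R2.KLS.PL ν (1 / 2) (by norm_num) (by norm_num)
    (A.indicator 1) (B.indicator 1) ((Metric.closedBall (0 : F) ρ).indicator 1)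
    (measurable_one.indicator hA.measurableSet) (measurable_one.indicator hB.measurableSet)
    (measurable_one.indicator Metric.isClosed_closedBall.measurableSet) (by
      intro x y
      by_cases hx : x ∈ A
      · by_cases hy : y ∈ B
        · have h1 : ((1 - 1 / 2 : ℝ) • x + (1 / 2 : ℝ) • y) ∈ Metric.closedBall (0 : F) ρ := by
            rw [mem_closedBall_zero_iff]
            exact BMB_mid hp ht (mem_closedBall_zero_iff.1 (hA1 hx))
              (mem_closedBall_zero_iff.1 (hB1 hy)) (hAB x hx y hy)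
          rw [indicator_of_mem hx, indicator_of_mem hy, indicator_of_mem h1]
          simp
        · rw [indicator_of_notMem hy, ENNReal.zero_rpow_of_pos (by norm_num), mul_zero]
          exact zero_le
      · rw [indicator_of_notMem hx, ENNReal.zero_rpow_of_pos (by norm_num), zero_mul]
        exact zero_le)
  rw [lintegral_indicator_one hA.measurableSet, lintegral_indicator_one hB.measurableSet,
    lintegral_indicator_one Metric.isClosed_closedBall.measurableSet,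
    Measure.addHaar_closedBall' ν 0 hρ0] at key
  have h2 : ρ ^ Module.finrank ℝ F = (1 - t ^ 2 / 4) ^ ((Module.finrank ℝ F : ℝ) / 2) := by
    rw [hρ, Real.sqrt_eq_rpow, ← Real.rpow_natCast, ← Real.rpow_mul ht2]
    congr 1
    ring
  rw [h2] at key
  exact (BMB_min _ _).trans key

end Pool.Agent.H566U
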