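import Mathlib

/-! Actions of the unitary group of `ℓ²` on σ-compact metrizable spaces: a non-fixed point gives a
Cantor family of inequivalent points. Definitions and the propositions proved by the tasks. -/

set_option autoImplicit false

namespace Pool.Agent.H566U

open Filter Topology Set MeasureTheory

/-- the Hilbert space `ℓ²(ℕ, ℂ)` -/
abbrev H : Type := lp (fun _ : ℕ => ℂ) 2

/-- its unitary group (`g * h` is composition) -/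
abbrev G : Type := H ≃ₗᵢ[ℂ] H

/-- the standard basis -/
noncomputable def e (i : ℕ) : H := lp.single 2 i (1 : ℂ)

/-- `g k → g₀` pointwise (strong operator topology) -/
def SOT (g : ℕ → G) (g₀ : G) : Prop := ∀ v : H, Tendsto (fun k => g k v) atTop (𝓝 (g₀ v))

/-- `‖h - 1‖ ≤ ε` -/
def Near (ε : ℝ) (h : G) : Prop := ∀ v : H, ‖h v - v‖ ≤ ε * ‖v‖

/-- joint (sequential) continuity of the action -/
def Act (X : Type) [MetricSpace X] [MulAction G X] : Prop :=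
  ∀ (g : ℕ → G) (g₀ : G) (x : ℕ → X) (x₀ : X), SOT g g₀ → Tendsto x atTop (𝓝 x₀) →
    Tendsto (fun k => g k • x k) atTop (𝓝 (g₀ • x₀))

/-- `U_d`: the unitaries fixing `e 0, …, e (d-1)` -/
def UF (d : ℕ) : Set G := {u | ∀ i < d, u (e i) = e i}

/-- `U(d)`: the unitaries fixing all `e i`, `i ≥ d` (they preserve the span of `e 0, …, e (d-1)`) -/
def US (d : ℕ) : Set G := {u | ∀ i, d ≤ i → u (e i) = e i}

/-- `x` is fixed by all elements of `P` -/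
def FixedBy {X : Type} [MulAction G X] (P : Set G) (x : X) : Prop := ∀ u ∈ P, u • x = x

/-- the stabiliser of a subspace (pointwise) -/
def PS (S : Submodule ℂ H) : Set G := {u | ∀ s ∈ S, u s = s}

/-! ### A. Hilbert space geometry -/

/-- SOTB: pointwise convergence can be checked on the basis; two unitaries which agree on the basis
are equal -/
def S_SOTB : Prop := (∀ (g : ℕ → G) (g₀ : G),
    (∀ i, Tendsto (fun k => g k (e i)) atTop (𝓝 (g₀ (e i)))) → SOT g g₀) ∧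
  (∀ g h : G, (∀ i, g (e i) = h (e i)) → g = h) ∧ Orthonormal ℂ e ∧
  (∀ x : H, (∀ i, inner ℂ (e i) x = (0 : ℂ)) → x = 0)

/-- WKB: weak convergence of vectors of norm at most one can be checked on the basis -/
def S_WKB : Prop := ∀ (x : ℕ → H) (w : H), (∀ j, ‖x j‖ ≤ 1) →
  (∀ i, Tendsto (fun j => inner ℂ (e i) (x j)) atTop (𝓝 (inner ℂ (e i) w))) →
  ∀ v : H, Tendsto (fun j => inner ℂ v (x j)) atTop (𝓝 (inner ℂ v w))

/-- OV: a unitary which moves `a` to `b`, fixes the orthogonal complement of `a, b` and is close to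
the identity if `a` is close to `b` -/
def S_OV : Prop := ∀ a b : H, ‖a‖ = 1 → ‖b‖ = 1 → ∃ h : G, h a = b ∧
  (∀ x : H, inner ℂ a x = (0 : ℂ) → inner ℂ b x = (0 : ℂ) → h x = x) ∧ Near (20 * ‖a - b‖) h

/-- OVI: the same for finite orthonormal families -/
def S_OVI : Prop := ∀ k : ℕ, ∃ C : ℝ, 0 ≤ C ∧ ∀ (a b : Fin k → H), Orthonormal ℂ a →
  Orthonormal ℂ b → ∀ η : ℝ, 0 ≤ η → (∀ i, ‖a i - b i‖ ≤ η) → ∃ h : G, (∀ i, h (a i) = b i) ∧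
    (∀ x : H, (∀ i, inner ℂ (a i) x = (0 : ℂ)) → (∀ i, inner ℂ (b i) x = (0 : ℂ)) → h x = x) ∧
    Near (C * η) h

/-- L1: closeness lifting -/
def S_L1 : Prop := ∀ (k : ℕ) (a : Fin k → H), Orthonormal ℂ a → ∀ ε : ℝ, 0 < ε → ∃ η : ℝ, 0 < η ∧
  ∀ g : G, (∀ i, ‖g (a i) - a i‖ ≤ η) → ∃ h : G, (∀ i, h (a i) = g (a i)) ∧ Near ε h

/-- DENS: approximation of a unitary which fixes `w 0, …, w (d-1)` by unitaries which differ from
the identity only on a finite dimensional space -/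
def S_DENS : Prop := ∀ (d : ℕ) (w : Fin d → H) (v : G), (∀ i, v (w i) = w i) → ∀ N : ℕ,
  ∃ u : G, (∀ i, u (w i) = w i) ∧ (∀ i < N, u (e i) = v (e i)) ∧
    ∃ W : Submodule ℂ H, FiniteDimensional ℂ W ∧ ∀ x ∈ Wᗮ, u x = x

/-- GS: an almost orthonormal family is close to an orthonormal family in its span -/
def S_GS : Prop := ∀ (k : ℕ) (δ : ℝ), 0 < δ → ∃ η : ℝ, 0 < η ∧ ∀ c : Fin k → H,
  (∀ j l, ‖(inner ℂ (c j) (c l) : ℂ) - (if j = l then 1 else 0)‖ ≤ η) →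
  ∃ b : Fin k → H, Orthonormal ℂ b ∧ (∀ j, ‖b j - c j‖ ≤ δ) ∧
    ∀ j, b j ∈ Submodule.span ℂ (range c)

/-- DENS2: approximation of `v ∈ U_d` by elements of `U_d` which fix almost all basis vectors -/
def S_DENS2 : Prop := ∀ (d : ℕ) (v : G), v ∈ UF d → ∀ (M : ℕ) (ε : ℝ), 0 < ε →
  ∃ (N : ℕ) (u : G), u ∈ UF d ∧ u ∈ US N ∧ ∀ i < M, ‖u (e i) - v (e i)‖ ≤ ε

/-- ORTHF: orthonormal families in the complement of a finite dimensional space -/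
def S_ORTHF : Prop := ∀ (V : Submodule ℂ H), FiniteDimensional ℂ V → ∀ k : ℕ,
  ∃ b : Fin k → H, Orthonormal ℂ b ∧ ∀ i, b i ∈ Vᗮ

/-- SWAP: moving a finite dimensional space away -/
def S_SWAP : Prop := ∀ (S A W : Submodule ℂ H), FiniteDimensional ℂ S → FiniteDimensional ℂ A →
  FiniteDimensional ℂ W → (∀ s ∈ S, ∀ a ∈ A, inner ℂ s a = (0 : ℂ)) →
  ∃ u ∈ PS S, ∀ a ∈ A, ∀ b ∈ W, inner ℂ (u a) b = (0 : ℂ)

/-- LAM: the cosine of the angle between `S₁ ⊖ (S₁ ⊓ S₂)` and `S₂` is less than one -/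
def S_LAM : Prop := ∀ (S₁ S₂ : Submodule ℂ H), FiniteDimensional ℂ S₁ → FiniteDimensional ℂ S₂ →
  ∃ l : ℝ, 0 ≤ l ∧ l < 1 ∧ ∀ s ∈ S₁, (∀ r ∈ S₁ ⊓ S₂, inner ℂ r s = (0 : ℂ)) →
    ∃ p ∈ S₂, (∀ q ∈ S₂, inner ℂ q (s - p) = (0 : ℂ)) ∧ ‖p‖ ≤ l * ‖s‖

/-- QM: elements of the group generated by the stabilisers of `S₁`, `S₂` which move
`S₁ ⊖ (S₁ ⊓ S₂)` away -/
def S_QM : Prop := ∀ (S₁ S₂ : Submodule ℂ H), FiniteDimensional ℂ S₁ → FiniteDimensional ℂ S₂ →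
  ∃ l : ℝ, 0 ≤ l ∧ l < 1 ∧ ∀ (m : ℕ) (V : Submodule ℂ H), FiniteDimensional ℂ V →
    ∃ k ∈ Subgroup.closure (PS S₁ ∪ PS S₂), ∀ s ∈ S₁, (∀ r ∈ S₁ ⊓ S₂, inner ℂ r s = (0 : ℂ)) →
      ∀ b ∈ V, ‖(inner ℂ (k s) b : ℂ)‖ ≤ l ^ m * ‖s‖ * ‖b‖

/-- rotations in the planes `e 0, e n` -/
def IsRot (rot : ℕ → ℝ → G) : Prop := ∀ n, 1 ≤ n → rot n 0 = 1 ∧ ∀ θ : ℝ,
  rot n θ (e 0) = (Real.cos θ : ℂ) • e 0 + (Real.sin θ : ℂ) • e n ∧
  rot n θ (e n) = -(Real.sin θ : ℂ) • e 0 + (Real.cos θ : ℂ) • e n ∧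
  (∀ i, i ≠ 0 → i ≠ n → rot n θ (e i) = e i) ∧
  (∀ θ' : ℝ, rot n θ * rot n θ' = rot n (θ + θ')) ∧ Near |θ| (rot n θ)

/-- ROT -/
def S_ROT : Prop := ∃ rot : ℕ → ℝ → G, IsRot rot

/-- TR: transpositions of basis vectors -/
def S_TR : Prop := ∃ tr : ℕ → ℕ → G, ∀ m n, tr m n (e m) = e n ∧ tr m n (e n) = e m ∧
  ∀ i, i ≠ m → i ≠ n → tr m n (e i) = e i

/-! ### B. Concentration of measure -/

/-- frames -/
abbrev MM (M k : ℕ) : Type := EuclideanSpace ℂ (Fin M × Fin k)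

/-- almost isometric (up to the factor `1/√k`) -/
def Good {M k : ℕ} (η : ℝ) (Y : MM M k) : Prop := ∀ j l : Fin k,
  ‖(∑ i : Fin M, (starRingEnd ℂ) (Y (i, j)) * Y (i, l)) - (if j = l then (1 / k : ℂ) else 0)‖ ≤ η

/-- BMB: two sets at distance `t` in the unit ball (Brunn–Minkowski); `F` is a finite dimensional
space whose norm satisfies the parallelogram identity -/
def S_BMB : Prop := ∀ (F : Type) [NormedAddCommGroup F] [NormedSpace ℝ F] [FiniteDimensional ℝ F]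
  [MeasurableSpace F] [BorelSpace F] (ν : Measure F) [ν.IsAddHaarMeasure],
  (∀ x y : F, ‖x + y‖ ^ 2 + ‖x - y‖ ^ 2 = 2 * ‖x‖ ^ 2 + 2 * ‖y‖ ^ 2) →
  ∀ (A B : Set F), IsClosed A → IsClosed B → A ⊆ Metric.closedBall 0 1 →
  B ⊆ Metric.closedBall 0 1 → ∀ t : ℝ, 0 < t → t ≤ 1 → (∀ x ∈ A, ∀ y ∈ B, t ≤ ‖x - y‖) →
  min (ν A) (ν B) ≤ ENNReal.ofReal ((1 - t ^ 2 / 4) ^ ((Module.finrank ℝ F : ℝ) / 2)) *
    ν (Metric.closedBall 0 1)

/-- ISO: linear isometries preserve the measure -/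
def S_ISO : Prop := ∀ (F : Type) [NormedAddCommGroup F] [NormedSpace ℝ F] [FiniteDimensional ℝ F]
  [MeasurableSpace F] [BorelSpace F] (ν : Measure F) [ν.IsAddHaarMeasure] (T : F ≃ₗᵢ[ℝ] F),
  MeasurePreserving T ν ν

/-- the fraction of the unit ball which lies in `A` (outer measure) is at most `c` -/
def Small {F : Type} [NormedAddCommGroup F] [MeasurableSpace F] (ν : Measure F) (c : ℝ)
    (A : Set F) : Prop :=
  ν (A ∩ Metric.closedBall 0 1) ≤ ENNReal.ofReal c * ν (Metric.closedBall 0 1)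

/-- right multiplication by a unitary matrix: `(Y a)_{i j} = ∑ l, Y_{i l} a_{l j}` -/
def S_RMUL : Prop := ∀ (M k : ℕ) (a : Matrix (Fin k) (Fin k) ℂ), a ∈ Matrix.unitaryGroup (Fin k) ℂ →
  ∃ T : MM M k ≃ₗᵢ[ℂ] MM M k, ∀ Y i j, T Y (i, j) = ∑ l, Y (i, l) * a l j

/-- MED: for unit vectors `c`, the norm of `Y c` is close to `1/√k` for most `Y` in the unit ball -/
def S_MED : Prop := ∀ (k : ℕ), 1 ≤ k → ∀ η ε : ℝ, 0 < η → 0 < ε → ∃ M₀ : ℕ, ∀ M, M₀ ≤ M →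
  ∀ [MeasurableSpace (MM M k)] [BorelSpace (MM M k)] (ν : Measure (MM M k))
    [ν.IsAddHaarMeasure] (c : Fin k → ℂ), ∑ j, ‖c j‖ ^ 2 = 1 →
  Small ν ε {Y | η < |∑ i : Fin M, ‖∑ j, Y (i, j) * c j‖ ^ 2 - 1 / k|}

/-- GOODP: most points of the unit ball are good -/
def S_GOODP : Prop := ∀ (k : ℕ), 1 ≤ k → ∀ η ε : ℝ, 0 < η → 0 < ε → ∃ M₀ : ℕ, ∀ M, M₀ ≤ M →
  ∀ [MeasurableSpace (MM M k)] [BorelSpace (MM M k)] (ν : Measure (MM M k))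
    [ν.IsAddHaarMeasure], Small ν ε {Y | ¬ Good η Y}

/-- CONC: the `t`-neighbourhood of a set which is not small is almost everything -/
def S_CONC : Prop := ∀ (k : ℕ), 1 ≤ k → ∀ t c ε : ℝ, 0 < t → 0 < c → 0 < ε → ∃ M₀ : ℕ,
  ∀ M, M₀ ≤ M → ∀ [MeasurableSpace (MM M k)] [BorelSpace (MM M k)] (ν : Measure (MM M k))
    [ν.IsAddHaarMeasure] (A : Set (MM M k)), A ⊆ Metric.closedBall 0 1 → ¬ Small ν c A →
    Small ν ε {Y | ¬ ∃ Z ∈ A, ‖Z - Y‖ < t}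

/-- LEVY: the pigeonhole principle for finite covers of the good points -/
def S_LEVY : Prop := ∀ (k q s : ℕ) (t η : ℝ), 1 ≤ k → 0 < t → 0 < η → ∃ M : ℕ,
  ∀ C : Fin q → Set (MM M k), (∀ Y : MM M k, ‖Y‖ ≤ 1 → Good η Y → ∃ j, Y ∈ C j) →
  ∀ T : Fin s → (MM M k ≃ₗᵢ[ℂ] MM M k), ∃ (Y : MM M k) (j : Fin q), Good η Y ∧
    (∃ Z ∈ C j, Good η Z ∧ ‖Z - Y‖ < t) ∧
    ∀ i, Good η (T i Y) ∧ ∃ Z ∈ C j, Good η Z ∧ ‖Z - T i Y‖ < t

/-- the `j`-th column of `Y`, as a vector in the span of `e n, …, e (n+M-1)` -/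
noncomputable def col {M k : ℕ} (n : ℕ) (Y : MM M k) (j : Fin k) : H :=
  ∑ i : Fin M, Y (i, j) • e (n + i)

/-- FRAME: for good `Y` there is a unitary in `U_n` which maps `e (n+j)` close to `√k` times the
`j`-th column -/
def S_FRAME : Prop := ∀ (n k : ℕ) (δ : ℝ), 1 ≤ k → 0 < δ → ∃ η : ℝ, 0 < η ∧ ∀ (M : ℕ) (Y : MM M k),
  Good η Y → ∃ g ∈ UF n, ∀ j : Fin k, ‖g (e (n + j)) - (Real.sqrt k : ℂ) • col n Y j‖ ≤ δ

/-- EAF: almost fixed points for finitely many unitaries -/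
def S_EAF : Prop := ∀ (X : Type) [MetricSpace X] [MulAction G X], Act X → ∀ (n : ℕ) (x : X)
  (K : Set X), IsCompact K → (∀ u ∈ UF n, u • x ∈ K) → ∀ (N q : ℕ) (h : Fin q → G),
  (∀ i, h i ∈ UF n ∧ h i ∈ US N) → ∀ ε : ℝ, 0 < ε →
  ∃ u ∈ UF n, ∀ i, dist (h i • (u • x)) (u • x) < ε

/-- EA: extreme amenability of `U_n` (Gromov–Milman) -/
def S_EA : Prop := ∀ (X : Type) [MetricSpace X] [MulAction G X], Act X → ∀ (n : ℕ) (x : X)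
  (K : Set X), IsCompact K → (∀ u ∈ UF n, u • x ∈ K) →
  ∃ z ∈ closure {z | ∃ u ∈ UF n, u • x = z}, FixedBy (UF n) z

/-! ### C. Dynamics -/

/-- UC: uniform continuity on compact sets -/
def S_UC : Prop := ∀ (X : Type) [MetricSpace X] [MulAction G X], Act X → ∀ K : Set X,
  IsCompact K → ∀ ε : ℝ, 0 < ε → ∃ (N : ℕ) (δ : ℝ), 0 < δ ∧ ∀ z ∈ K, ∀ v : G,
    (∀ i < N, ‖v (e i) - e i‖ ≤ δ) → dist (v • z) z < ε

/-- LC0: the Baire category argument -/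
def S_LC0 : Prop := ∀ (X : Type) [MetricSpace X] [MulAction G X], Act X → ∀ (F : ℕ → Set X),
  (∀ k, IsCompact (F k)) → (∀ x ∈ ⋃ k, F k, ∀ g : G, g • x ∈ ⋃ k, F k) → ∀ x ∈ ⋃ k, F k,
  ∃ (N : ℕ) (δ : ℝ) (K : Set X), 0 < δ ∧ IsCompact K ∧ K ⊆ ⋃ k, F k ∧
    ∀ v : G, (∀ i < N, ‖v (e i) - e i‖ ≤ δ) → v • x ∈ K

/-- LC: for a point fixed by `U_d` it suffices that `v` is close to the identity on
`e 0, …, e (d-1)` -/
def S_LC : Prop := ∀ (X : Type) [MetricSpace X] [MulAction G X], Act X → ∀ (F : ℕ → Set X),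
  (∀ k, IsCompact (F k)) → (∀ x ∈ ⋃ k, F k, ∀ g : G, g • x ∈ ⋃ k, F k) → ∀ x ∈ ⋃ k, F k,
  ∀ d : ℕ, FixedBy (UF d) x → ∃ (δ : ℝ) (K : Set X), 0 < δ ∧ IsCompact K ∧ K ⊆ ⋃ k, F k ∧
    ∀ v : G, (∀ i < d, ‖v (e i) - e i‖ ≤ δ) → v • x ∈ K

/-- WL: the weak limit lemma -/
def S_WL : Prop := ∀ (X : Type) [MetricSpace X] [MulAction G X], Act X → ∀ (d : ℕ)
  (a w : Fin d → H), Orthonormal ℂ a → ∀ y z : X, FixedBy {u | ∀ i, u (a i) = a i} y →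
  ∀ g : ℕ → G, (∀ (i : Fin d) (v : H),
    Tendsto (fun j => inner ℂ v (g j (a i))) atTop (𝓝 (inner ℂ v (w i)))) →
  Tendsto (fun j => g j • y) atTop (𝓝 z) → FixedBy {u | ∀ i, u (w i) = w i} z

/-- INT: intersection of supports -/
def S_INT : Prop := ∀ (X : Type) [MetricSpace X] [MulAction G X], Act X →
  ∀ (S₁ S₂ : Submodule ℂ H), FiniteDimensional ℂ S₁ → FiniteDimensional ℂ S₂ → ∀ y : X,
  FixedBy (PS S₁) y → FixedBy (PS S₂) y → FixedBy (PS (S₁ ⊓ S₂)) y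

/-- CPT: sequential compactness of `U(d)` -/
def S_CPT : Prop := ∀ (d : ℕ) (w : ℕ → G), (∀ j, w j ∈ US d) →
  ∃ w₀ ∈ US d, ∃ φ : ℕ → ℕ, StrictMono φ ∧ SOT (fun j => w (φ j)) w₀

/-- INVF: a continuous `U(d)`-invariant function which vanishes exactly on the `U(d)`-orbit of `y` -/
def S_INVF : Prop := ∀ (X : Type) [MetricSpace X] [MulAction G X], Act X → ∀ (d : ℕ) (y : X),
  ∃ f : X → ℝ, Continuous f ∧ (∀ x, ∀ w ∈ US d, f (w • x) = f x) ∧ f y = 0 ∧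
    ∀ x, f x = 0 → ∃ w ∈ US d, w • y = x

/-- PATH: the path `θ ↦ lim_n rot n θ • y` -/
def S_PATH : Prop := ∀ (X : Type) [MetricSpace X] [MulAction G X], Act X → ∀ rot : ℕ → ℝ → G,
  IsRot rot → ∀ (d : ℕ) (y : X) (K : Set X) (θ₀ : ℝ), 1 ≤ d → IsCompact K → 0 ≤ θ₀ →
  FixedBy (UF d) y → (∀ θ, 0 ≤ θ → θ ≤ θ₀ → ∀ n, d ≤ n → rot n θ • y ∈ K) →
  ∃ γ : ℝ → X, ContinuousOn γ (Icc 0 θ₀) ∧ γ 0 = y ∧ ∀ θ ∈ Icc 0 θ₀, γ θ ∈ K ∧
    FixedBy (UF d) (γ θ) ∧ Tendsto (fun n => rot n θ • y) atTop (𝓝 (γ θ))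

/-- MIN: `d` is minimal for supports of non-fixed points in `B` -/
def MinSupp {X : Type} [MulAction G X] (B : Set X) (d : ℕ) : Prop :=
  ∀ T : Submodule ℂ H, FiniteDimensional ℂ T → Module.finrank ℂ T < d → ∀ x ∈ B,
    FixedBy (PS T) x → ∀ g : G, g • x = x

/-- EQS: on points with minimal support `e 0, …, e (d-1)` orbits are `U(d)`-orbits -/
def S_EQS : Prop := ∀ (X : Type) [MetricSpace X] [MulAction G X], Act X → ∀ (B : Set X) (d : ℕ),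
  MinSupp B d → ∀ y ∈ B, FixedBy (UF d) y → (∃ g : G, g • y ≠ y) → ∀ g : G,
  FixedBy (UF d) (g • y) → ∃ u ∈ US d, u • y = g • y

/-- CANT: a nonconstant continuous function is injective on a Cantor set -/
def S_CANT : Prop := ∀ (a b : ℝ) (f : ℝ → ℝ), a ≤ b → ContinuousOn f (Icc a b) →
  (∃ s ∈ Icc a b, f s ≠ f a) → ∃ c : (ℕ → Bool) → ℝ, Continuous c ∧ (∀ x, c x ∈ Icc a b) ∧
    Function.Injective (fun x => f (c x))

/-- no Cantor family of pairwise inequivalent points in `B` -/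
def NC {X : Type} [MetricSpace X] [MulAction G X] (B : Set X) : Prop :=
  ¬ ∃ c : (ℕ → Bool) → X, Continuous c ∧ (∀ A, c A ∈ B) ∧
    ∀ A A', (∃ g : G, g • c A = c A') → A = A'

/-- STEP -/
def S_STEP : Prop := ∀ (X : Type) [MetricSpace X] [MulAction G X], Act X → ∀ (F : ℕ → Set X),
  (∀ k, IsCompact (F k)) → (∀ x ∈ ⋃ k, F k, ∀ g : G, g • x ∈ ⋃ k, F k) → NC (⋃ k, F k) →
  ∀ rot : ℕ → ℝ → G, IsRot rot → ∀ d : ℕ, 1 ≤ d → MinSupp (⋃ k, F k) d → ∀ y ∈ ⋃ k, F k,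
  FixedBy (UF d) y → (∃ g : G, g • y ≠ y) → ∃ θ : ℝ, 0 < θ ∧ θ < Real.pi / 2 ∧ ∃ w ∈ US d,
    Tendsto (fun n => rot n θ • y) atTop (𝓝 (w • y))

/-- `z` is approximated by `g • y` with `g` fixing `e 1, …, e (d-1)` and `g (e 0)` weakly close to
`τ • e 0` -/
def RR {X : Type} [MetricSpace X] [MulAction G X] (d : ℕ) (y : X) (τ : ℝ) (z : X) : Prop :=
  ∀ ε : ℝ, 0 < ε → ∀ N : ℕ, ∃ g : G, (∀ i, 1 ≤ i → i < d → g (e i) = e i) ∧
    (∀ i < N, ‖(inner ℂ (e i) (g (e 0)) : ℂ) - (if i = 0 then (τ : ℂ) else 0)‖ < ε) ∧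
    dist (g • y) z < ε

/-- RCL: closedness of `RR` -/
def S_RCL : Prop := ∀ (X : Type) [MetricSpace X] [MulAction G X] (d : ℕ) (y : X) (τ : ℕ → ℝ)
  (τ₀ : ℝ) (z : ℕ → X) (z₀ : X), (∀ j, RR d y (τ j) (z j)) → Tendsto τ atTop (𝓝 τ₀) →
  Tendsto z atTop (𝓝 z₀) → RR d y τ₀ z₀

/-- RSG: composition with a rotation -/
def S_RSG : Prop := ∀ (X : Type) [MetricSpace X] [MulAction G X], Act X → ∀ rot : ℕ → ℝ → G,
  IsRot rot → ∀ (d : ℕ) (y : X) (τ θ : ℝ) (z z' : X), 1 ≤ d → RR d y τ z →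
  Tendsto (fun n => rot n θ • z) atTop (𝓝 z') → RR d y (Real.cos θ * τ) z'

/-- RZ: `τ = 0` -/
def S_RZ : Prop := ∀ (X : Type) [MetricSpace X] [MulAction G X], Act X → ∀ (d : ℕ) (y z : X),
  1 ≤ d → FixedBy (UF d) y → RR d y 0 z → FixedBy {u | ∀ i, 1 ≤ i → i < d → u (e i) = e i} z

/-- CONTR: there is no minimal support -/
def S_CONTR : Prop := ∀ (X : Type) [MetricSpace X] [MulAction G X], Act X → ∀ (F : ℕ → Set X),
  (∀ k, IsCompact (F k)) → (∀ x ∈ ⋃ k, F k, ∀ g : G, g • x ∈ ⋃ k, F k) → NC (⋃ k, F k) →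
  ∀ d : ℕ, 1 ≤ d → MinSupp (⋃ k, F k) d → ∀ y ∈ ⋃ k, F k, FixedBy (UF d) y →
  ∀ g : G, g • y = y

/-- FINS: all finitely supported points are fixed -/
def S_FINS : Prop := ∀ (X : Type) [MetricSpace X] [MulAction G X], Act X → ∀ (F : ℕ → Set X),
  (∀ k, IsCompact (F k)) → (∀ x ∈ ⋃ k, F k, ∀ g : G, g • x ∈ ⋃ k, F k) → NC (⋃ k, F k) →
  ∀ (d : ℕ), ∀ y ∈ ⋃ k, F k, FixedBy (UF d) y → ∀ g : G, g • y = y

/-- ALLF: all points are fixed -/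
def S_ALLF : Prop := ∀ (X : Type) [MetricSpace X] [MulAction G X], Act X → ∀ (F : ℕ → Set X),
  (∀ k, IsCompact (F k)) → (∀ x ∈ ⋃ k, F k, ∀ g : G, g • x ∈ ⋃ k, F k) → NC (⋃ k, F k) →
  ∀ y ∈ ⋃ k, F k, ∀ g : G, g • y = y

/-- FINAL -/
def S_FINAL : Prop := ∀ (X : Type) [MetricSpace X] [MulAction G X], Act X → ∀ (F : ℕ → Set X),
  (∀ k, IsCompact (F k)) → (∀ x ∈ ⋃ k, F k, ∀ g : G, g • x ∈ ⋃ k, F k) →
  ((⋃ k, F k).Countable ∧ ∀ x ∈ ⋃ k, F k, ∀ g : G, g • x = x) ∨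
  ∃ c : (ℕ → Bool) → X, Continuous c ∧ (∀ A, c A ∈ ⋃ k, F k) ∧
    ∀ A A', (∃ g : G, g • c A = c A') → A = A'

end Pool.Agent.H566U
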