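import Mathlib
import Pool.Agent.H566U.Spec

/-! Task CANT: a nonconstant continuous function is injective on a Cantor set. -/

set_option autoImplicit false

namespace Pool.Agent.H566U

open Filter Topology Set MeasureTheory

/-- an uncountable Borel set contains a Cantor set -/
theorem CANT_emb {E : Set ℝ} (hE : MeasurableSet E) (hu : ¬ E.Countable) :
    ∃ κ : (ℕ → Bool) → ℝ, Continuous κ ∧ (∀ x, κ x ∈ E) ∧ Function.Injective κ := by
  obtain ⟨t', ht', hpol, hcl, -⟩ := hE.isClopenable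
  obtain ⟨κ, h1, h2, h3⟩ :=
    @IsClosed.exists_nat_bool_injection_of_not_countable ℝ t' hpol E hcl hu
  exact ⟨κ, continuous_le_rng ht' h2, fun x => h1 (mem_range_self x), h3⟩

/-- the increasing case -/
theorem CANT_aux (a s : ℝ) (f : ℝ → ℝ) (has : a ≤ s) (hf : ContinuousOn f (Icc a s))
    (hlt : f a < f s) : ∃ c : (ℕ → Bool) → ℝ, Continuous c ∧ (∀ x, c x ∈ Icc a s) ∧
    Function.Injective (fun x => f (c x)) := by
  set S : ℝ → Set ℝ := fun v => {t | t ∈ Icc a s ∧ v ≤ f t} with hS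
  have hSc : ∀ v, IsClosed (S v) := by
    intro v
    have : S v = Icc a s ∩ f ⁻¹' (Ici v) := rfl
    rw [this]
    exact hf.preimage_isClosed_of_isClosed isClosed_Icc isClosed_Ici
  have hSb : ∀ v, BddBelow (S v) := fun v => ⟨a, fun t ht => ht.1.1⟩
  have hSne : ∀ v ∈ Icc (f a) (f s), (S v).Nonempty := fun v hv =>
    ⟨s, right_mem_Icc.mpr has, hv.2⟩
  set τ : ℝ → ℝ := fun v => sInf (S v) with hτ
  have hτm : ∀ v ∈ Icc (f a) (f s), τ v ∈ S v := fun v hv =>
    (hSc v).csInf_mem (hSne v hv) (hSb v)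
  have hmono : MonotoneOn τ (Icc (f a) (f s)) := by
    intro v hv v' hv' hvv
    exact csInf_le_csInf (hSb v) (hSne v' hv') (fun t ht => ⟨ht.1, hvv.trans ht.2⟩)
  have hfτ : ∀ v ∈ Icc (f a) (f s), f (τ v) = v := by
    intro v hv
    obtain ⟨h1, h2⟩ := hτm v hv
    refine le_antisymm ?_ h2
    by_contra h3
    push Not at h3
    have h4 : ContinuousOn f (Icc a (τ v)) := hf.mono (Icc_subset_Icc le_rfl h1.2)
    have h5 := intermediate_value_Icc h1.1 h4
    obtain ⟨t, ht, htv⟩ := h5 ⟨hv.1, h2⟩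
    have h6 : t ∈ S v := ⟨⟨ht.1, ht.2.trans h1.2⟩, htv.ge⟩
    have h7 : τ v ≤ t := csInf_le (hSb v) h6
    have h8 : t = τ v := le_antisymm ht.2 h7
    rw [← h8, htv] at h3
    exact lt_irrefl _ h3
  set D : Set ℝ := {v ∈ Icc (f a) (f s) | ¬ ContinuousWithinAt τ (Icc (f a) (f s)) v} with hD
  have hDc : D.Countable := hmono.countable_not_continuousWithinAt
  have hE : MeasurableSet (Icc (f a) (f s) \ D) := measurableSet_Icc.diff hDc.measurableSet
  have hEu : ¬ (Icc (f a) (f s) \ D).Countable := by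
    intro h
    have h1 : (Icc (f a) (f s)).Countable := by
      refine (h.union hDc).mono ?_
      intro v hv
      by_cases hvD : v ∈ D
      · exact Or.inr hvD
      · exact Or.inl ⟨hv, hvD⟩
    exact (Cardinal.Real.Icc_countable_iff.mp h1).not_gt hlt
  obtain ⟨κ, hκ1, hκ2, hκ3⟩ := CANT_emb hE hEu
  refine ⟨fun x => τ (κ x), ?_, fun x => (hτm _ (hκ2 x).1).1, ?_⟩
  · rw [continuous_iff_continuousAt]
    intro x
    have h1 : ContinuousWithinAt τ (Icc (f a) (f s)) (κ x) := by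
      by_contra h2
      exact (hκ2 x).2 ⟨(hκ2 x).1, h2⟩
    have h2 : Tendsto κ (𝓝 x) (𝓝[Icc (f a) (f s)] (κ x)) :=
      tendsto_nhdsWithin_iff.mpr ⟨hκ1.continuousAt, Eventually.of_forall fun y => (hκ2 y).1⟩
    exact h1.tendsto.comp h2
  · intro x y hxy
    simp only [hfτ _ (hκ2 _).1] at hxy
    exact hκ3 hxy

theorem t_CANT : S_CANT := by
  rintro a b f hab hf ⟨s, hs, hne⟩
  have hsub : Icc a s ⊆ Icc a b := Icc_subset_Icc le_rfl hs.2
  rcases lt_or_gt_of_ne hne with h | h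
  · obtain ⟨c, h1, h2, h3⟩ := CANT_aux a s (fun t => -f t) hs.1 (hf.mono hsub).neg
      (by simpa using h)
    refine ⟨c, h1, fun x => hsub (h2 x), fun x y hxy => h3 ?_⟩
    simp only at hxy ⊢
    rw [hxy]
  · obtain ⟨c, h1, h2, h3⟩ := CANT_aux a s f hs.1 (hf.mono hsub) h
    exact ⟨c, h1, fun x => hsub (h2 x), h3⟩

end Pool.Agent.H566U
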