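import Pool.Agent.H566U.Spec

/-! Concentration: the `t`-neighbourhood of a subset of the unit ball which is not small is almost
everything. -/

set_option autoImplicit false

namespace Pool.Agent.H566U

open Filter Topology Set MeasureTheory

private theorem CONC_finrank (M k : ℕ) : Module.finrank ℝ (MM M k) = 2 * (M * k) := by
  have h1 := finrank_real_of_complex (MM M k)
  have h2 : Module.finrank ℂ (MM M k) = M * k := by
    rw [finrank_euclideanSpace, Fintype.card_prod, Fintype.card_fin, Fintype.card_fin]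
  rw [h2] at h1
  exact h1

private theorem CONC_para (M k : ℕ) (x y : MM M k) :
    ‖x + y‖ ^ 2 + ‖x - y‖ ^ 2 = 2 * ‖x‖ ^ 2 + 2 * ‖y‖ ^ 2 := by
  have h := parallelogram_law_with_norm ℂ x y
  nlinarith [h]

/-- the quantitative step -/
private theorem CONC_step (h : S_BMB) (k M : ℕ) (t c ε : ℝ) (ht : 0 < t) (ht1 : t ≤ 1)
    (hc : 0 < c) (hε : 0 < ε)
    (hM : (1 - t ^ 2 / 4) ^ ((Module.finrank ℝ (MM M k) : ℝ) / 2) ≤ min c ε)
    [MeasurableSpace (MM M k)] [BorelSpace (MM M k)] (ν : Measure (MM M k))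
    [ν.IsAddHaarMeasure] (A : Set (MM M k)) (hA : A ⊆ Metric.closedBall 0 1)
    (hns : ¬ Small ν c A) : Small ν ε {Y | ¬ ∃ Z ∈ A, ‖Z - Y‖ < t} := by
  have hAc : closure A ⊆ Metric.closedBall (0 : MM M k) 1 :=
    closure_minimal hA Metric.isClosed_closedBall
  have hBeq : {Y : MM M k | ¬ ∃ Z ∈ A, ‖Z - Y‖ < t} ∩ Metric.closedBall 0 1 =
      {Y : MM M k | ∀ Z ∈ A, t ≤ ‖Z - Y‖} ∩ Metric.closedBall 0 1 := by
    ext Y
    simp only [mem_inter_iff, mem_setOf_eq, not_exists, not_and, not_lt]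
  have hBclosed : IsClosed ({Y : MM M k | ∀ Z ∈ A, t ≤ ‖Z - Y‖} ∩ Metric.closedBall 0 1) := by
    refine IsClosed.inter ?_ Metric.isClosed_closedBall
    have : {Y : MM M k | ∀ Z ∈ A, t ≤ ‖Z - Y‖} = ⋂ Z ∈ A, {Y : MM M k | t ≤ ‖Z - Y‖} := by
      ext Y
      simp only [mem_setOf_eq, mem_iInter]
    rw [this]
    refine isClosed_biInter fun Z _ => ?_
    exact isClosed_le continuous_const (continuous_const.sub continuous_id).norm
  have hsep : ∀ x ∈ closure A, ∀ y ∈ {Y : MM M k | ∀ Z ∈ A, t ≤ ‖Z - Y‖} ∩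
      Metric.closedBall 0 1, t ≤ ‖x - y‖ := by
    intro x hx y hy
    have hcl : IsClosed {z : MM M k | t ≤ ‖z - y‖} :=
      isClosed_le continuous_const (continuous_id.sub continuous_const).norm
    exact closure_minimal (fun Z hZ => hy.1 Z hZ) hcl hx
  have hmain := h (MM M k) ν (CONC_para M k) (closure A)
    ({Y : MM M k | ∀ Z ∈ A, t ≤ ‖Z - Y‖} ∩ Metric.closedBall 0 1) isClosed_closure hBclosed hAc
    inter_subset_right t ht ht1 hsep
  have hmono : ENNReal.ofReal ((1 - t ^ 2 / 4) ^ ((Module.finrank ℝ (MM M k) : ℝ) / 2)) *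
      ν (Metric.closedBall 0 1) ≤ ENNReal.ofReal (min c ε) * ν (Metric.closedBall 0 1) := by
    gcongr
  unfold Small at hns ⊢
  rw [hBeq]
  rw [not_le] at hns
  have hA1 : ν (A ∩ Metric.closedBall 0 1) ≤ ν (closure A) :=
    measure_mono (inter_subset_left.trans subset_closure)
  rcases min_le_iff.mp (hmain.trans hmono) with h1 | h1
  · exfalso
    have h2 : ENNReal.ofReal (min c ε) * ν (Metric.closedBall (0 : MM M k) 1) ≤
        ENNReal.ofReal c * ν (Metric.closedBall (0 : MM M k) 1) := by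
      gcongr
      exact min_le_left _ _
    exact absurd (hns.trans_le (hA1.trans (h1.trans h2))) (lt_irrefl _)
  · refine h1.trans ?_
    gcongr
    exact min_le_right _ _

theorem t_CONC (h : S_BMB) : S_CONC := by
  intro k hk t c ε ht hc hε
  have ht' : 0 < min t 1 := lt_min ht one_pos
  have ht'1 : min t 1 ≤ 1 := min_le_right _ _
  have hq0 : 0 ≤ 1 - (min t 1) ^ 2 / 4 := by nlinarith
  have hq1 : 1 - (min t 1) ^ 2 / 4 < 1 := by nlinarith
  obtain ⟨M₀, hM₀⟩ := exists_pow_lt_of_lt_one (lt_min hc hε) hq1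
  refine ⟨M₀, fun M hM _ _ ν _ A hA hns => ?_⟩
  have hle : (1 - (min t 1) ^ 2 / 4) ^ ((Module.finrank ℝ (MM M k) : ℝ) / 2) ≤ min c ε := by
    have h1 : ((Module.finrank ℝ (MM M k) : ℝ) / 2) = ((M * k : ℕ) : ℝ) := by
      rw [CONC_finrank]
      push_cast
      ring
    rw [h1, Real.rpow_natCast]
    refine le_trans (pow_le_pow_of_le_one hq0 hq1.le ?_) hM₀.le
    exact hM.trans (Nat.le_mul_of_pos_right M hk)
  have := CONC_step h k M (min t 1) c ε ht' ht'1 hc hε hle ν A hA hns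
  unfold Small at this ⊢
  refine le_trans (measure_mono ?_) this
  intro Y hY
  refine ⟨?_, hY.2⟩
  rintro ⟨Z, hZ, hZY⟩
  exact hY.1 ⟨Z, hZ, hZY.trans_le (min_le_left _ _)⟩

end Pool.Agent.H566U
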