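import Mathlib
import Pool.Agent.H566U.Spec

/-! Task CONTR: there is no minimal support. -/

set_option autoImplicit false

namespace Pool.Agent.H566U

open Filter Topology Set MeasureTheory

theorem CONTR_inner (h0 : S_SOTB) (i j : ℕ) :
    inner ℂ (e i) (e j) = (if i = j then (1 : ℂ) else 0) :=
  (orthonormal_iff_ite.mp h0.2.2.1) i j

/-- vectors with vanishing coordinates from `d` on are fixed by `UF d` -/
theorem CONTR_fix (h0 : S_SOTB) (d : ℕ) (u : G) (hu : u ∈ UF d) (x : H)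
    (hx : ∀ n, d ≤ n → inner ℂ (e n) x = (0 : ℂ)) : u x = x := by
  have h1 : x = ∑ i ∈ Finset.range d, (inner ℂ (e i) x : ℂ) • e i := by
    rw [← sub_eq_zero]
    apply h0.2.2.2
    intro n
    rw [inner_sub_right, inner_sum]
    simp only [inner_smul_right, CONTR_inner h0]
    by_cases hn : n < d
    · rw [Finset.sum_eq_single n]
      · simp
      · intro i _ hi
        rw [if_neg (Ne.symm hi), mul_zero]
      · intro h
        exact absurd (Finset.mem_range.mpr hn) h
    · rw [hx n (not_lt.mp hn), Finset.sum_eq_zero, sub_zero]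
      intro i hi
      have := Finset.mem_range.mp hi
      rw [if_neg (by omega), mul_zero]
  have h2 : u (∑ i ∈ Finset.range d, (inner ℂ (e i) x : ℂ) • e i) =
      ∑ i ∈ Finset.range d, (inner ℂ (e i) x : ℂ) • e i := by
    rw [map_sum]
    apply Finset.sum_congr rfl
    intro i hi
    rw [map_smul, hu i (Finset.mem_range.mp hi)]
  rw [← h1] at h2
  exact h2

/-- `US d` normalises `UF d` -/
theorem CONTR_norm (h0 : S_SOTB) (d : ℕ) (w u : G) (hw : w ∈ US d) (hu : u ∈ UF d) :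
    w⁻¹ * u * w ∈ UF d := by
  intro i hi
  show w⁻¹ (u (w (e i))) = e i
  have h1 : u (w (e i)) = w (e i) := by
    apply CONTR_fix h0 d u hu
    intro n hn
    have h2 : e n = w (e n) := (hw n hn).symm
    rw [h2, LinearIsometryEquiv.inner_map_map, CONTR_inner h0, if_neg (by omega)]
  rw [h1]
  exact w.symm_apply_apply (e i)

theorem CONTR_mul (d : ℕ) (v w : G) (hv : v ∈ US d) (hw : w ∈ US d) : v * w ∈ US d := by
  intro i hi
  show v (w (e i)) = e i
  rw [hw i hi, hv i hi]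

theorem t_CONTR (h0 : S_SOTB) (hR : S_ROT) (hS : S_STEP) (hC : S_CPT) (h1 : S_RCL) (h2 : S_RSG)
    (h3 : S_RZ) : S_CONTR := by
  classical
  intro X _ _ hAct F hF hinv hNC d hd hmin y hy hfix g
  by_contra hg
  obtain ⟨rot, hrot⟩ := hR
  set Θ : Set ℝ := {τ | 0 ≤ τ ∧ τ ≤ 1 ∧ ∃ w ∈ US d, RR d y τ (w • y)} with hΘ
  have h1Θ : (1 : ℝ) ∈ Θ := by
    refine ⟨zero_le_one, le_rfl, 1, fun i _ => rfl, ?_⟩
    intro ε hε N
    refine ⟨1, fun i _ _ => rfl, ?_, ?_⟩
    · intro i _
      show ‖(inner ℂ (e i) (e 0) : ℂ) - (if i = 0 then ((1 : ℝ) : ℂ) else 0)‖ < ε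
      rw [CONTR_inner h0]
      have : (if i = 0 then (1 : ℂ) else 0) - (if i = 0 then ((1 : ℝ) : ℂ) else 0) = 0 := by
        split_ifs <;> simp
      rw [this, norm_zero]
      exact hε
    · rw [dist_self]; exact hε
  have hbdd : BddBelow Θ := ⟨0, fun t ht => ht.1⟩
  have hne : Θ.Nonempty := ⟨1, h1Θ⟩
  set τ₀ := sInf Θ with hτ₀
  have h0τ : 0 ≤ τ₀ := le_csInf hne fun t ht => ht.1
  have hτ1 : τ₀ ≤ 1 := csInf_le hbdd h1Θ
  obtain ⟨τ, -, hτt, hτm⟩ := exists_seq_tendsto_sInf hne hbdd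
  choose w hw hwR using fun j => (hτm j).2.2
  obtain ⟨w₀, hw₀, φ, hφ, hSOT⟩ := hC d w hw
  have hlim : Tendsto (fun j => w (φ j) • y) atTop (𝓝 (w₀ • y)) :=
    hAct (fun j => w (φ j)) w₀ (fun _ => y) y hSOT tendsto_const_nhds
  have hRR : RR d y τ₀ (w₀ • y) :=
    h1 X d y (fun j => τ (φ j)) τ₀ (fun j => w (φ j) • y) (w₀ • y) (fun j => hwR (φ j))
      (hτt.comp hφ.tendsto_atTop) hlim
  set z := w₀ • y with hz
  have hzB : z ∈ ⋃ k, F k := hinv y hy w₀
  have hzfix : FixedBy (UF d) z := by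
    intro u hu
    have e1 := hfix _ (CONTR_norm h0 d w₀ u hw₀ hu)
    rw [mul_smul, mul_smul, ← hz] at e1
    have e2 : w₀ • (w₀⁻¹ • u • z) = w₀ • y := by rw [e1]
    rw [smul_inv_smul] at e2
    rw [e2, hz]
  have hzn : ∃ g' : G, g' • z ≠ z := by
    by_contra hcon
    push Not at hcon
    have e1 : y = z := by
      have := hcon w₀⁻¹
      rw [hz, inv_smul_smul] at this
      exact this
    rw [← e1] at hcon
    exact hg (hcon g)
  rcases h0τ.lt_or_eq with hpos | hzero
  · obtain ⟨θ, hθ0, hθ1, v, hv, hvt⟩ := hS X hAct F hF hinv hNC rot hrot d hd hmin z hzB hzfix hzn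
    have e1 := h2 X hAct rot hrot d y τ₀ θ z (v • z) hd hRR hvt
    have hcos0 : 0 < Real.cos θ := Real.cos_pos_of_mem_Ioo ⟨by linarith, hθ1⟩
    have hcos1 : Real.cos θ < 1 := by
      have := Real.cos_lt_cos_of_nonneg_of_le_pi_div_two (le_refl (0 : ℝ)) hθ1.le hθ0
      rwa [Real.cos_zero] at this
    have e2 : Real.cos θ * τ₀ ∈ Θ := by
      refine ⟨by positivity, ?_, v * w₀, CONTR_mul d v w₀ hv hw₀, ?_⟩
      · nlinarith
      · rw [mul_smul, ← hz]; exact e1
    have e3 : τ₀ ≤ Real.cos θ * τ₀ := csInf_le hbdd e2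
    nlinarith
  · rw [← hzero] at hRR
    have e1 := h3 X hAct d y z hd hfix hRR
    set T : Submodule ℂ H := Submodule.span ℂ (((Finset.Ico 1 d).image e : Finset H) : Set H) with hT
    have hTf : FiniteDimensional ℂ T := FiniteDimensional.span_finset ℂ _
    have hTr : Module.finrank ℂ T < d := by
      have e2 : Module.finrank ℂ T ≤ ((Finset.Ico 1 d).image e).card :=
        finrank_span_finset_le_card _
      have e3 : ((Finset.Ico 1 d).image e).card ≤ (Finset.Ico 1 d).card := Finset.card_image_le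
      rw [Nat.card_Ico] at e3
      omega
    have e2 : FixedBy (PS T) z := by
      intro u hu
      apply e1
      intro i hi1 hi2
      apply hu
      apply Submodule.subset_span
      rw [Finset.mem_coe, Finset.mem_image]
      exact ⟨i, Finset.mem_Ico.mpr ⟨hi1, hi2⟩, rfl⟩
    obtain ⟨g', hg'⟩ := hzn
    exact hg' (hmin T hTf hTr z hzB e2 g')

end Pool.Agent.H566U
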