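import Pool.Agent.H566U.Spec

set_option autoImplicit false

/-! Sequential compactness of `U(d)`. -/

namespace Pool.Agent.H566U

open Filter Topology Set

private lemma CPT_expand (h0 : S_SOTB) (d : ℕ) (x : H)
    (hx : ∀ k, d ≤ k → inner ℂ (e k) x = (0 : ℂ)) :
    x = ∑ k : Fin d, (inner ℂ (e k) x : ℂ) • e k := by
  have hite := orthonormal_iff_ite.mp h0.2.2.1
  have key : x - ∑ k : Fin d, (inner ℂ (e k) x : ℂ) • e k = 0 := by
    apply h0.2.2.2
    intro i
    rw [inner_sub_right, inner_sum]
    simp only [inner_smul_right, hite, mul_ite, mul_one, mul_zero]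
    by_cases hi : i < d
    · rw [Finset.sum_eq_single (⟨i, hi⟩ : Fin d)]
      · simp
      · intro k _ hk
        rw [if_neg]
        intro h
        apply hk
        exact Fin.ext h.symm
      · intro h
        exact absurd (Finset.mem_univ _) h
    · rw [Finset.sum_eq_zero, hx i (not_lt.mp hi), sub_zero]
      intro k _
      rw [if_neg]
      intro h
      apply hi
      rw [h]
      exact k.2
  exact sub_eq_zero.mp key

theorem t_CPT (h0 : S_SOTB) (h1 : S_OVI) : S_CPT := by
  intro d w hw
  have hite := orthonormal_iff_ite.mp h0.2.2.1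
  have hnorm : ∀ i, ‖e i‖ = 1 := h0.2.2.1.1
  -- coefficients
  let c : ℕ → Fin d → Fin d → ℂ := fun j i k => inner ℂ (e k) (w j (e i))
  have hexp : ∀ j (i : Fin d), w j (e i) = ∑ k : Fin d, c j i k • e k := by
    intro j i
    apply CPT_expand h0
    intro k hk
    have h2 : w j (e k) = e k := hw j k hk
    have h3 : inner ℂ (w j (e k)) (w j (e i)) = (inner ℂ (e k) (e (i : ℕ)) : ℂ) :=
      (w j).inner_map_map _ _
    rw [h2] at h3
    rw [h3, hite, if_neg]
    intro h
    have := i.2
    omega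
  have hbd : ∀ j, c j ∈ Metric.closedBall (0 : Fin d → Fin d → ℂ) 1 := by
    intro j
    rw [mem_closedBall_zero_iff, pi_norm_le_iff_of_nonneg zero_le_one]
    intro i
    rw [pi_norm_le_iff_of_nonneg zero_le_one]
    intro k
    calc ‖c j i k‖ ≤ ‖e (k : ℕ)‖ * ‖w j (e i)‖ := norm_inner_le_norm _ _
      _ = 1 := by rw [(w j).norm_map, hnorm, hnorm, one_mul]
  obtain ⟨c0, -, φ, hφ, hlim⟩ := tendsto_subseq_of_bounded Metric.isBounded_closedBall hbd
  have hlim' : ∀ i k : Fin d, Tendsto (fun j => c (φ j) i k) atTop (𝓝 (c0 i k)) := by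
    intro i k
    have h2 := tendsto_pi_nhds.mp hlim i
    have h3 := tendsto_pi_nhds.mp h2 k
    exact h3
  let b : Fin d → H := fun i => ∑ k : Fin d, c0 i k • e k
  have hb : ∀ i : Fin d, Tendsto (fun j => w (φ j) (e i)) atTop (𝓝 (b i)) := by
    intro i
    have : (fun j => w (φ j) (e (i : ℕ))) = fun j => ∑ k : Fin d, c (φ j) i k • e (k : ℕ) := by
      funext j
      exact hexp (φ j) i
    rw [this]
    exact tendsto_finsetSum _ fun k _ => (hlim' i k).smul_const _
  have hbon : Orthonormal ℂ b := by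
    rw [orthonormal_iff_ite]
    intro i i'
    have h2 : Tendsto (fun j => (inner ℂ (w (φ j) (e i)) (w (φ j) (e i')) : ℂ)) atTop
        (𝓝 (inner ℂ (b i) (b i'))) := (hb i).inner (hb i')
    have h3 : (fun j => (inner ℂ (w (φ j) (e (i : ℕ))) (w (φ j) (e (i' : ℕ))) : ℂ)) =
        fun _ => if i = i' then 1 else 0 := by
      funext j
      rw [(w (φ j)).inner_map_map, hite]
      simp only [Fin.ext_iff]
    rw [h3] at h2
    exact tendsto_nhds_unique h2 tendsto_const_nhds
  have haon : Orthonormal ℂ (fun i : Fin d => e (i : ℕ)) :=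
    h0.2.2.1.comp _ Fin.val_injective
  obtain ⟨C, -, hC⟩ := h1 d
  obtain ⟨h, hh1, hh2, -⟩ := hC (fun i : Fin d => e (i : ℕ)) b haon hbon
    (∑ i : Fin d, ‖e (i : ℕ) - b i‖) (Finset.sum_nonneg fun i _ => norm_nonneg _)
    (fun i => Finset.single_le_sum (f := fun i : Fin d => ‖e (i : ℕ) - b i‖)
      (fun i _ => norm_nonneg _) (Finset.mem_univ i))
  have hUS : h ∈ US d := by
    intro k hk
    apply hh2
    · intro i
      rw [hite, if_neg]
      have := i.2
      omega
    · intro i
      show inner ℂ (∑ k' : Fin d, c0 i k' • e (k' : ℕ)) (e k) = (0 : ℂ)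
      rw [sum_inner]
      apply Finset.sum_eq_zero
      intro k' _
      rw [inner_smul_left, hite, if_neg, mul_zero]
      have := k'.2
      omega
  refine ⟨h, hUS, φ, hφ, ?_⟩
  apply h0.1
  intro i
  by_cases hi : i < d
  · have h2 := hb ⟨i, hi⟩
    have h3 := hh1 ⟨i, hi⟩
    simp only at h3
    rw [h3]
    exact h2
  · have h2 : h (e i) = e i := hUS i (not_lt.mp hi)
    rw [h2]
    have h3 : (fun k => w (φ k) (e i)) = fun _ => e i := by
      funext k
      exact hw (φ k) i (not_lt.mp hi)
    rw [h3]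
    exact tendsto_const_nhds

end Pool.Agent.H566U
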