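import Pool.Agent.H566U.Spec

set_option autoImplicit false

namespace Pool.Agent.H566U

open Filter Topology Set MeasureTheory

theorem DENS_ext {m : ℕ} {V : Submodule ℂ H} (B : OrthonormalBasis (Fin m) ℂ V) (u v : G)
    (h : ∀ i, u (B i : H) = v (B i : H)) (x : H) (hx : x ∈ V) : u x = v x := by
  have h1 : (u.toLinearEquiv.toLinearMap ∘ₗ V.subtype) = (v.toLinearEquiv.toLinearMap ∘ₗ V.subtype) := by
    apply B.toBasis.ext
    intro i
    rw [OrthonormalBasis.coe_toBasis]
    exact h i
  have h2 := congrArg (fun f : V →ₗ[ℂ] H => f ⟨x, hx⟩) h1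
  exact h2

theorem t_DENS (h : S_OVI) : S_DENS := by
  intro d w v hv N
  let S : Set H := range w ∪ (fun i : Fin N => e i) '' univ
  have hSfin : S.Finite := (finite_range w).union (Set.toFinite _)
  let V : Submodule ℂ H := Submodule.span ℂ S
  have : FiniteDimensional ℂ V := FiniteDimensional.span_of_finite ℂ hSfin
  let B := stdOrthonormalBasis ℂ V
  let a : Fin (Module.finrank ℂ V) → H := fun i => (B i : H)
  have ha : Orthonormal ℂ a := B.orthonormal.comp_linearIsometry V.subtypeₗᵢ
  let b : Fin (Module.finrank ℂ V) → H := fun i => v (a i)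
  have hb : Orthonormal ℂ b := ha.comp_linearIsometry v.toLinearIsometry
  obtain ⟨C, hC, hOV⟩ := h (Module.finrank ℂ V)
  obtain ⟨u, hu1, hu2, _⟩ := hOV a b ha hb 2 (by norm_num) (fun i => by
    calc ‖a i - b i‖ ≤ ‖a i‖ + ‖b i‖ := norm_sub_le _ _
      _ = 2 := by rw [ha.1 i, hb.1 i]; norm_num)
  have huv : ∀ x ∈ V, u x = v x := fun x hx => DENS_ext B u v hu1 x hx
  refine ⟨u, ?_, ?_, Submodule.span ℂ (range a ∪ range b), ?_, ?_⟩
  · intro i
    rw [huv _ (Submodule.subset_span (Or.inl ⟨i, rfl⟩)), hv]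
  · intro i hi
    exact huv _ (Submodule.subset_span (Or.inr ⟨⟨i, hi⟩, mem_univ _, rfl⟩))
  · exact FiniteDimensional.span_of_finite ℂ ((finite_range a).union (finite_range b))
  · intro x hx
    apply hu2
    · intro i
      exact Submodule.inner_right_of_mem_orthogonal (Submodule.subset_span (Or.inl ⟨i, rfl⟩)) hx
    · intro i
      exact Submodule.inner_right_of_mem_orthogonal (Submodule.subset_span (Or.inr ⟨i, rfl⟩)) hx

end Pool.Agent.H566U

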