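import Pool.Agent.H566U.Spec

set_option autoImplicit false

namespace Pool.Agent.H566U

open Filter Topology

theorem DENS2_single (x : H) (n : ℕ) : lp.single 2 n (x n : ℂ) = (x n : ℂ) • e n := by
  unfold e
  rw [← lp.single_smul]
  simp

theorem DENS2_inner (x : H) (n : ℕ) : inner ℂ (e n) x = x n := by
  unfold e
  rw [lp.inner_single_left]
  simp

theorem DENS2_lim (x : H) :
    Tendsto (fun N => ∑ n ∈ Finset.range N, (x n : ℂ) • e n) atTop (𝓝 x) := by
  have h := (lp.hasSum_single (E := fun _ : ℕ => ℂ) (p := 2) (by norm_num) x).tendsto_sum_nat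
  refine h.congr fun N => ?_
  exact Finset.sum_congr rfl fun n _ => DENS2_single x n

theorem DENS2_trunc (x : H) (d : ℕ) (hx : ∀ i < d, inner ℂ (e i) x = (0 : ℂ)) (η : ℝ)
    (hη : 0 < η) : ∃ N0 : ℕ, ∀ N ≥ N0, ‖(∑ n ∈ Finset.Ico d N, (x n : ℂ) • e n) - x‖ ≤ η := by
  obtain ⟨N0, hN0⟩ := (Metric.tendsto_atTop.1 (DENS2_lim x)) η hη
  refine ⟨max N0 d, fun N hN => ?_⟩
  have h1 := hN0 N (le_trans (le_max_left _ _) hN)
  rw [dist_eq_norm] at h1
  have hdN : d ≤ N := le_trans (le_max_right _ _) hN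
  have h2 : ∑ n ∈ Finset.range N, (x n : ℂ) • e n = ∑ n ∈ Finset.Ico d N, (x n : ℂ) • e n := by
    rw [Finset.range_eq_Ico, ← Finset.sum_Ico_consecutive _ (Nat.zero_le d) hdN]
    have h3 : ∑ n ∈ Finset.Ico 0 d, (x n : ℂ) • e n = 0 := by
      apply Finset.sum_eq_zero
      intro n hn
      rw [← DENS2_inner, hx n (Finset.mem_Ico.1 hn).2, zero_smul]
    rw [h3, zero_add]
  rw [← h2]
  exact h1.le

theorem t_DENS2 (h0 : S_SOTB) (h1 : S_OVI) (h2 : S_GS) : S_DENS2 := by
  intro d v hv M ε hε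
  have he : Orthonormal ℂ e := h0.2.2.1
  set k : ℕ := max M d - d with hk
  obtain ⟨η, hη, hGS⟩ := h2 k (ε / 2) (by positivity)
  set η' : ℝ := min (min 1 (η / 3)) (ε / 2) with hη'
  have hη'0 : 0 < η' := lt_min (lt_min one_pos (by positivity)) (by positivity)
  have hη'1 : η' ≤ 1 := (min_le_left _ _).trans (min_le_left _ _)
  have hη'2 : η' ≤ η / 3 := (min_le_left _ _).trans (min_le_right _ _)
  have hη'3 : η' ≤ ε / 2 := min_le_right _ _
  have hvo : Orthonormal ℂ (fun i => v (e i)) := he.comp_linearIsometryEquiv v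
  have hve : ∀ (j : Fin k), ∀ i < d, inner ℂ (e i) (v (e (d + j))) = (0 : ℂ) := by
    intro j i hi
    have h3 : v (e i) = e i := hv i hi
    rw [← h3]
    exact hvo.2 (by omega)
  have hN : ∀ j : Fin k, ∃ N0 : ℕ, ∀ N ≥ N0,
      ‖(∑ n ∈ Finset.Ico d N, ((v (e (d + j)) : H) n : ℂ) • e n) - v (e (d + j))‖ ≤ η' :=
    fun j => DENS2_trunc _ d (hve j) η' hη'0
  choose N0 hN0 using hN
  obtain ⟨N, hNN⟩ : ∃ N : ℕ, ∀ j, N0 j ≤ N := by
    refine ⟨Finset.univ.sup N0, fun j => Finset.le_sup (Finset.mem_univ j)⟩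
  set c : Fin k → H := fun j => ∑ n ∈ Finset.Ico d N, ((v (e (d + j)) : H) n : ℂ) • e n with hc
  have hcv : ∀ j, ‖c j - v (e (d + j))‖ ≤ η' := fun j => hN0 j N (hNN j)
  have hvn : ∀ j : Fin k, ‖v (e (d + j))‖ = 1 := fun j => hvo.1 _
  have hcn : ∀ j, ‖c j‖ ≤ 2 := by
    intro j
    have h3 : c j = (c j - v (e (d + j))) + v (e (d + j)) := by abel
    rw [h3]
    refine (norm_add_le _ _).trans ?_
    have := hcv j
    rw [hvn]
    linarith
  obtain ⟨b, hb, hbc, hbs⟩ := hGS c (by
    intro j l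
    have h3 : (inner ℂ (v (e (d + j))) (v (e (d + l))) : ℂ) = if j = l then 1 else 0 := by
      have h4 := orthonormal_iff_ite.1 hvo (d + j) (d + l)
      rw [h4]
      by_cases hjl : j = l
      · rw [if_pos hjl, if_pos (by rw [hjl])]
      · rw [if_neg hjl, if_neg (fun h' => hjl (Fin.ext (by omega)))]
    rw [← h3]
    have h5 : (inner ℂ (c j) (c l) : ℂ) - inner ℂ (v (e (d + j))) (v (e (d + l))) =
        inner ℂ (c j - v (e (d + j))) (c l) + inner ℂ (v (e (d + j))) (c l - v (e (d + l))) := by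
      rw [inner_sub_left, inner_sub_right]
      ring
    rw [h5]
    refine (norm_add_le _ _).trans ?_
    have h6 := norm_inner_le_norm (𝕜 := ℂ) (c j - v (e (d + j))) (c l)
    have h7 := norm_inner_le_norm (𝕜 := ℂ) (v (e (d + j))) (c l - v (e (d + l)))
    have h8 := hcv j
    have h9 := hcv l
    have h10 := hcn l
    rw [hvn, one_mul] at h7
    have h11 : ‖c j - v (e (d + j))‖ * ‖c l‖ ≤ η' * 2 := by gcongr
    linarith)
  -- the span
  have hspan : ∀ i, (i < d ∨ N ≤ i) → ∀ j, inner ℂ (b j) (e i) = (0 : ℂ) := by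
    intro i hi j
    have h3 : b j ∈ Submodule.span ℂ (Set.range c) := hbs j
    generalize b j = y at h3
    induction h3 using Submodule.span_induction with
    | mem x hx =>
      obtain ⟨l, rfl⟩ := hx
      rw [hc]
      simp only
      rw [sum_inner]
      apply Finset.sum_eq_zero
      intro n hn
      rw [Finset.mem_Ico] at hn
      rw [inner_smul_left, he.2 (by omega), mul_zero]
    | zero => exact inner_zero_left _
    | add x y _ _ hx hy => rw [inner_add_left, hx, hy, add_zero]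
    | smul a x _ hx => rw [inner_smul_left, hx, mul_zero]
  obtain ⟨C, hC, hOVI⟩ := h1 k
  have ha : Orthonormal ℂ (fun j : Fin k => e (d + j)) :=
    he.comp _ (fun j l hjl => Fin.ext (by simpa using hjl))
  obtain ⟨u, hu1, hu2, -⟩ := hOVI (fun j => e (d + j)) b ha hb 2 (by norm_num) (by
    intro i
    refine (norm_sub_le _ _).trans ?_
    rw [ha.1 i, hb.1 i]
    norm_num)
  refine ⟨max N (d + k), u, ?_, ?_, ?_⟩
  · intro i hi
    apply hu2
    · intro j
      exact he.2 (by omega)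
    · intro j
      exact hspan i (Or.inl hi) j
  · intro i hi
    have hi1 : N ≤ i := (le_max_left _ _).trans hi
    have hi2 : d + k ≤ i := (le_max_right _ _).trans hi
    apply hu2
    · intro j
      have := j.2
      exact he.2 (by omega)
    · intro j
      exact hspan i (Or.inr hi1) j
  · intro i hi
    by_cases hid : i < d
    · have h3 : u (e i) = e i := by
        apply hu2
        · intro j
          exact he.2 (by omega)
        · intro j
          exact hspan i (Or.inl hid) j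
      have h4 : v (e i) = e i := hv i hid
      rw [h3, h4, sub_self, norm_zero]
      exact hε.le
    · obtain ⟨j, hj⟩ : ∃ j : ℕ, i = d + j := ⟨i - d, by omega⟩
      have hjk : j < k := by
        rw [hk]
        have := le_max_left M d
        omega
      have h3 := hu1 ⟨j, hjk⟩
      simp only at h3
      rw [hj, h3]
      have h4 := hbc ⟨j, hjk⟩
      have h5 := hcv ⟨j, hjk⟩
      simp only at h5
      calc ‖b ⟨j, hjk⟩ - v (e (d + j))‖ =
          ‖(b ⟨j, hjk⟩ - c ⟨j, hjk⟩) + (c ⟨j, hjk⟩ - v (e (d + j)))‖ := by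
            congr 1; abel
        _ ≤ ‖b ⟨j, hjk⟩ - c ⟨j, hjk⟩‖ + ‖c ⟨j, hjk⟩ - v (e (d + j))‖ := norm_add_le _ _
        _ ≤ ε / 2 + ε / 2 := by linarith
        _ = ε := by ring

end Pool.Agent.H566U
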