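import Pool.Agent.H566U.Spec

set_option autoImplicit false

namespace Pool.Agent.H566U

open Filter Topology Set MeasureTheory

theorem EA_cont {X : Type} [MetricSpace X] [MulAction G X] (hX : Act X) (h : G) :
    Continuous (fun z : X => h • z) := by
  apply SeqContinuous.continuous
  intro s z hs
  exact hX (fun _ => h) h s z (fun v => tendsto_const_nhds) hs

theorem EA_US_mono {N N' : ℕ} (h : N ≤ N') {u : G} (hu : u ∈ US N) : u ∈ US N' :=
  fun i hi => hu i (le_trans h hi)

theorem t_EA (h : S_EAF) (h0 : S_SOTB) (h2 : S_DENS2) : S_EA := by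
  intro X _ _ hX n x K hK hxK
  set L : Set X := closure {z | ∃ u ∈ UF n, u • x = z} with hL
  have hLK : L ⊆ K := by
    apply closure_minimal _ hK.isClosed
    rintro z ⟨u, hu, rfl⟩
    exact hxK u hu
  have hLc : IsCompact L := hK.of_isClosed_subset isClosed_closure hLK
  let I : Type := {g : G // g ∈ UF n ∧ ∃ N, g ∈ US N} × ℕ
  let t : I → Set X := fun i => {z | dist (i.1.1 • z) z ≤ 1 / ((i.2 : ℝ) + 1)}
  have htc : ∀ i, IsClosed (t i) := by
    intro i
    exact isClosed_le ((EA_cont hX i.1.1).dist continuous_id) continuous_const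
  have hst : ∀ u : Finset I, (L ∩ ⋂ i ∈ u, t i).Nonempty := by
    intro u
    let Nf : I → ℕ := fun i => i.1.2.2.choose
    have hNf : ∀ i : I, i.1.1 ∈ US (Nf i) := fun i => i.1.2.2.choose_spec
    let N := u.sup Nf
    let m := u.sup (fun i => i.2)
    let q := u.card
    let en : Fin q → I := fun k => (u.equivFin.symm k : I)
    obtain ⟨g, hg, hd⟩ := h X hX n x K hK hxK N q (fun k => (en k).1.1)
      (fun k => ⟨(en k).1.2.1, EA_US_mono (Finset.le_sup (f := Nf) (u.equivFin.symm k).2)
        (hNf (en k))⟩) (1 / ((m : ℝ) + 1)) (by positivity)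
    refine ⟨g • x, subset_closure ⟨g, hg, rfl⟩, ?_⟩
    rw [Set.mem_iInter₂]
    intro i hi
    have h3 := hd (u.equivFin ⟨i, hi⟩)
    have h4 : en (u.equivFin ⟨i, hi⟩) = i := by
      show ((u.equivFin.symm (u.equivFin ⟨i, hi⟩) : {x // x ∈ u}) : I) = i
      rw [Equiv.symm_apply_apply]
    rw [h4] at h3
    have h5 : i.2 ≤ m := Finset.le_sup (f := fun i : I => i.2) hi
    have h6 : (1 : ℝ) / ((m : ℝ) + 1) ≤ 1 / ((i.2 : ℝ) + 1) := by
      apply one_div_le_one_div_of_le (by positivity)
      have : (i.2 : ℝ) ≤ m := by exact_mod_cast h5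
      linarith
    exact (h3.trans_le h6).le
  obtain ⟨z, hzL, hz⟩ := hLc.inter_iInter_nonempty t htc hst
  refine ⟨z, hzL, fun v hv => ?_⟩
  have hfix : ∀ g : G, g ∈ UF n → (∃ N, g ∈ US N) → g • z = z := by
    intro g hg hN
    have h3 : ∀ m : ℕ, dist (g • z) z ≤ 1 / ((m : ℝ) + 1) := fun m =>
      Set.mem_iInter.1 hz (⟨g, hg, hN⟩, m)
    have h4 : dist (g • z) z ≤ 0 := ge_of_tendsto' tendsto_one_div_add_atTop_nhds_zero_nat h3
    exact dist_le_zero.1 h4
  choose N u hu1 hu2 hu3 using fun j : ℕ => h2 n v hv j (1 / ((j : ℝ) + 1)) (by positivity)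
  have hS : SOT u v := by
    apply h0.1
    intro i
    rw [tendsto_iff_norm_sub_tendsto_zero]
    refine squeeze_zero' (Eventually.of_forall fun k => norm_nonneg _) ?_
      tendsto_one_div_add_atTop_nhds_zero_nat
    filter_upwards [eventually_gt_atTop i] with k hk
    exact hu3 k i hk
  have h3 := hX u v (fun _ => z) z hS tendsto_const_nhds
  have h4 : (fun k => u k • z) = fun _ => z := by
    funext k
    exact hfix _ (hu1 k) ⟨_, hu2 k⟩
  rw [h4] at h3
  exact tendsto_nhds_unique h3 tendsto_const_nhds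

end Pool.Agent.H566U
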