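import Pool.Agent.H566U.Spec

set_option autoImplicit false

namespace Pool.Agent.H566U

open Filter Topology Set MeasureTheory

private lemma EAF_e (h0 : S_SOTB) (i j : ℕ) : inner ℂ (e i) (e j) = if i = j then (1 : ℂ) else 0 := by
  exact (orthonormal_iff_ite.mp h0.2.2.1) i j

private lemma EAF_mul (a b : G) (v : H) : (a * b) v = a (b v) := rfl

private lemma EAF_inv_apply (a : G) (v : H) : a⁻¹ (a v) = v := a.symm_apply_apply v

private lemma EAF_apply_inv (a : G) (v : H) : a (a⁻¹ v) = v := a.apply_symm_apply v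

private lemma EAF_inv_UF {n : ℕ} {u : G} (h : u ∈ UF n) : u⁻¹ ∈ UF n := by
  intro i hi
  have := h i hi
  calc u⁻¹ (e i) = u⁻¹ (u (e i)) := by rw [this]
    _ = e i := EAF_inv_apply _ _

private lemma EAF_inv_US {n : ℕ} {u : G} (h : u ∈ US n) : u⁻¹ ∈ US n := by
  intro i hi
  have := h i hi
  calc u⁻¹ (e i) = u⁻¹ (u (e i)) := by rw [this]
    _ = e i := EAF_inv_apply _ _

private lemma EAF_inner_mul (u : G) (v w : H) : inner ℂ (u v) (u w) = (inner ℂ v w : ℂ) :=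
  u.inner_map_map v w

/-- expansion of `h e(n+j)` -/
private lemma EAF_expand (h0 : S_SOTB) (n k : ℕ) (h : G) (h1 : h ∈ UF n) (h2 : h ∈ US (n + k))
    (j : Fin k) :
    h (e (n + j)) = ∑ l : Fin k, (inner ℂ (e (n + l)) (h (e (n + j))) : ℂ) • e (n + l) := by
  rw [← sub_eq_zero]
  apply h0.2.2.2
  intro i
  rw [inner_sub_right, inner_sum]
  simp only [inner_smul_right, EAF_e h0]
  by_cases hi : i < n
  · have e1 : (inner ℂ (e i) (h (e (n + j))) : ℂ) = 0 := by
      have : (inner ℂ (h (e i)) (h (e (n + j))) : ℂ) = 0 := by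
        rw [EAF_inner_mul, EAF_e h0, if_neg (by omega)]
      rwa [h1 i hi] at this
    rw [e1, Finset.sum_eq_zero]
    · simp
    · intro l _
      rw [if_neg (by omega)]; simp
  · by_cases hi2 : n + k ≤ i
    · have e1 : (inner ℂ (e i) (h (e (n + j))) : ℂ) = 0 := by
        have : (inner ℂ (h (e i)) (h (e (n + j))) : ℂ) = 0 := by
          rw [EAF_inner_mul, EAF_e h0, if_neg (by have := j.2; omega)]
        rwa [h2 i hi2] at this
      rw [e1, Finset.sum_eq_zero]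
      · simp
      · intro l _
        rw [if_neg (by have := l.2; omega)]; simp
    · push Not at hi hi2
      obtain ⟨m, rfl⟩ : ∃ m : ℕ, i = n + m := ⟨i - n, by omega⟩
      have hm : m < k := by omega
      rw [Finset.sum_eq_single (⟨m, hm⟩ : Fin k)]
      · simp
      · intro l _ hl
        rw [if_neg]
        · simp
        · intro h'
          apply hl
          apply Fin.ext
          simp only
          omega
      · intro h'
        exact absurd (Finset.mem_univ _) h'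

/-- the matrix of `h` on the block -/
private noncomputable def EAF_mat (n k : ℕ) (h : G) : Matrix (Fin k) (Fin k) ℂ :=
  Matrix.of fun l j => (inner ℂ (e (n + l)) (h (e (n + j))) : ℂ)

private lemma EAF_mat_unitary (h0 : S_SOTB) (n k : ℕ) (h : G) (h1 : h ∈ UF n)
    (h2 : h ∈ US (n + k)) : EAF_mat n k h ∈ Matrix.unitaryGroup (Fin k) ℂ := by
  rw [Matrix.mem_unitaryGroup_iff']
  ext j j'
  rw [Matrix.mul_apply, Matrix.one_apply]
  have e1 : (inner ℂ (h (e (n + j))) (h (e (n + j'))) : ℂ) = if j = j' then 1 else 0 := by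
    rw [EAF_inner_mul, EAF_e h0]
    by_cases hj : j = j'
    · subst hj; simp
    · rw [if_neg hj, if_neg]
      intro h'
      exact hj (Fin.ext (by omega))
  rw [← e1]
  conv_rhs => rw [EAF_expand h0 n k h h1 h2 j]
  rw [sum_inner]
  apply Finset.sum_congr rfl
  intro l _
  rw [inner_smul_left]
  simp only [Matrix.star_apply, EAF_mat, Matrix.of_apply]
  rfl

private lemma EAF_mat_le (h0 : S_SOTB) (n k : ℕ) (h : G) (l j : Fin k) :
    ‖EAF_mat n k h l j‖ ≤ 1 := by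
  have := norm_inner_le_norm (𝕜 := ℂ) (e (n + l)) (h (e (n + j)))
  rw [h.norm_map, h0.2.2.1.1, h0.2.2.1.1] at this
  simpa [EAF_mat] using this

/-- the column map is a contraction -/
private lemma EAF_col_le (h0 : S_SOTB) {M k : ℕ} (n : ℕ) (Y : MM M k) (j : Fin k) :
    ‖col n Y j‖ ≤ ‖Y‖ := by
  have e1 : ‖col n Y j‖ ^ 2 = ∑ i : Fin M, ‖Y (i, j)‖ ^ 2 := by
    have hO : Orthonormal ℂ (e ∘ (fun i : Fin M => n + (i : ℕ))) :=
      h0.2.2.1.comp (fun i : Fin M => n + (i : ℕ))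
      (fun a b hab => by
        have : n + (a : ℕ) = n + (b : ℕ) := hab
        exact Fin.ext (by omega))
    have h3 := hO.inner_sum (fun i => Y (i, j)) (fun i => Y (i, j)) Finset.univ
    have h4 : (inner ℂ (col n Y j) (col n Y j) : ℂ) =
        ∑ i : Fin M, (starRingEnd ℂ) (Y (i, j)) * Y (i, j) := h3
    have h5 : ∑ i : Fin M, (starRingEnd ℂ) (Y (i, j)) * Y (i, j) =
        ((∑ i : Fin M, ‖Y (i, j)‖ ^ 2 : ℝ) : ℂ) := by
      push_cast
      apply Finset.sum_congr rfl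
      intro i _
      rw [mul_comm, Complex.mul_conj, Complex.normSq_eq_norm_sq]
      push_cast
      rfl
    rw [h5] at h4
    have h6 := inner_self_eq_norm_sq (𝕜 := ℂ) (col n Y j)
    rw [h4] at h6
    rw [← h6]
    exact Complex.ofReal_re _
  have e2 : ∑ i : Fin M, ‖Y (i, j)‖ ^ 2 ≤ ‖Y‖ ^ 2 := by
    rw [EuclideanSpace.norm_sq_eq, Fintype.sum_prod_type_right]
    apply Finset.single_le_sum (f := fun j' : Fin k => ∑ i : Fin M, ‖Y (i, j')‖ ^ 2) _ (Finset.mem_univ j)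
    intro i _
    positivity
  have h4 : ‖col n Y j‖ ^ 2 ≤ ‖Y‖ ^ 2 := by rw [e1]; exact e2
  exact le_of_sq_le_sq h4 (norm_nonneg _)

private lemma EAF_col_sub {M k : ℕ} (n : ℕ) (Y Z : MM M k) (j : Fin k) :
    col n (Z - Y) j = col n Z j - col n Y j := by
  unfold col
  rw [← Finset.sum_sub_distrib]
  apply Finset.sum_congr rfl
  intro i _
  rw [← sub_smul]
  rfl

private lemma EAF_col_mul {M k : ℕ} (n : ℕ) (Y TY : MM M k) (a : Matrix (Fin k) (Fin k) ℂ)
    (h : ∀ i j, TY (i, j) = ∑ l, Y (i, l) * a l j) (j : Fin k) :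
    col n TY j = ∑ l, a l j • col n Y l := by
  unfold col
  simp only [h, Finset.smul_sum, Finset.sum_smul, smul_smul]
  rw [Finset.sum_comm]
  apply Finset.sum_congr rfl
  intro l _
  apply Finset.sum_congr rfl
  intro i _
  rw [mul_comm]

theorem t_EAF (hU : S_UC) (hL : S_LEVY) (hF : S_FRAME) (hR : S_RMUL) (h0 : S_SOTB) : S_EAF := by
  intro X _ _ hact n x K hK hx N q h hh ε hε
  obtain ⟨N1, δ1, hδ1, hUC⟩ := hU X hact K hK (ε / 4) (by positivity)
  set N' : ℕ := max N (max N1 (n + 1)) with hN'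
  obtain ⟨k, hk⟩ : ∃ k, N' = n + k := ⟨N' - n, by omega⟩
  have hk1 : 1 ≤ k := by omega
  have hNN : N ≤ n + k := by omega
  have hN1 : N1 ≤ n + k := by omega
  have hkpos : (0 : ℝ) < k := by exact_mod_cast hk1
  set δ' : ℝ := δ1 / (4 * (k + 1)) with hδ'
  have hδ'pos : 0 < δ' := by positivity
  obtain ⟨η, hη, hFr⟩ := hF n k δ' hk1 hδ'pos
  have hsq : 0 < Real.sqrt k := Real.sqrt_pos.mpr hkpos
  set t : ℝ := δ1 / (4 * Real.sqrt k) with ht
  have htpos : 0 < t := by positivity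
  -- finite cover
  obtain ⟨S, hSf, hS⟩ := Metric.totallyBounded_iff.mp hK.totallyBounded (ε / 9) (by positivity)
  obtain ⟨q', ⟨eq⟩⟩ : ∃ q' : ℕ, Nonempty (Fin q' ≃ S) := by
    have := hSf.to_subtype
    obtain ⟨m, ⟨f⟩⟩ := Finite.exists_equiv_fin S
    exact ⟨m, ⟨f.symm⟩⟩
  -- the unitary blocks
  have hinvUF : ∀ i, (h i)⁻¹ ∈ UF n := fun i => EAF_inv_UF (hh i).1
  have hinvUS : ∀ i, (h i)⁻¹ ∈ US (n + k) := fun i =>
    EAF_inv_US (fun m hm => (hh i).2 m (le_trans hNN hm))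
  -- choose the frames (for all M)
  have hg : ∀ (M : ℕ) (Y : MM M k), ∃ g : G, g ∈ UF n ∧ (Good η Y →
      ∀ j : Fin k, ‖g (e (n + j)) - (Real.sqrt k : ℂ) • col n Y j‖ ≤ δ') := by
    intro M Y
    by_cases hY : Good η Y
    · obtain ⟨g, hg1, hg2⟩ := hFr M Y hY
      exact ⟨g, hg1, fun _ => hg2⟩
    · exact ⟨1, fun i _ => rfl, fun h' => absurd h' hY⟩
  choose gg hgg1 hgg2 using hg
  obtain ⟨M, hM⟩ := hL k q' q t η hk1 htpos hη
  have hT : ∀ i : Fin q, ∃ T : MM M k ≃ₗᵢ[ℂ] MM M k, ∀ Y r j, T Y (r, j) =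
      ∑ l, Y (r, l) * EAF_mat n k (h i)⁻¹ l j := fun i =>
    hR M k _ (EAF_mat_unitary h0 n k _ (hinvUF i) (hinvUS i))
  choose T hT using hT
  set g : MM M k → G := gg M with hgdef
  have hg1 : ∀ Y, g Y ∈ UF n := hgg1 M
  have hg2 : ∀ Y, Good η Y → ∀ j : Fin k,
      ‖g Y (e (n + j)) - (Real.sqrt k : ℂ) • col n Y j‖ ≤ δ' := hgg2 M
  have hgK : ∀ Y, (g Y)⁻¹ • x ∈ K := fun Y => hx _ (EAF_inv_UF (hg1 Y))
  set C : Fin q' → Set (MM M k) := fun j => {Y | Good η Y ∧ dist ((g Y)⁻¹ • x) (eq j : X) < ε / 9}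
    with hC
  obtain ⟨Y, j, hYg, ⟨Z, hZC, hZg, hZY⟩, hTY⟩ := hM C (by
    intro Y _ hY
    have := hS (hgK Y)
    simp only [mem_iUnion, exists_prop] at this
    obtain ⟨y, hy, hyd⟩ := this
    refine ⟨eq.symm ⟨y, hy⟩, hY, ?_⟩
    rw [Equiv.apply_symm_apply]
    exact hyd) T
  -- comparison principle
  have hcomp : ∀ (a b : G), (a⁻¹ • x ∈ K) → (∀ i < n, a (e i) = e i) → (∀ i < n, b (e i) = e i) →
      (∀ l : Fin k, ‖a (e (n + l)) - b (e (n + l))‖ ≤ δ1) →
      dist (b⁻¹ • x) (a⁻¹ • x) < ε / 4 := by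
    intro a b haK ha hb hab
    have := hUC _ haK (b⁻¹ * a) (by
      intro i hi
      rw [EAF_mul]
      have e1 : b⁻¹ (a (e i)) - e i = b⁻¹ (a (e i) - b (e i)) := by
        rw [map_sub, EAF_inv_apply]
      rw [e1, LinearIsometryEquiv.norm_map]
      by_cases hin : i < n
      · rw [ha i hin, hb i hin, sub_self, norm_zero]
        exact hδ1.le
      · have := hab ⟨i - n, by omega⟩
        simp only at this
        rwa [show n + (i - n) = i by omega] at this)
    rwa [smul_smul, mul_assoc, mul_inv_cancel, mul_one] at this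
  have hδsmall : 2 * δ' + Real.sqrt k * t ≤ δ1 := by
    have e1 : Real.sqrt k * t = δ1 / 4 := by
      rw [ht]; field_simp
    have e2 : 2 * δ' ≤ δ1 / 4 := by
      rw [hδ']
      have : (1 : ℝ) ≤ k := by exact_mod_cast hk1
      rw [mul_div_assoc', div_le_div_iff₀ (by positivity) (by norm_num)]
      nlinarith
    linarith
  -- (1)
  have h1 : ∀ Z Y : MM M k, Good η Z → Good η Y → ‖Z - Y‖ < t →
      dist ((g Y)⁻¹ • x) ((g Z)⁻¹ • x) < ε / 4 := by
    intro Z Y hZ hY hZY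
    apply hcomp _ _ (hgK Z) (hg1 Z) (hg1 Y)
    intro l
    have e1 : g Z (e (n + l)) - g Y (e (n + l)) =
        (g Z (e (n + l)) - (Real.sqrt k : ℂ) • col n Z l) +
        ((Real.sqrt k : ℂ) • col n (Z - Y) l) -
        (g Y (e (n + l)) - (Real.sqrt k : ℂ) • col n Y l) := by
      rw [EAF_col_sub, smul_sub]
      abel
    rw [e1]
    have e2 : ‖(Real.sqrt k : ℂ) • col n (Z - Y) l‖ ≤ Real.sqrt k * t := by
      rw [norm_smul, Complex.norm_real, Real.norm_of_nonneg hsq.le]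
      exact mul_le_mul_of_nonneg_left ((EAF_col_le h0 n _ l).trans hZY.le) hsq.le
    calc _ ≤ ‖(g Z (e (n + l)) - (Real.sqrt k : ℂ) • col n Z l) +
        ((Real.sqrt k : ℂ) • col n (Z - Y) l)‖ +
        ‖g Y (e (n + l)) - (Real.sqrt k : ℂ) • col n Y l‖ := norm_sub_le _ _
      _ ≤ ‖g Z (e (n + l)) - (Real.sqrt k : ℂ) • col n Z l‖ +
        ‖(Real.sqrt k : ℂ) • col n (Z - Y) l‖ +
        ‖g Y (e (n + l)) - (Real.sqrt k : ℂ) • col n Y l‖ := by
          gcongr
          exact norm_add_le _ _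
      _ ≤ δ' + Real.sqrt k * t + δ' := by
          gcongr
          · exact hg2 Z hZ l
          · exact hg2 Y hY l
      _ ≤ δ1 := by linarith
  have hZ9 : dist ((g Z)⁻¹ • x) (eq j : X) < ε / 9 := hZC.2
  have hYj : dist ((g Y)⁻¹ • x) (eq j : X) < ε / 4 + ε / 9 :=
    lt_of_le_of_lt (dist_triangle _ _ _) (add_lt_add (h1 Z Y hZg hYg hZY) hZ9)
  refine ⟨(g Y)⁻¹, EAF_inv_UF (hg1 Y), ?_⟩
  intro i
  obtain ⟨hTg, Z', hZ'C, hZ'g, hZ'Y⟩ := hTY i
  have hZ'9 : dist ((g Z')⁻¹ • x) (eq j : X) < ε / 9 := hZ'C.2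
  have hTYj : dist ((g (T i Y))⁻¹ • x) (eq j : X) < ε / 4 + ε / 9 :=
    lt_of_le_of_lt (dist_triangle _ _ _) (add_lt_add (h1 Z' (T i Y) hZ'g hTg hZ'Y) hZ'9)
  have h2 : dist ((g Y * (h i)⁻¹)⁻¹ • x) ((g (T i Y))⁻¹ • x) < ε / 4 := by
    apply hcomp _ _ (hgK _) (hg1 _)
    · intro m hm
      rw [EAF_mul, hinvUF i m hm, hg1 Y m hm]
    · intro l
      rw [EAF_mul]
      have e1 : g Y ((h i)⁻¹ (e (n + l))) = ∑ m : Fin k, EAF_mat n k (h i)⁻¹ m l • g Y (e (n + m)) := by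
        conv_lhs => rw [EAF_expand h0 n k _ (hinvUF i) (hinvUS i) l]
        rw [map_sum]
        apply Finset.sum_congr rfl
        intro m _
        rw [map_smul]
        rfl
      have e2 : g (T i Y) (e (n + l)) - g Y ((h i)⁻¹ (e (n + l))) =
          (g (T i Y) (e (n + l)) - (Real.sqrt k : ℂ) • col n (T i Y) l) -
          ∑ m : Fin k, EAF_mat n k (h i)⁻¹ m l • (g Y (e (n + m)) - (Real.sqrt k : ℂ) • col n Y m) := by
        rw [e1, EAF_col_mul n Y (T i Y) _ (hT i Y) l]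
        simp only [smul_sub, Finset.sum_sub_distrib, Finset.smul_sum]
        have : ∀ m : Fin k, (Real.sqrt k : ℂ) • EAF_mat n k (h i)⁻¹ m l • col n Y m =
            EAF_mat n k (h i)⁻¹ m l • (Real.sqrt k : ℂ) • col n Y m := fun m => smul_comm _ _ _
        simp only [this]
        abel
      rw [e2]
      calc _ ≤ ‖g (T i Y) (e (n + l)) - (Real.sqrt k : ℂ) • col n (T i Y) l‖ +
          ‖∑ m : Fin k, EAF_mat n k (h i)⁻¹ m l •
            (g Y (e (n + m)) - (Real.sqrt k : ℂ) • col n Y m)‖ := norm_sub_le _ _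
        _ ≤ δ' + ∑ m : Fin k, δ' := by
          gcongr
          · exact hg2 _ hTg l
          · refine (norm_sum_le _ _).trans ?_
            apply Finset.sum_le_sum
            intro m _
            rw [norm_smul]
            calc _ ≤ 1 * δ' := mul_le_mul (EAF_mat_le h0 n k _ m l) (hg2 Y hYg m) (norm_nonneg _)
                  zero_le_one
              _ = δ' := one_mul _
        _ = (k + 1) * δ' := by
          rw [Finset.sum_const, Finset.card_univ, Fintype.card_fin, nsmul_eq_mul]; ring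
        _ ≤ δ1 := by
          rw [hδ', mul_div_assoc', div_le_iff₀ (by positivity)]
          nlinarith
  have h3 : h i • ((g Y)⁻¹ • x) = (g Y * (h i)⁻¹)⁻¹ • x := by
    rw [smul_smul, mul_inv_rev, inv_inv]
  rw [h3]
  calc dist ((g Y * (h i)⁻¹)⁻¹ • x) ((g Y)⁻¹ • x)
      ≤ dist ((g Y * (h i)⁻¹)⁻¹ • x) ((g (T i Y))⁻¹ • x) + dist ((g (T i Y))⁻¹ • x) ((g Y)⁻¹ • x) :=
        dist_triangle _ _ _
    _ ≤ dist ((g Y * (h i)⁻¹)⁻¹ • x) ((g (T i Y))⁻¹ • x) + (dist ((g (T i Y))⁻¹ • x) (eq j : X) +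
        dist ((g Y)⁻¹ • x) (eq j : X)) := by
        gcongr
        exact dist_triangle_right _ _ _
    _ < ε / 4 + ((ε / 4 + ε / 9) + (ε / 4 + ε / 9)) := by
        gcongr
    _ ≤ ε := by linarith

end Pool.Agent.H566U
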