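import Pool.Agent.H566U.Spec

set_option autoImplicit false

namespace Pool.Agent.H566U

open Filter Topology Set MeasureTheory

/-- the span of `e 0, …, e (d-1)` -/
noncomputable def EQS_S (d : ℕ) : Submodule ℂ H := Submodule.span ℂ (range fun i : Fin d => e i)

theorem EQS_e_mem {d i : ℕ} (hi : i < d) : e i ∈ EQS_S d :=
  Submodule.subset_span ⟨⟨i, hi⟩, rfl⟩

instance EQS_fin (d : ℕ) : FiniteDimensional ℂ (EQS_S d) :=
  FiniteDimensional.span_of_finite ℂ (Set.finite_range _)

theorem EQS_PS {d : ℕ} {u : G} (hu : u ∈ UF d) : u ∈ PS (EQS_S d) := by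
  intro s hs
  induction hs using Submodule.span_induction with
  | mem x hx =>
    obtain ⟨i, rfl⟩ := hx
    exact hu i i.2
  | zero => exact map_zero u
  | add x y _ _ hx hy => rw [map_add, hx, hy]
  | smul a x _ hx => rw [map_smul, hx]

theorem EQS_UF {d : ℕ} {u : G} (hu : u ∈ PS (EQS_S d)) : u ∈ UF d :=
  fun _ hi => hu _ (EQS_e_mem hi)

theorem EQS_finrank (h0 : Orthonormal ℂ e) (d : ℕ) : Module.finrank ℂ (EQS_S d) = d := by
  have h1 : Orthonormal ℂ (fun i : Fin d => e i) := h0.comp _ Fin.val_injective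
  unfold EQS_S
  rw [finrank_span_eq_card h1.linearIndependent, Fintype.card_fin]

theorem EQS_orth (h0 : Orthonormal ℂ e) {d i : ℕ} (hi : d ≤ i) {s : H} (hs : s ∈ EQS_S d) :
    inner ℂ s (e i) = (0 : ℂ) := by
  induction hs using Submodule.span_induction with
  | mem x hx =>
    obtain ⟨j, rfl⟩ := hx
    exact h0.2 (by have := j.2; omega)
  | zero => exact inner_zero_left _
  | add x y _ _ hx hy => rw [inner_add_left, hx, hy, add_zero]
  | smul a x _ hx => rw [inner_smul_left, hx, mul_zero]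

theorem t_EQS (h0 : S_SOTB) (h1 : S_OVI) (hI : S_INT) : S_EQS := by
  intro X _ _ hAct B d hmin y hy hfix hne g hgfix
  have hon : Orthonormal ℂ e := h0.2.2.1
  have hfr := EQS_finrank hon d
  -- the second subspace
  set S2 : Submodule ℂ H := (EQS_S d).map (g.symm.toLinearEquiv : H →ₗ[ℂ] H) with hS2
  have hfd2 : FiniteDimensional ℂ S2 := by
    rw [hS2]
    infer_instance
  have hfr2 : Module.finrank ℂ S2 = d := by
    rw [hS2, LinearEquiv.finrank_map_eq, hfr]
  have hy1 : FixedBy (PS (EQS_S d)) y := fun u hu => hfix u (EQS_UF hu)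
  have hy2 : FixedBy (PS S2) y := by
    intro u hu
    have h2 : g * u * g⁻¹ ∈ UF d := by
      apply EQS_UF
      intro s hs
      have h3 : g.symm s ∈ S2 := ⟨s, hs, rfl⟩
      have h4 := hu _ h3
      show g (u (g.symm s)) = s
      rw [h4, LinearIsometryEquiv.apply_symm_apply]
    have h5 := hgfix _ h2
    rw [mul_smul, mul_smul, inv_smul_smul] at h5
    exact smul_left_cancel g h5
  have hy3 := hI X hAct (EQS_S d) S2 (EQS_fin d) hfd2 y hy1 hy2
  have hinf : EQS_S d ⊓ S2 = EQS_S d := by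
    by_contra hcon
    have hlt : EQS_S d ⊓ S2 < EQS_S d := lt_of_le_of_ne inf_le_left hcon
    have h2 : Module.finrank ℂ (EQS_S d ⊓ S2 : Submodule ℂ H) < d := by
      have h3 := Submodule.finrank_lt_finrank_of_lt hlt
      rwa [hfr] at h3
    obtain ⟨k, hk⟩ := hne
    exact hk (hmin _ inferInstance h2 y hy hy3 k)
  have hle : EQS_S d ≤ S2 := by
    rw [← hinf]
    exact inf_le_right
  have heq : EQS_S d = S2 := Submodule.eq_of_le_of_finrank_eq hle (by rw [hfr, hfr2])
  have hg : ∀ s ∈ EQS_S d, g s ∈ EQS_S d := by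
    intro s hs
    have h2 : s ∈ S2 := heq ▸ hs
    obtain ⟨s', hs', rfl⟩ := h2
    show g (g.symm s') ∈ EQS_S d
    rw [LinearIsometryEquiv.apply_symm_apply]
    exact hs'
  obtain ⟨C, _, hC⟩ := h1 d
  have ha : Orthonormal ℂ (fun i : Fin d => e i) := hon.comp _ Fin.val_injective
  have hb : Orthonormal ℂ (fun i : Fin d => g (e i)) :=
    ha.comp_linearIsometryEquiv g
  obtain ⟨h, hh1, hh2, -⟩ := hC (fun i : Fin d => e i) (fun i : Fin d => g (e i)) ha hb 2
    (by norm_num) (by
      intro i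
      calc ‖e i - g (e i)‖ ≤ ‖e i‖ + ‖g (e i)‖ := norm_sub_le _ _
        _ = 2 := by rw [LinearIsometryEquiv.norm_map, hon.1]; norm_num)
  refine ⟨h, ?_, ?_⟩
  · intro i hi
    apply hh2
    · intro j
      exact EQS_orth hon hi (EQS_e_mem j.2)
    · intro j
      exact EQS_orth hon hi (hg _ (EQS_e_mem j.2))
  · have h2 : h⁻¹ * g ∈ UF d := by
      intro i hi
      have h3 : h (e i) = g (e i) := hh1 ⟨i, hi⟩
      show h.symm (g (e i)) = e i
      rw [← h3, LinearIsometryEquiv.symm_apply_apply]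
    have h4 := hfix _ h2
    rw [mul_smul, inv_smul_eq_iff] at h4
    exact h4.symm

end Pool.Agent.H566U
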