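import Pool.Agent.H566U.Spec

/-! Task FINAL. -/

set_option autoImplicit false

namespace Pool.Agent.H566U

open Filter Topology Set MeasureTheory

theorem FINAL_cantor {X : Type} [MetricSpace X] {K : Set X} (hK : IsCompact K)
    (hc : ¬ K.Countable) :
    ∃ c : (ℕ → Bool) → X, Continuous c ∧ (∀ A, c A ∈ K) ∧ Function.Injective c := by
  have : CompactSpace K := isCompact_iff_compactSpace.1 hK
  have hnc : ¬ (univ : Set K).Countable := by
    intro h
    apply hc
    have h1 := h.image (Subtype.val : K → X)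
    rwa [image_univ, Subtype.range_coe] at h1
  obtain ⟨f, -, hf, hi⟩ :=
    (isClosed_univ (X := K)).exists_nat_bool_injection_of_not_countable hnc
  exact ⟨fun A => (f A : X), continuous_subtype_val.comp hf, fun A => (f A).2,
    Subtype.val_injective.comp hi⟩

theorem t_FINAL (h : S_ALLF) : S_FINAL := by
  intro X _ _ hA F hF hinv
  by_cases hNC : NC (⋃ k, F k)
  · have hfix := h X hA F hF hinv hNC
    refine Or.inl ⟨countable_iUnion fun k => ?_, hfix⟩
    by_contra hun
    obtain ⟨c, hc, hcF, hci⟩ := FINAL_cantor (hF k) hun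
    refine hNC ⟨c, hc, fun A => mem_iUnion.2 ⟨k, hcF A⟩, ?_⟩
    rintro A A' ⟨g, hg⟩
    rw [hfix (c A) (mem_iUnion.2 ⟨k, hcF A⟩) g] at hg
    exact hci hg
  · refine Or.inr ?_
    unfold NC at hNC
    rw [not_not] at hNC
    exact hNC

end Pool.Agent.H566U
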