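import Pool.Agent.H566U.Spec

/-! Task FINS: all finitely supported points are fixed. -/

set_option autoImplicit false

namespace Pool.Agent.H566U

open Filter Topology Set MeasureTheory

theorem FINS_aux (h0 : S_SOTB) (h1 : S_OVI) (hC : S_CONTR) (X : Type) [MetricSpace X]
    [MulAction G X] (hA : Act X) (F : ℕ → Set X) (hF : ∀ k, IsCompact (F k))
    (hinv : ∀ x ∈ ⋃ k, F k, ∀ g : G, g • x ∈ ⋃ k, F k) (hNC : NC (⋃ k, F k)) (n : ℕ) :
    ∀ T : Submodule ℂ H, FiniteDimensional ℂ T → Module.finrank ℂ T = n → ∀ x ∈ ⋃ k, F k,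
      FixedBy (PS T) x → ∀ g : G, g • x = x := by
  induction n using Nat.strong_induction_on with
  | _ n ih =>
    intro T hT hn x hx hfix g
    rcases Nat.eq_zero_or_pos n with hn0 | hn0
    · rw [hn0] at hn
      have hbot : T = ⊥ := Submodule.finrank_eq_zero.1 hn
      refine hfix g fun s hs => ?_
      rw [hbot, Submodule.mem_bot] at hs
      rw [hs, map_zero]
    · have hmin : MinSupp (⋃ k, F k) n := fun T' hT' hlt y hy hy' =>
        ih _ hlt T' hT' rfl y hy hy'
      -- the orthonormal basis
      let bT := stdOrthonormalBasis ℂ T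
      let a : Fin (Module.finrank ℂ T) → H := fun i => (bT i : H)
      have ha : Orthonormal ℂ a := bT.orthonormal.comp_linearIsometry T.subtypeₗᵢ
      let b : Fin (Module.finrank ℂ T) → H := fun i => e i
      have hb : Orthonormal ℂ b := h0.2.2.1.comp (fun i : Fin (Module.finrank ℂ T) => (i : ℕ))
        Fin.val_injective
      obtain ⟨C, hC0, hov⟩ := h1 (Module.finrank ℂ T)
      obtain ⟨h, hab, -, -⟩ := hov a b ha hb (∑ i, ‖a i - b i‖)
        (Finset.sum_nonneg fun i _ => norm_nonneg _)
        (fun i => Finset.single_le_sum (f := fun i => ‖a i - b i‖)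
          (fun i _ => norm_nonneg _) (Finset.mem_univ i))
      have hspan : ∀ u ∈ UF n, ∀ s ∈ T, u (h s) = h s := by
        intro u hu s hs
        have hs1 : s = ∑ i, (inner ℂ (bT i) (⟨s, hs⟩ : T) : ℂ) • a i := by
          have h2 := congrArg (Subtype.val : T → H) (bT.sum_repr' ⟨s, hs⟩)
          rw [Submodule.coe_sum] at h2
          exact h2.symm
        rw [hs1, map_sum, map_sum]
        refine Finset.sum_congr rfl fun i _ => ?_
        rw [map_smul, map_smul, hab i]
        congr 1
        exact hu i (by rw [← hn]; exact i.2)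
      have hx' : h • x ∈ ⋃ k, F k := hinv x hx h
      have hfix' : FixedBy (UF n) (h • x) := by
        intro u hu
        have h3 : (h⁻¹ * u * h) ∈ PS T := by
          intro s hs
          show h.symm (u (h s)) = s
          rw [hspan u hu s hs, LinearIsometryEquiv.symm_apply_apply]
        have h4 := hfix _ h3
        have h5 : u * h = h * (h⁻¹ * u * h) := by group
        rw [← mul_smul, h5, mul_smul, h4]
      have hall := hC X hA F hF hinv hNC n hn0 hmin (h • x) hx' hfix'
      have h6 : x = h • x := by
        have h7 := hall h⁻¹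
        rw [inv_smul_smul] at h7
        exact h7
      rw [h6]
      exact hall g

theorem t_FINS (h0 : S_SOTB) (h1 : S_OVI) (hC : S_CONTR) : S_FINS := by
  intro X _ _ hA F hF hinv hNC d y hy hfix g
  have hT : FiniteDimensional ℂ (Submodule.span ℂ (e '' Set.Iio d)) :=
    FiniteDimensional.span_of_finite ℂ ((Set.finite_Iio d).image e)
  refine FINS_aux h0 h1 hC X hA F hF hinv hNC _ (Submodule.span ℂ (e '' Set.Iio d)) hT rfl y hy
    (fun u hu => hfix u fun i hi => ?_) g
  exact hu (e i) (Submodule.subset_span ⟨i, hi, rfl⟩)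

end Pool.Agent.H566U
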