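import Pool.Agent.H566U.Spec

set_option autoImplicit false

namespace Pool.Agent.H566U

open Filter Topology Set MeasureTheory

theorem t_FRAME (h0 : S_SOTB) (h1 : S_OVI) (h2 : S_GS) : S_FRAME := by
  intro n k δ hk hδ
  obtain ⟨-, -, hON, -⟩ := h0
  obtain ⟨η0, hη0, hGS⟩ := h2 k δ hδ
  obtain ⟨C, hC, hOV⟩ := h1 k
  have hk0 : (0 : ℝ) < k := by exact_mod_cast hk
  refine ⟨η0 / k, by positivity, fun M Y hY => ?_⟩
  have hONM : Orthonormal ℂ (fun i : Fin M => e (n + i)) :=
    hON.comp (fun i : Fin M => n + (i : ℕ)) (fun a b hab => by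
      apply Fin.ext; simpa using hab)
  have hONk : Orthonormal ℂ (fun i : Fin k => e (n + i)) :=
    hON.comp (fun i : Fin k => n + (i : ℕ)) (fun a b hab => by
      apply Fin.ext; simpa using hab)
  have hne : ∀ i j : ℕ, i ≠ j → inner ℂ (e i) (e j) = (0 : ℂ) := fun i j hij => hON.2 hij
  have inner_col : ∀ j l : Fin k, inner ℂ (col n Y j) (col n Y l)
      = ∑ i : Fin M, (starRingEnd ℂ) (Y (i, j)) * Y (i, l) := by
    intro j l
    exact hONM.inner_sum (fun i => Y (i, j)) (fun i => Y (i, l)) Finset.univ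
  set c : Fin k → H := fun j => (Real.sqrt k : ℂ) • col n Y j with hc
  have hsq : ((Real.sqrt k : ℝ) : ℂ) * ((Real.sqrt k : ℝ) : ℂ) = (k : ℂ) := by
    rw [← Complex.ofReal_mul, Real.mul_self_sqrt hk0.le]; simp
  have hcin : ∀ j l, ‖(inner ℂ (c j) (c l) : ℂ) - (if j = l then 1 else 0)‖ ≤ η0 := by
    intro j l
    have e1 : (inner ℂ (c j) (c l) : ℂ) = (k : ℂ) * ∑ i : Fin M, (starRingEnd ℂ) (Y (i, j)) * Y (i, l) := by
      rw [hc]
      simp only [inner_smul_left, inner_smul_right, Complex.conj_ofReal]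
      rw [inner_col, ← hsq]; ring
    have hkc : (k : ℂ) ≠ 0 := by exact_mod_cast hk0.ne'
    have e2 : (inner ℂ (c j) (c l) : ℂ) - (if j = l then 1 else 0) = (k : ℂ) *
        ((∑ i : Fin M, (starRingEnd ℂ) (Y (i, j)) * Y (i, l)) - (if j = l then (1 / k : ℂ) else 0)) := by
      rw [e1]
      split_ifs
      · field_simp
      · ring
    rw [e2, norm_mul]
    have e3 := hY j l
    calc ‖(k : ℂ)‖ * _ ≤ (k : ℝ) * (η0 / k) := by
          rw [Complex.norm_natCast]
          exact mul_le_mul_of_nonneg_left e3 hk0.le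
      _ = η0 := by field_simp
  obtain ⟨b, hb, hbc, hbs⟩ := hGS c hcin
  obtain ⟨g, hg1, hg2, -⟩ := hOV (fun j => e (n + j)) b hONk hb 2 (by norm_num) (by
    intro i
    calc ‖e (n + i) - b i‖ ≤ ‖e (n + i)‖ + ‖b i‖ := norm_sub_le _ _
      _ = 2 := by rw [hON.1, hb.1]; norm_num)
  refine ⟨g, ?_, ?_⟩
  · intro i hi
    apply hg2
    · intro j
      exact hne _ _ (by omega)
    · intro j
      have hspan : ∀ x ∈ Submodule.span ℂ (range c), inner ℂ x (e i) = (0 : ℂ) := by
        intro x hx
        induction hx using Submodule.span_induction with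
        | mem x hx =>
          obtain ⟨l, rfl⟩ := hx
          rw [hc]
          simp only [inner_smul_left]
          have : inner ℂ (col n Y l) (e i) = (0 : ℂ) := by
            unfold col
            rw [sum_inner]
            apply Finset.sum_eq_zero
            intro m _
            rw [inner_smul_left, hne _ _ (by omega), mul_zero]
          rw [this, mul_zero]
        | zero => simp
        | add x y _ _ hx hy => rw [inner_add_left, hx, hy, add_zero]
        | smul a x _ hx => rw [inner_smul_left, hx, mul_zero]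
      exact hspan _ (hbs j)
  · intro j
    rw [hg1 j]
    exact hbc j

end Pool.Agent.H566U
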