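import Pool.Agent.H566U.Spec

/-! GOODP: most points of the unit ball are good (helper747). -/

set_option autoImplicit false

namespace Pool.Agent.H566U

open Filter Topology Set MeasureTheory

/-- a complex number with squared modulus one half -/
noncomputable def GOODP_a : ℂ := ⟨1 / 2, 1 / 2⟩

noncomputable def GOODP_z (s : Fin 2) : ℂ := if s = 0 then 1 else Complex.I

/-- the unit vectors -/
noncomputable def GOODP_c {k : ℕ} (t : Fin k × Fin k × Fin 2) : Fin k → ℂ :=
  if t.1 = t.2.1 then Pi.single t.1 1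
  else fun m => (if m = t.1 then GOODP_a else 0) + if m = t.2.1 then GOODP_a * GOODP_z t.2.2 else 0

theorem GOODP_na : ‖GOODP_a‖ ^ 2 = 1 / 2 := by
  rw [Complex.sq_norm, Complex.normSq_apply, GOODP_a]
  norm_num

theorem GOODP_nz (s : Fin 2) : ‖GOODP_z s‖ = 1 := by
  unfold GOODP_z
  split_ifs
  · simp
  · simp

theorem GOODP_unit {k : ℕ} (t : Fin k × Fin k × Fin 2) : ∑ j, ‖GOODP_c t j‖ ^ 2 = 1 := by
  obtain ⟨j, l, s⟩ := t
  unfold GOODP_c
  by_cases h : j = l
  · rw [if_pos h, Finset.sum_eq_single j]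
    · simp
    · intro m _ hm
      rw [Pi.single_eq_of_ne hm]
      simp
    · intro hj
      exact absurd (Finset.mem_univ _) hj
  · rw [if_neg h]
    have h1 : ∀ m : Fin k, ‖(if m = j then GOODP_a else 0) +
        (if m = l then GOODP_a * GOODP_z s else 0)‖ ^ 2 =
        (if m = j then (1 / 2 : ℝ) else 0) + if m = l then (1 / 2 : ℝ) else 0 := by
      intro m
      by_cases hj : m = j
      · have hl : m ≠ l := fun h' => h (hj.symm.trans h')
        rw [if_pos hj, if_neg hl, if_pos hj, if_neg hl, add_zero, add_zero, GOODP_na]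
      · by_cases hl : m = l
        · rw [if_neg hj, if_pos hl, if_neg hj, if_pos hl, zero_add, zero_add, norm_mul,
            GOODP_nz, mul_one, GOODP_na]
        · rw [if_neg hj, if_neg hl, if_neg hj, if_neg hl]
          simp
    show ∑ m : Fin k, ‖(if m = j then GOODP_a else 0) +
        (if m = l then GOODP_a * GOODP_z s else 0)‖ ^ 2 = 1
    rw [Finset.sum_congr rfl fun m _ => h1 m, Finset.sum_add_distrib,
      Finset.sum_ite_eq' Finset.univ j (fun _ => (1 / 2 : ℝ)),
      Finset.sum_ite_eq' Finset.univ l (fun _ => (1 / 2 : ℝ)), if_pos (Finset.mem_univ _),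
      if_pos (Finset.mem_univ _)]
    norm_num

/-- the square norm of the column combination -/
noncomputable def GOODP_N {M k : ℕ} (Y : MM M k) (c : Fin k → ℂ) : ℝ :=
  ∑ i : Fin M, ‖∑ j, Y (i, j) * c j‖ ^ 2

/-- the Gram matrix -/
noncomputable def GOODP_g {M k : ℕ} (Y : MM M k) (j l : Fin k) : ℂ :=
  ∑ i : Fin M, (starRingEnd ℂ) (Y (i, j)) * Y (i, l)

/-- the squared norms of the columns -/
noncomputable def GOODP_d {M k : ℕ} (Y : MM M k) (j : Fin k) : ℝ := ∑ i : Fin M, ‖Y (i, j)‖ ^ 2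

theorem GOODP_gd {M k : ℕ} (Y : MM M k) (j : Fin k) : GOODP_g Y j j = (GOODP_d Y j : ℂ) := by
  unfold GOODP_g GOODP_d
  push_cast
  refine Finset.sum_congr rfl fun i _ => ?_
  rw [Complex.conj_mul']

theorem GOODP_diag {M k : ℕ} (Y : MM M k) (j : Fin k) (s : Fin 2) :
    GOODP_N Y (GOODP_c (j, j, s)) = GOODP_d Y j := by
  unfold GOODP_N GOODP_c GOODP_d
  refine Finset.sum_congr rfl fun i _ => ?_
  rw [if_pos rfl, Finset.sum_eq_single j]
  · simp
  · intro m _ hm
    rw [Pi.single_eq_of_ne hm, mul_zero]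
  · intro hj
    exact absurd (Finset.mem_univ _) hj

theorem GOODP_sum {M k : ℕ} (Y : MM M k) (j l : Fin k) (h : j ≠ l) (s : Fin 2) (i : Fin M) :
    ∑ m, Y (i, m) * GOODP_c (j, l, s) m = Y (i, j) * GOODP_a +
      Y (i, l) * (GOODP_a * GOODP_z s) := by
  unfold GOODP_c
  rw [if_neg h]
  show ∑ m, Y (i, m) * ((if m = j then GOODP_a else 0) +
        (if m = l then GOODP_a * GOODP_z s else 0)) = _
  simp only [mul_add, mul_ite, mul_zero]
  rw [Finset.sum_add_distrib, Finset.sum_ite_eq' Finset.univ j (fun m => Y (i, m) * GOODP_a),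
    Finset.sum_ite_eq' Finset.univ l (fun m => Y (i, m) * (GOODP_a * GOODP_z s)),
    if_pos (Finset.mem_univ _), if_pos (Finset.mem_univ _)]

theorem GOODP_id0 (u v : ℂ) : ‖u * GOODP_a + v * (GOODP_a * 1)‖ ^ 2 =
    (‖u‖ ^ 2 + ‖v‖ ^ 2) / 2 + ((starRingEnd ℂ) u * v).re := by
  rw [Complex.sq_norm, Complex.sq_norm, Complex.sq_norm, Complex.normSq_apply,
    Complex.normSq_apply, Complex.normSq_apply]
  simp only [GOODP_a, Complex.add_re, Complex.add_im, Complex.mul_re, Complex.mul_im,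
    Complex.conj_re, Complex.conj_im, Complex.one_re, Complex.one_im]
  ring

theorem GOODP_id1 (u v : ℂ) : ‖u * GOODP_a + v * (GOODP_a * Complex.I)‖ ^ 2 =
    (‖u‖ ^ 2 + ‖v‖ ^ 2) / 2 - ((starRingEnd ℂ) u * v).im := by
  rw [Complex.sq_norm, Complex.sq_norm, Complex.sq_norm, Complex.normSq_apply,
    Complex.normSq_apply, Complex.normSq_apply]
  simp only [GOODP_a, Complex.add_re, Complex.add_im, Complex.mul_re, Complex.mul_im,
    Complex.conj_re, Complex.conj_im, Complex.I_re, Complex.I_im]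
  ring

theorem GOODP_off0 {M k : ℕ} (Y : MM M k) (j l : Fin k) (h : j ≠ l) :
    GOODP_N Y (GOODP_c (j, l, 0)) = (GOODP_d Y j + GOODP_d Y l) / 2 + (GOODP_g Y j l).re := by
  unfold GOODP_N GOODP_d GOODP_g
  rw [← Finset.sum_add_distrib, Finset.sum_div, Complex.re_sum, ← Finset.sum_add_distrib]
  refine Finset.sum_congr rfl fun i _ => ?_
  rw [GOODP_sum Y j l h, GOODP_z, if_pos rfl]
  exact GOODP_id0 _ _

theorem GOODP_off1 {M k : ℕ} (Y : MM M k) (j l : Fin k) (h : j ≠ l) :
    GOODP_N Y (GOODP_c (j, l, 1)) = (GOODP_d Y j + GOODP_d Y l) / 2 - (GOODP_g Y j l).im := by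
  unfold GOODP_N GOODP_d GOODP_g
  rw [← Finset.sum_add_distrib, Finset.sum_div, Complex.im_sum, ← Finset.sum_sub_distrib]
  refine Finset.sum_congr rfl fun i _ => ?_
  rw [GOODP_sum Y j l h, GOODP_z, if_neg (by decide)]
  exact GOODP_id1 _ _

theorem GOODP_good {M k : ℕ} (η : ℝ) (Y : MM M k)
    (h : ∀ t : Fin k × Fin k × Fin 2, |GOODP_N Y (GOODP_c t) - 1 / k| ≤ η / 4) : Good η Y := by
  have hη : 0 ≤ η ∨ IsEmpty (Fin k) := by
    rcases isEmpty_or_nonempty (Fin k) with h0 | ⟨⟨j⟩⟩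
    · exact Or.inr h0
    · have := (abs_nonneg _).trans (h (j, j, 0))
      left
      linarith
  have hd : ∀ j, |GOODP_d Y j - 1 / k| ≤ η / 4 := by
    intro j
    have := h (j, j, 0)
    rwa [GOODP_diag] at this
  intro j l
  have hη0 : 0 ≤ η := by
    rcases hη with h0 | h0
    · exact h0
    · exact (h0.false j).elim
  show ‖GOODP_g Y j l - (if j = l then (1 / k : ℂ) else 0)‖ ≤ η
  by_cases hjl : j = l
  · subst hjl
    rw [if_pos rfl, GOODP_gd]
    have e : ((GOODP_d Y j : ℝ) : ℂ) - 1 / (k : ℂ) = ((GOODP_d Y j - 1 / k : ℝ) : ℂ) := by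
      push_cast
      rfl
    rw [e, Complex.norm_real, Real.norm_eq_abs]
    exact (hd j).trans (by linarith)
  · rw [if_neg hjl, sub_zero]
    have h0 := h (j, l, 0)
    have h1 := h (j, l, 1)
    rw [GOODP_off0 Y j l hjl] at h0
    rw [GOODP_off1 Y j l hjl] at h1
    have h2 := hd j
    have h3 := hd l
    rw [abs_le] at h0 h1 h2 h3
    have hre : |(GOODP_g Y j l).re| ≤ η / 2 := by
      rw [abs_le]
      constructor <;> linarith
    have him : |(GOODP_g Y j l).im| ≤ η / 2 := by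
      rw [abs_le]
      constructor <;> linarith
    have h4 := Complex.norm_le_abs_re_add_abs_im (GOODP_g Y j l)
    linarith

theorem t_GOODP (h : S_MED) : S_GOODP := by
  intro k hk η ε hη hε
  have hk0 : (0 : ℝ) < k := by exact_mod_cast hk
  obtain ⟨M₀, hM₀⟩ := h k hk (η / 4) (ε / (2 * (k : ℝ) ^ 2)) (by positivity) (by positivity)
  refine ⟨M₀, fun M hM _ _ ν _ => ?_⟩
  have hs := fun t : Fin k × Fin k × Fin 2 => hM₀ M hM ν (GOODP_c t) (GOODP_unit t)
  unfold Small at hs ⊢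
  have hsub : {Y : MM M k | ¬ Good η Y} ∩ Metric.closedBall 0 1 ⊆
      ⋃ t : Fin k × Fin k × Fin 2, ({Y : MM M k | η / 4 <
        |∑ i : Fin M, ‖∑ j, Y (i, j) * GOODP_c t j‖ ^ 2 - 1 / k|} ∩ Metric.closedBall 0 1) := by
    rintro Y ⟨hY1, hY2⟩
    by_contra hcon
    apply hY1
    apply GOODP_good
    intro t
    by_contra hlt
    apply hcon
    rw [mem_iUnion]
    exact ⟨t, not_le.1 hlt, hY2⟩
  refine (measure_mono hsub).trans ((measure_iUnion_fintype_le ν _).trans ?_)
  refine (Finset.sum_le_sum fun t _ => hs t).trans ?_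
  rw [Finset.sum_const, Finset.card_univ, Fintype.card_prod, Fintype.card_prod, Fintype.card_fin,
    Fintype.card_fin, nsmul_eq_mul, ← mul_assoc]
  gcongr
  have e : ((k * (k * 2) : ℕ) : ENNReal) = ENNReal.ofReal ((k * (k * 2) : ℕ) : ℝ) := by
    rw [ENNReal.ofReal_natCast]
  rw [e, ← ENNReal.ofReal_mul (by positivity)]
  apply ENNReal.ofReal_le_ofReal
  push_cast
  have : (k : ℝ) * (k * 2) * (ε / (2 * (k : ℝ) ^ 2)) = ε := by
    field_simp
  rw [this]

end Pool.Agent.H566U
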