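import Pool.Agent.H566U.Spec

/-! Task GS: almost orthonormal families are close to orthonormal families. -/

set_option autoImplicit false

namespace Pool.Agent.H566U

open Filter Topology Set MeasureTheory

theorem GS_step {E : Type*} [NormedAddCommGroup E] [InnerProductSpace ℂ E] (k : ℕ)
    (δ₁ η m : ℝ) (hm : 0 < m) (hm1 : m ≤ 1) (hδ₁ : 0 ≤ δ₁) (hη : 0 ≤ η)
    (hs : (k : ℝ) * (η + 2 * δ₁) ≤ m / 4) (hη4 : η ≤ m / 4)
    (c : Fin (k + 1) → E)
    (hc : ∀ j l, ‖(inner ℂ (c j) (c l) : ℂ) - (if j = l then 1 else 0)‖ ≤ η)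
    (b : Fin k → E) (hb : Orthonormal ℂ b) (hbc : ∀ j, ‖b j - c j.castSucc‖ ≤ δ₁)
    (hbs : ∀ j, b j ∈ Submodule.span ℂ (range fun j : Fin k => c j.castSucc)) :
    ∃ u : E, ‖u‖ = 1 ∧ (∀ j, inner ℂ (b j) u = (0 : ℂ)) ∧ ‖u - c (Fin.last k)‖ ≤ m ∧
      u ∈ Submodule.span ℂ (range c) := by
  set v₀ := c (Fin.last k) with hv₀
  have h1 : |‖v₀‖ ^ 2 - 1| ≤ η := by
    have h := hc (Fin.last k) (Fin.last k)
    rw [if_pos rfl, ← hv₀, inner_self_eq_norm_sq_to_K] at h
    have h2 : ((‖v₀‖ : ℂ) ^ 2 - 1) = ((‖v₀‖ ^ 2 - 1 : ℝ) : ℂ) := by push_cast; rfl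
    have h3 : ‖((‖v₀‖ ^ 2 - 1 : ℝ) : ℂ)‖ ≤ η := by rw [← h2]; exact h
    rwa [Complex.norm_real, Real.norm_eq_abs] at h3
  have h2 : |‖v₀‖ - 1| ≤ η := by
    have h3 : |‖v₀‖ - 1| * (‖v₀‖ + 1) = |‖v₀‖ ^ 2 - 1| := by
      have h5 : ‖v₀‖ ^ 2 - 1 = (‖v₀‖ - 1) * (‖v₀‖ + 1) := by ring
      rw [h5, abs_mul, abs_of_nonneg (by positivity : 0 ≤ ‖v₀‖ + 1)]
    have h4 : |‖v₀‖ - 1| * 1 ≤ |‖v₀‖ - 1| * (‖v₀‖ + 1) :=
      mul_le_mul_of_nonneg_left (by linarith [norm_nonneg v₀]) (abs_nonneg _)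
    linarith
  have h2' := abs_le.1 h2
  have h3 : ‖v₀‖ ≤ 2 := by linarith [h2'.2]
  have h4 : ∀ j : Fin k, ‖(inner ℂ (b j) v₀ : ℂ)‖ ≤ η + 2 * δ₁ := by
    intro j
    have h5 : (inner ℂ (b j) v₀ : ℂ) = inner ℂ (c j.castSucc) v₀ +
        inner ℂ (b j - c j.castSucc) v₀ := by
      rw [← inner_add_left]; congr 1; abel
    have h6 : ‖(inner ℂ (c j.castSucc) v₀ : ℂ)‖ ≤ η := by
      have h := hc j.castSucc (Fin.last k)
      rw [if_neg (Fin.castSucc_lt_last j).ne, sub_zero] at h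
      exact h
    have h7 : ‖(inner ℂ (b j - c j.castSucc) v₀ : ℂ)‖ ≤ 2 * δ₁ := by
      refine (norm_inner_le_norm _ _).trans ?_
      have := mul_le_mul (hbc j) h3 (norm_nonneg _) hδ₁
      linarith
    rw [h5]
    exact (norm_add_le _ _).trans (add_le_add h6 h7)
  set w : E := ∑ j, (inner ℂ (b j) v₀ : ℂ) • b j with hw
  have h8 : ‖w‖ ≤ (k : ℝ) * (η + 2 * δ₁) := by
    refine (norm_sum_le _ _).trans ?_
    have h9 : ∀ j ∈ (Finset.univ : Finset (Fin k)), ‖(inner ℂ (b j) v₀ : ℂ) • b j‖ ≤ η + 2 * δ₁ := by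
      intro j _
      rw [norm_smul, hb.1 j, mul_one]
      exact h4 j
    refine (Finset.sum_le_card_nsmul _ _ _ h9).trans ?_
    rw [Finset.card_univ, Fintype.card_fin, nsmul_eq_mul]
  have h9 : ∀ i, inner ℂ (b i) (v₀ - w) = (0 : ℂ) := by
    intro i
    rw [inner_sub_right, hw, hb.inner_right_fintype, sub_self]
  set v := v₀ - w with hv
  have h10 : ‖v - v₀‖ ≤ m / 4 := by
    have : v - v₀ = -w := by rw [hv]; abel
    rw [this, norm_neg]; exact h8.trans hs
  have h11 : |‖v‖ - ‖v₀‖| ≤ m / 4 := (abs_norm_sub_norm_le v v₀).trans h10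
  have h11' := abs_le.1 h11
  have h12 : 0 < ‖v‖ := by linarith [h11'.1, h2'.1]
  have h13 : |1 - ‖v‖| ≤ m / 2 := by
    rw [abs_le]; constructor <;> linarith [h11'.1, h2'.1, h11'.2, h2'.2]
  refine ⟨((‖v‖⁻¹ : ℝ) : ℂ) • v, ?_, ?_, ?_, ?_⟩
  · rw [norm_smul, Complex.norm_real, Real.norm_eq_abs, abs_of_pos (inv_pos.2 h12),
      inv_mul_cancel₀ h12.ne']
  · intro j
    rw [inner_smul_right, h9 j, mul_zero]
  · have e1 : ((‖v‖⁻¹ : ℝ) : ℂ) • v - v₀ = (((‖v‖⁻¹ : ℝ) : ℂ) - 1) • v + (v - v₀) := by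
      rw [sub_smul, one_smul]; abel
    rw [e1]
    refine (norm_add_le _ _).trans ?_
    have e2 : ‖(((‖v‖⁻¹ : ℝ) : ℂ) - 1) • v‖ = |1 - ‖v‖| := by
      have e3 : (((‖v‖⁻¹ : ℝ) : ℂ) - 1) = ((‖v‖⁻¹ - 1 : ℝ) : ℂ) := by push_cast; rfl
      rw [norm_smul, e3, Complex.norm_real, Real.norm_eq_abs]
      have e4 : |‖v‖⁻¹ - 1| * ‖v‖ = |(‖v‖⁻¹ - 1) * ‖v‖| := by
        rw [abs_mul, abs_of_pos h12]
      rw [e4]
      congr 1
      rw [sub_mul, inv_mul_cancel₀ h12.ne', one_mul]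
    rw [e2]
    linarith
  · apply Submodule.smul_mem
    apply Submodule.sub_mem
    · exact Submodule.subset_span ⟨Fin.last k, rfl⟩
    · apply Submodule.sum_mem
      intro j _
      apply Submodule.smul_mem
      refine Submodule.span_mono ?_ (hbs j)
      rintro _ ⟨i, rfl⟩
      exact ⟨i.castSucc, rfl⟩

theorem t_GS : S_GS := by
  intro k
  induction k with
  | zero =>
    intro δ hδ
    refine ⟨1, one_pos, fun c _ => ⟨c, ⟨fun i => i.elim0, fun i => i.elim0⟩, fun i => i.elim0,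
      fun i => i.elim0⟩⟩
  | succ k ih =>
    intro δ hδ
    set m := min 1 δ with hm
    have hm0 : 0 < m := lt_min one_pos hδ
    have hm1 : m ≤ 1 := min_le_left _ _
    have hmδ : m ≤ δ := min_le_right _ _
    have hk : (0 : ℝ) < 16 * (k + 1) := by positivity
    set δ₁ := m / (16 * (k + 1)) with hδ₁
    have hδ₁0 : 0 < δ₁ := div_pos hm0 hk
    have hkey : ((k : ℝ) + 1) * δ₁ = m / 16 := by
      rw [hδ₁]; field_simp
    obtain ⟨η₁, hη₁, H⟩ := ih δ₁ hδ₁0
    refine ⟨min η₁ δ₁, lt_min hη₁ hδ₁0, fun c hc => ?_⟩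
    have hη0 : 0 < min η₁ δ₁ := lt_min hη₁ hδ₁0
    have hηδ : min η₁ δ₁ ≤ δ₁ := min_le_right _ _
    obtain ⟨b, hb, hbc, hbs⟩ := H (fun j => c j.castSucc) (fun j l => by
      have h := hc j.castSucc l.castSucc
      have h' : (if j.castSucc = l.castSucc then (1 : ℂ) else 0) = if j = l then 1 else 0 := by
        by_cases h : j = l
        · rw [if_pos h, if_pos (by rw [h])]
        · rw [if_neg h, if_neg (fun h' => h (Fin.castSucc_injective k h'))]
      rw [h'] at h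
      exact h.trans (min_le_left _ _))
    have hk0 : (0 : ℝ) ≤ k := Nat.cast_nonneg k
    have hδm : δ₁ ≤ m / 16 := by nlinarith
    obtain ⟨u, hu1, hub, huc, hus⟩ := GS_step k δ₁ (min η₁ δ₁) m hm0 hm1 hδ₁0.le hη0.le
      (by nlinarith) (by linarith) c hc b hb hbc hbs
    refine ⟨Fin.snoc b u, ⟨?_, ?_⟩, ?_, ?_⟩
    · intro i
      induction i using Fin.lastCases with
      | last => rw [Fin.snoc_last]; exact hu1
      | cast i => rw [Fin.snoc_castSucc]; exact hb.1 i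
    · intro i j
      induction i using Fin.lastCases with
      | last =>
        induction j using Fin.lastCases with
        | last => intro h; exact absurd rfl h
        | cast j =>
          intro _
          rw [Fin.snoc_last, Fin.snoc_castSucc, ← inner_conj_symm, hub j, map_zero]
      | cast i =>
        induction j using Fin.lastCases with
        | last =>
          intro _
          rw [Fin.snoc_last, Fin.snoc_castSucc]
          exact hub i
        | cast j =>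
          intro h
          rw [Fin.snoc_castSucc, Fin.snoc_castSucc]
          exact hb.2 (fun h' => h (by rw [h']))
    · intro i
      induction i using Fin.lastCases with
      | last => rw [Fin.snoc_last]; exact huc.trans hmδ
      | cast i =>
        rw [Fin.snoc_castSucc]
        exact (hbc i).trans (by linarith)
    · intro i
      induction i using Fin.lastCases with
      | last => rw [Fin.snoc_last]; exact hus
      | cast i =>
        rw [Fin.snoc_castSucc]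
        refine Submodule.span_mono ?_ (hbs i)
        rintro _ ⟨l, rfl⟩
        exact ⟨l.castSucc, rfl⟩

end Pool.Agent.H566U
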