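import Pool.Agent.H566U.Spec

set_option autoImplicit false

namespace Pool.Agent.H566U

open Filter Topology Set MeasureTheory

theorem INT_ext {m : ℕ} {V : Submodule ℂ H} (B : OrthonormalBasis (Fin m) ℂ V) (u : G)
    (h : ∀ i, u (B i : H) = (B i : H)) (x : H) (hx : x ∈ V) : u x = x := by
  have h1 : (u.toLinearEquiv.toLinearMap ∘ₗ V.subtype) = V.subtype := by
    apply B.toBasis.ext
    intro i
    rw [OrthonormalBasis.coe_toBasis]
    exact h i
  have h2 := congrArg (fun f : V →ₗ[ℂ] H => f ⟨x, hx⟩) h1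
  exact h2

theorem INT_fix {S₁ S₂ : Submodule ℂ H} {k : G} (hk : k ∈ Subgroup.closure (PS S₁ ∪ PS S₂)) :
    ∀ r ∈ S₁ ⊓ S₂, k r = r := by
  induction hk using Subgroup.closure_induction with
  | mem g hg =>
    intro r hr
    rcases hg with hg | hg
    · exact hg r hr.1
    · exact hg r hr.2
  | one => intro r _; rfl
  | mul g h _ _ hg hh =>
    intro r hr
    show g (h r) = r
    rw [hh r hr, hg r hr]
  | inv g _ hg =>
    intro r hr
    show g.symm r = r
    rw [LinearIsometryEquiv.symm_apply_eq]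
    exact (hg r hr).symm

theorem INT_stab {X : Type} [MulAction G X] {S₁ S₂ : Submodule ℂ H} {y : X}
    (h1 : FixedBy (PS S₁) y) (h2 : FixedBy (PS S₂) y) {k : G}
    (hk : k ∈ Subgroup.closure (PS S₁ ∪ PS S₂)) : k • y = y := by
  have h3 : Subgroup.closure (PS S₁ ∪ PS S₂) ≤ MulAction.stabilizer G y := by
    rw [Subgroup.closure_le]
    rintro g (hg | hg)
    · exact h1 g hg
    · exact h2 g hg
  exact h3 hk

theorem t_INT (h0 : S_SOTB) (hW : S_WL) (hQ : S_QM) (hK : S_WKB) : S_INT := by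
  intro X _ _ hAct S₁ S₂ hS₁ hS₂ y hy1 hy2 u hu
  obtain ⟨l, hl0, hl1, hl⟩ := hQ S₁ S₂ hS₁ hS₂
  have heo : Orthonormal ℂ e := h0.2.2.1
  choose k hk hkl using fun m : ℕ => hl m (Submodule.span ℂ (range fun i : Fin m => e i))
    (FiniteDimensional.span_of_finite ℂ (finite_range _))
  have hR : FiniteDimensional ℂ (S₁ ⊓ S₂ : Submodule ℂ H) :=
    Submodule.finiteDimensional_of_le inf_le_left
  let B := stdOrthonormalBasis ℂ S₁
  let a : Fin (Module.finrank ℂ S₁) → H := fun i => (B i : H)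
  have ha : Orthonormal ℂ a := B.orthonormal.comp_linearIsometry S₁.subtypeₗᵢ
  let w : Fin (Module.finrank ℂ S₁) → H := fun i => (S₁ ⊓ S₂).starProjection (a i)
  have hwR : ∀ i, w i ∈ S₁ ⊓ S₂ := fun i => Submodule.starProjection_apply_mem _ _
  have haS : ∀ i, a i ∈ S₁ := fun i => (B i).2
  have htS : ∀ i, a i - w i ∈ S₁ := fun i => S₁.sub_mem (haS i) (hwR i).1
  have hto : ∀ i, ∀ r ∈ S₁ ⊓ S₂, inner ℂ r (a i - w i) = (0 : ℂ) := by
    intro i r hr
    exact Submodule.inner_right_of_mem_orthogonal hr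
      (Submodule.sub_starProjection_mem_orthogonal (K := S₁ ⊓ S₂) (a i))
  have hweak : ∀ (i : Fin (Module.finrank ℂ S₁)) (v : H),
      Tendsto (fun j => inner ℂ v (k j (a i))) atTop (𝓝 (inner ℂ v (w i))) := by
    intro i
    apply hK
    · intro j
      rw [LinearIsometryEquiv.norm_map, ha.1 i]
    · intro n
      rw [tendsto_iff_norm_sub_tendsto_zero]
      have hb : Tendsto (fun j : ℕ => l ^ j * ‖a i - w i‖ * ‖e n‖) atTop (𝓝 (0 * ‖a i - w i‖ * ‖e n‖)) :=
        ((tendsto_pow_atTop_nhds_zero_of_lt_one hl0 hl1).mul_const _).mul_const _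
      rw [zero_mul, zero_mul] at hb
      refine squeeze_zero' (Eventually.of_forall fun j => norm_nonneg _) ?_ hb
      filter_upwards [eventually_gt_atTop n] with j hj
      have e1 : (inner ℂ (e n) (k j (a i)) : ℂ) - inner ℂ (e n) (w i) =
          inner ℂ (e n) (k j (a i - w i)) := by
        rw [map_sub, inner_sub_right, INT_fix (hk j) (w i) (hwR i)]
      rw [e1, norm_inner_symm]
      exact hkl j (a i - w i) (htS i) (hto i) (e n)
        (Submodule.subset_span ⟨⟨n, hj⟩, rfl⟩)
  have hfix : FixedBy {u : G | ∀ i, u (a i) = a i} y := by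
    intro v hv
    exact hy1 v fun s hs => INT_ext B v hv s hs
  have hlim : Tendsto (fun j => k j • y) atTop (𝓝 y) := by
    have e2 : (fun j => k j • y) = fun _ => y := by
      funext j
      exact INT_stab hy1 hy2 (hk j)
    rw [e2]
    exact tendsto_const_nhds
  exact hW X hAct _ a w ha y y hfix k hweak hlim u fun i => hu _ (hwR i)

end Pool.Agent.H566U

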