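import Pool.Agent.H566U.Spec

/-! Task ISO (author helper171): linear isometries preserve Haar measures. -/

set_option autoImplicit false

namespace Pool.Agent.H566U

open Filter Topology Set MeasureTheory

theorem t_ISO : S_ISO := by
  intro F _ _ _ _ _ ν _ T
  refine ⟨T.continuous.measurable, ?_⟩
  set f : F →ₗ[ℝ] F := (T.toLinearEquiv : F →ₗ[ℝ] F) with hf
  have hdet : LinearMap.det f ≠ 0 := by
    have := (LinearEquiv.isUnit_det' T.toLinearEquiv).ne_zero
    exact this
  have h1 := Measure.map_linearMap_addHaar_eq_smul_addHaar ν hdet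
  have h2 : (⇑f : F → F) = ⇑T := rfl
  rw [h2] at h1
  have h3 : Measure.map T ν (Metric.closedBall 0 1) = ν (Metric.closedBall 0 1) := by
    rw [Measure.map_apply T.continuous.measurable Metric.isClosed_closedBall.measurableSet]
    congr 1
    ext x
    simp
  have h4 : ν (Metric.closedBall (0 : F) 1) ≠ 0 :=
    (Metric.measure_closedBall_pos ν 0 one_pos).ne'
  have h5 : ν (Metric.closedBall (0 : F) 1) ≠ ⊤ := measure_closedBall_lt_top.ne
  rw [h1] at h3 ⊢
  rw [Measure.smul_apply, smul_eq_mul] at h3
  have h6 : ENNReal.ofReal |(LinearMap.det f)⁻¹| = 1 := by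
    have h7 : ENNReal.ofReal |(LinearMap.det f)⁻¹| * ν (Metric.closedBall (0 : F) 1) =
        1 * ν (Metric.closedBall (0 : F) 1) := by rw [one_mul]; exact h3
    exact (ENNReal.mul_left_inj h4 h5).1 h7
  rw [h6, one_smul]

end Pool.Agent.H566U
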