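import Pool.Agent.H566U.Spec

/-! Task L1: closeness lifting. -/

set_option autoImplicit false

namespace Pool.Agent.H566U

open Filter Topology Set MeasureTheory

theorem t_L1 (h : S_OVI) : S_L1 := by
  intro k a ha ε hε
  obtain ⟨C, hC, hOV⟩ := h k
  refine ⟨ε / (C + 1), by positivity, ?_⟩
  intro g hg
  have hb : Orthonormal ℂ (fun i => g (a i)) := ha.comp_linearIsometryEquiv g
  obtain ⟨h', h1, -, h3⟩ := hOV a (fun i => g (a i)) ha hb (ε / (C + 1)) (by positivity)
    (fun i => by rw [norm_sub_rev]; exact hg i)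
  refine ⟨h', h1, fun v => (h3 v).trans ?_⟩
  refine mul_le_mul_of_nonneg_right ?_ (norm_nonneg _)
  rw [mul_div_assoc', div_le_iff₀ (by positivity)]
  nlinarith

end Pool.Agent.H566U
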