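import Pool.Agent.H566U.Spec

/-! LAM: the angle between two finite dimensional subspaces (helper493) -/

set_option autoImplicit false

namespace Pool.Agent.H566U

open Filter Topology Set MeasureTheory

theorem t_LAM : S_LAM := by
  intro S₁ S₂ h1 h2
  have hp : ∀ s : H, S₂.starProjection s ∈ S₂ ∧
      ∀ q ∈ S₂, inner ℂ q (s - S₂.starProjection s) = (0 : ℂ) := by
    intro s
    refine ⟨Submodule.starProjection_apply_mem _ _, fun q hq => ?_⟩
    exact (Submodule.mem_orthogonal _ _).1 (Submodule.sub_starProjection_mem_orthogonal s) q hq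
  set K : Set S₁ := {s | ‖s‖ = 1 ∧ ∀ r ∈ S₁ ⊓ S₂, inner ℂ r (s : H) = (0 : ℂ)} with hK
  have hKc : IsCompact K := by
    have hprop : ProperSpace S₁ := FiniteDimensional.proper ℂ S₁
    apply Metric.isCompact_of_isClosed_isBounded
    · have e1 : K = {s : S₁ | ‖s‖ = 1} ∩
          ⋂ r ∈ S₁ ⊓ S₂, {s : S₁ | inner ℂ r (s : H) = (0 : ℂ)} := by
        ext s
        simp only [hK, mem_ofPred_eq, mem_inter_iff, mem_iInter]
      rw [e1]
      refine IsClosed.inter (isClosed_eq continuous_norm continuous_const) ?_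
      refine isClosed_iInter fun r => isClosed_iInter fun _ => ?_
      exact isClosed_eq (continuous_const.inner continuous_subtype_val) continuous_const
    · refine (Metric.isBounded_closedBall (x := (0 : S₁)) (r := 1)).subset ?_
      intro s hs
      rw [mem_closedBall_zero_iff]
      exact hs.1.le
  have hscale : ∀ l : ℝ, (∀ s ∈ K, ‖S₂.starProjection (s : H)‖ ≤ l) → ∀ s ∈ S₁,
      (∀ r ∈ S₁ ⊓ S₂, inner ℂ r s = (0 : ℂ)) → ‖S₂.starProjection s‖ ≤ l * ‖s‖ := by
    intro l hl s hs hr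
    by_cases h0 : s = 0
    · rw [h0]
      simp
    · have hn : 0 < ‖s‖ := norm_pos_iff.2 h0
      have hmem : (((‖s‖⁻¹ : ℝ) : ℂ) • s) ∈ S₁ := S₁.smul_mem _ hs
      have hKm : (⟨((‖s‖⁻¹ : ℝ) : ℂ) • s, hmem⟩ : S₁) ∈ K := by
        refine ⟨?_, fun r hr' => ?_⟩
        · show ‖((‖s‖⁻¹ : ℝ) : ℂ) • s‖ = 1
          rw [norm_smul, Complex.norm_real, Real.norm_eq_abs, abs_of_pos (inv_pos.2 hn)]
          exact inv_mul_cancel₀ hn.ne'
        · show inner ℂ r (((‖s‖⁻¹ : ℝ) : ℂ) • s) = (0 : ℂ)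
          rw [inner_smul_right, hr r hr', mul_zero]
      have h3 := hl _ hKm
      simp only [map_smul, norm_smul, Complex.norm_real, Real.norm_eq_abs,
        abs_of_pos (inv_pos.2 hn)] at h3
      rw [inv_mul_le_iff₀ hn] at h3
      linarith
  rcases K.eq_empty_or_nonempty with he | hne
  · refine ⟨0, le_refl _, one_pos, fun s hs hr => ⟨S₂.starProjection s, (hp s).1, (hp s).2, ?_⟩⟩
    exact hscale 0 (fun s hs => by rw [he] at hs; exact absurd hs (notMem_empty s)) s hs hr
  · obtain ⟨s0, hs0, hmax⟩ := hKc.exists_isMaxOn hne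
      (f := fun s : S₁ => ‖S₂.starProjection (s : H)‖)
      ((S₂.starProjection.continuous.comp continuous_subtype_val).norm.continuousOn)
    refine ⟨‖S₂.starProjection (s0 : H)‖, norm_nonneg _, ?_, fun s hs hr =>
      ⟨S₂.starProjection s, (hp s).1, (hp s).2, hscale _ (fun s' hs' => hmax hs') s hs hr⟩⟩
    have hn0 : ‖(s0 : H)‖ = 1 := hs0.1
    have hle : ‖S₂.starProjection (s0 : H)‖ ≤ ‖(s0 : H)‖ :=
      Submodule.norm_starProjection_apply_le S₂ (s0 : H)
    rcases lt_or_eq_of_le hle with hlt | heq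
    · rwa [hn0] at hlt
    · exfalso
      have hm : (s0 : H) ∈ S₂ := (Submodule.mem_iff_norm_starProjection S₂ (s0 : H)).2 heq
      have h4 := hs0.2 (s0 : H) ⟨s0.2, hm⟩
      rw [inner_self_eq_zero] at h4
      rw [h4, norm_zero] at hn0
      exact zero_ne_one hn0

end Pool.Agent.H566U
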