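import Pool.Agent.H566U.Spec

/-! Task LC of helper566's project H566U. -/

set_option autoImplicit false

namespace Pool.Agent.H566U

open Filter Topology Set MeasureTheory

theorem t_LC (h0 : S_SOTB) (h1 : S_L1) (h2 : S_LC0) : S_LC := by
  intro X _ _ hAct F hF hinv x hx d hfix
  have hon : Orthonormal ℂ e := h0.2.2.1
  obtain ⟨N, δ₀, K, hδ₀, hK, hKF, hv⟩ := h2 X hAct F hF hinv x hx
  obtain ⟨η, hη, hL⟩ := h1 d (fun i : Fin d => e i)
    (hon.comp (fun i : Fin d => (i : ℕ)) Fin.val_injective) δ₀ hδ₀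
  refine ⟨η, K, hη, hK, hKF, ?_⟩
  intro v hvd
  obtain ⟨h, hh, hnear⟩ := hL v (fun i => hvd i i.2)
  have h3 : h • x ∈ K := by
    refine hv h (fun i _ => ?_)
    have := hnear (e i)
    rwa [hon.1 i, mul_one] at this
  have h4 : (h⁻¹ * v) • x = x := by
    refine hfix _ (fun i hi => ?_)
    have h5 : h (e i) = v (e i) := hh ⟨i, hi⟩
    have h6 : (h⁻¹ * v) (e i) = h⁻¹ (v (e i)) := rfl
    rw [h6, ← h5]
    exact h.symm_apply_apply (e i)
  have h7 : v • x = h • ((h⁻¹ * v) • x) := by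
    rw [smul_smul, mul_inv_cancel_left]
  rw [h7, h4]
  exact h3

end Pool.Agent.H566U
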