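import Pool.Agent.H566U.Spec
import Pool.Agent.Helper289.UO.Top

/-! LC0: the Baire category argument. -/

set_option autoImplicit false

namespace Pool.Agent.H566U

open Filter Topology Set MeasureTheory
open Pool.Agent.Helper289.UO (instTopUU uu_topgroup_tendsto uu_topgroup uu_polish UU)

private theorem LC0_tendsto (g : ℕ → G) (g₀ : G) : Tendsto g atTop (𝓝 g₀) ↔ SOT g g₀ := by
  have := uu_topgroup_tendsto (l := atTop) (f := g) (U := g₀)
  exact this

theorem t_LC0 (h0 : S_SOTB) : S_LC0 := by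
  intro X _ _ hA F hF hinv x hx
  have hP : PolishSpace G := uu_polish
  have hTG : IsTopologicalGroup G := uu_topgroup
  have hcont : Continuous (fun g : G => g • x) := by
    rw [continuous_iff_seqContinuous]
    intro g g₀ hg
    exact hA g g₀ (fun _ => x) x ((LC0_tendsto g g₀).mp hg) tendsto_const_nhds
  have hcl : ∀ k, IsClosed {g : G | g • x ∈ F k} := fun k =>
    ((hF k).isClosed).preimage hcont
  have hun : ⋃ k, {g : G | g • x ∈ F k} = univ := by
    apply eq_univ_of_forall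
    intro g
    obtain ⟨k, hk⟩ := mem_iUnion.mp (hinv x hx g)
    exact mem_iUnion.mpr ⟨k, hk⟩
  have : Nonempty G := ⟨1⟩
  obtain ⟨k, g₀, hg₀⟩ := nonempty_interior_of_iUnion_of_closed hcl hun
  have hclaim : ∃ (N : ℕ) (δ : ℝ), 0 < δ ∧ ∀ v : G, (∀ i < N, ‖v (e i) - e i‖ ≤ δ) →
      (g₀ * v) • x ∈ F k := by
    by_contra hcon
    push Not at hcon
    have h1 : ∀ j : ℕ, ∃ v : G, (∀ i < j, ‖v (e i) - e i‖ ≤ 1 / ((j : ℝ) + 1)) ∧
        (g₀ * v) • x ∉ F k := fun j => hcon j _ (by positivity)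
    choose v hv hvn using h1
    have hs : SOT v 1 := by
      refine h0.1 v 1 fun i => ?_
      rw [tendsto_iff_norm_sub_tendsto_zero]
      refine squeeze_zero' (Eventually.of_forall fun j => norm_nonneg _) ?_
        tendsto_one_div_add_atTop_nhds_zero_nat
      filter_upwards [eventually_gt_atTop i] with j hj
      exact hv j i hj
    have h2 : Tendsto v atTop (𝓝 (1 : G)) := (LC0_tendsto v 1).mpr hs
    have h3 : Tendsto (fun j => g₀ * v j) atTop (𝓝 (g₀ * 1)) := h2.const_mul g₀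
    rw [mul_one] at h3
    have h4 : ∀ᶠ j in atTop, g₀ * v j ∈ interior {g : G | g • x ∈ F k} :=
      h3.eventually (isOpen_interior.mem_nhds hg₀)
    obtain ⟨j, hj⟩ := h4.exists
    have h5 : g₀ * v j ∈ {g : G | g • x ∈ F k} := interior_subset hj
    exact hvn j h5
  obtain ⟨N, δ, hδ, hN⟩ := hclaim
  refine ⟨N, δ, (fun z => g₀⁻¹ • z) '' F k, hδ, ?_, ?_, ?_⟩
  · refine (hF k).image ?_
    rw [continuous_iff_seqContinuous]
    intro z z₀ hz
    exact hA (fun _ => g₀⁻¹) g₀⁻¹ z z₀ (fun v => tendsto_const_nhds) hz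
  · rintro _ ⟨z, hz, rfl⟩
    exact hinv z (mem_iUnion.mpr ⟨k, hz⟩) g₀⁻¹
  · intro v hv
    refine ⟨(g₀ * v) • x, hN v hv, ?_⟩
    show g₀⁻¹ • (g₀ * v) • x = v • x
    rw [mul_smul, inv_smul_smul]

end Pool.Agent.H566U
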