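import Pool.Agent.H566U.Spec

set_option autoImplicit false

namespace Pool.Agent.H566U

open Filter Topology Set MeasureTheory

theorem LEVY_pick {F : Type} [MeasurableSpace F] (ν : Measure F) (B : Set F) (h0 : ν B ≠ 0)
    (h1 : ν B ≠ ⊤) {ι : Type} [Fintype ι] (A : ι → Set F) (δ : ι → ℝ) (hδ0 : ∀ i, 0 ≤ δ i)
    (hδ : ∑ i, δ i < 1) (hA : ∀ i, ν (A i ∩ B) ≤ ENNReal.ofReal (δ i) * ν B) :
    ∃ Y ∈ B, ∀ i, Y ∉ A i := by
  by_contra hcon
  push Not at hcon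
  have hsub : B ⊆ ⋃ i, (A i ∩ B) := by
    intro Y hY
    obtain ⟨i, hi⟩ := hcon Y hY
    exact mem_iUnion.2 ⟨i, hi, hY⟩
  have h2 : ν B ≤ ∑ i, ν (A i ∩ B) :=
    (measure_mono hsub).trans (measure_iUnion_fintype_le ν _)
  have h3 : ∑ i, ν (A i ∩ B) ≤ ∑ i, ENNReal.ofReal (δ i) * ν B :=
    Finset.sum_le_sum fun i _ => hA i
  rw [← Finset.sum_mul, ← ENNReal.ofReal_sum_of_nonneg (fun i _ => hδ0 i)] at h3
  have h4 : ENNReal.ofReal (∑ i, δ i) * ν B < 1 * ν B := by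
    apply ENNReal.mul_lt_mul_left h0 h1
    rw [← ENNReal.ofReal_one]
    exact (ENNReal.ofReal_lt_ofReal_iff one_pos).2 hδ
  rw [one_mul] at h4
  exact absurd (h2.trans h3) (not_le.2 h4)

theorem t_LEVY (hC : S_CONC) (hG : S_GOODP) (hI : S_ISO) : S_LEVY := by
  intro k q s t η hk ht hη
  obtain ⟨ε, hε⟩ : ∃ ε : ℝ, ε = 1 / (4 * ((s : ℝ) + 2)) := ⟨_, rfl⟩
  obtain ⟨c, hc⟩ : ∃ c : ℝ, c = 1 / (4 * ((q : ℝ) + 1)) := ⟨_, rfl⟩
  have hε0 : 0 < ε := by rw [hε]; positivity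
  have hc0 : 0 < c := by rw [hc]; positivity
  have hqc : (q : ℝ) * c < 1 / 2 := by
    rw [hc, mul_one_div, div_lt_div_iff₀ (by positivity) (by norm_num)]
    have : (0 : ℝ) ≤ q := Nat.cast_nonneg q
    linarith
  have hε2 : ε < 1 / 2 := by
    rw [hε, div_lt_div_iff₀ (by positivity) (by norm_num)]
    have : (0 : ℝ) ≤ s := Nat.cast_nonneg s
    linarith
  have hsε : ((s : ℝ) + 1) * (ε + ε) < 1 := by
    have : (0 : ℝ) ≤ s := Nat.cast_nonneg s
    have e1 : ((s : ℝ) + 1) * (ε + ε) = ((s : ℝ) + 1) / (2 * ((s : ℝ) + 2)) := by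
      rw [hε]; field_simp; ring
    rw [e1, div_lt_one (by positivity)]
    linarith
  obtain ⟨M₁, hM₁⟩ := hC k hk t c ε ht hc0 hε0
  obtain ⟨M₂, hM₂⟩ := hG k hk η ε hη hε0
  refine ⟨max M₁ M₂, ?_⟩
  obtain ⟨M, hM⟩ : ∃ M, M = max M₁ M₂ := ⟨_, rfl⟩
  rw [← hM]
  have hMa : M₁ ≤ M := hM ▸ le_max_left _ _
  have hMb : M₂ ≤ M := hM ▸ le_max_right _ _
  intro C hcov T
  letI : MeasurableSpace (MM M k) := borel _
  haveI : BorelSpace (MM M k) := ⟨rfl⟩
  haveI : ProperSpace (MM M k) := FiniteDimensional.proper ℂ (MM M k)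
  let ν : Measure (MM M k) := Measure.addHaar
  have hb0 : ν (Metric.closedBall 0 1) ≠ 0 :=
    (Metric.measure_closedBall_pos ν 0 one_pos).ne'
  have hb1 : ν (Metric.closedBall 0 1) ≠ ⊤ := (measure_closedBall_lt_top).ne
  have hGood : Small ν ε {Y : MM M k | ¬ Good η Y} := hM₂ M hMb ν
  obtain ⟨C', hC'⟩ : ∃ C' : Fin q → Set (MM M k),
      C' = fun j => {Y | Y ∈ C j ∧ Good η Y ∧ Y ∈ Metric.closedBall (0 : MM M k) 1} := ⟨_, rfl⟩
  have hj : ∃ j, ¬ Small ν c (C' j) := by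
    by_contra hcon
    push Not at hcon
    obtain ⟨Y, hY, hYn⟩ := LEVY_pick ν (Metric.closedBall 0 1) hb0 hb1
      (fun o : Option (Fin q) => o.elim {Y : MM M k | ¬ Good η Y} C')
      (fun o : Option (Fin q) => o.elim ε (fun _ => c))
      (by rintro (_ | i); exacts [hε0.le, hc0.le])
      (by
        rw [Fintype.sum_option]
        simp only [Option.elim, Finset.sum_const, Finset.card_univ, Fintype.card_fin,
          nsmul_eq_mul]
        linarith)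
      (by rintro (_ | i); exacts [hGood, hcon i])
    have hYg : Good η Y := by
      by_contra h
      exact hYn none h
    obtain ⟨j, hj⟩ := hcov Y (by simpa using hY) hYg
    apply hYn (some j)
    show Y ∈ C' j
    rw [hC']
    exact ⟨hj, hYg, hY⟩
  obtain ⟨j, hj⟩ := hj
  have hN : Small ν ε {Y | ¬ ∃ Z ∈ C' j, ‖Z - Y‖ < t} := by
    apply hM₁ M hMa ν (C' j) _ hj
    intro Y hY
    rw [hC'] at hY
    exact hY.2.2
  obtain ⟨Bad, hBad⟩ : ∃ Bad : Set (MM M k),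
      Bad = {Y | ¬ ∃ Z ∈ C' j, ‖Z - Y‖ < t} ∪ {Y : MM M k | ¬ Good η Y} := ⟨_, rfl⟩
  have hBs : ν (Bad ∩ Metric.closedBall 0 1) ≤
      ENNReal.ofReal (ε + ε) * ν (Metric.closedBall 0 1) := by
    rw [hBad, union_inter_distrib_right, ENNReal.ofReal_add hε0.le hε0.le, add_mul]
    exact (measure_union_le _ _).trans (add_le_add hN hGood)
  have hT : ∀ i, ν ((T i ⁻¹' Bad) ∩ Metric.closedBall 0 1) ≤
      ENNReal.ofReal (ε + ε) * ν (Metric.closedBall 0 1) := by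
    intro i
    let T' : MM M k ≃ₗᵢ[ℝ] MM M k :=
      { toLinearEquiv := (T i).toLinearEquiv.restrictScalars ℝ
        norm_map' := (T i).norm_map }
    have hmp : MeasurePreserving T' ν ν := hI (MM M k) ν T'
    have e1 : (T i ⁻¹' Bad) ∩ Metric.closedBall 0 1 = T' ⁻¹' (Bad ∩ Metric.closedBall 0 1) := by
      ext Y
      have h1 : T' Y = T i Y := rfl
      simp only [mem_inter_iff, mem_preimage, h1, Metric.mem_closedBall, dist_zero_right,
        LinearIsometryEquiv.norm_map]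
    rw [e1, hmp.measure_preimage_emb T'.toHomeomorph.measurableEmbedding]
    exact hBs
  obtain ⟨Y, hY, hYn⟩ := LEVY_pick ν (Metric.closedBall 0 1) hb0 hb1
    (fun o : Option (Fin s) => o.elim Bad (fun i => T i ⁻¹' Bad))
    (fun _ => ε + ε) (fun _ => by linarith)
    (by
      simp only [Finset.sum_const, Finset.card_univ, Fintype.card_option, Fintype.card_fin,
        nsmul_eq_mul]
      push_cast
      exact hsε)
    (by rintro (_ | i); exacts [hBs, hT i])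
  have key : ∀ W : MM M k, W ∉ Bad → Good η W ∧ ∃ Z ∈ C j, Good η Z ∧ ‖Z - W‖ < t := by
    intro W hW
    rw [hBad, mem_union, not_or, mem_setOf_eq, mem_setOf_eq, not_not, not_not] at hW
    obtain ⟨⟨Z, hZ, hZt⟩, hg⟩ := hW
    rw [hC'] at hZ
    exact ⟨hg, Z, hZ.1, hZ.2.1, hZt⟩
  refine ⟨Y, j, (key Y (hYn none)).1, (key Y (hYn none)).2, fun i => key (T i Y) (hYn (some i))⟩

end Pool.Agent.H566U
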