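import Pool.Agent.H566U.Spec

set_option autoImplicit false

namespace Pool.Agent.H566U

open Filter Topology Set MeasureTheory

noncomputable def MED_L {M k : ℕ} (c : Fin k → ℂ) (Y : MM M k) : EuclideanSpace ℂ (Fin M) :=
  WithLp.toLp 2 (fun i => ∑ j, Y (i, j) * c j)

theorem MED_L_sub {M k : ℕ} (c : Fin k → ℂ) (Y Z : MM M k) :
    MED_L c Y - MED_L c Z = MED_L c (Y - Z) := by
  ext i
  simp [MED_L, sub_mul, Finset.sum_sub_distrib]

theorem MED_L_sq {M k : ℕ} (c : Fin k → ℂ) (Y : MM M k) :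
    ‖MED_L c Y‖ ^ 2 = ∑ i : Fin M, ‖∑ j, Y (i, j) * c j‖ ^ 2 := by
  rw [EuclideanSpace.norm_sq_eq]; rfl

theorem MED_norm_sq {M k : ℕ} (Y : MM M k) :
    ‖Y‖ ^ 2 = ∑ i : Fin M, ∑ j : Fin k, ‖Y (i, j)‖ ^ 2 := by
  rw [EuclideanSpace.norm_sq_eq, Fintype.sum_prod_type]

theorem MED_L_le {M k : ℕ} (c : Fin k → ℂ) (hc : ∑ j, ‖c j‖ ^ 2 = 1) (Y : MM M k) :
    ‖MED_L c Y‖ ≤ ‖Y‖ := by
  have h : ‖MED_L c Y‖ ^ 2 ≤ ‖Y‖ ^ 2 := by
    rw [MED_L_sq, MED_norm_sq]
    refine Finset.sum_le_sum fun i _ => ?_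
    calc ‖∑ j, Y (i, j) * c j‖ ^ 2 ≤ (∑ j, ‖Y (i, j)‖ * ‖c j‖) ^ 2 := by
          gcongr
          exact (norm_sum_le _ _).trans (by simp)
      _ ≤ (∑ j, ‖Y (i, j)‖ ^ 2) * (∑ j, ‖c j‖ ^ 2) := Finset.sum_mul_sq_le_sq_mul_sq _ _ _
      _ = ∑ j, ‖Y (i, j)‖ ^ 2 := by rw [hc, mul_one]
  exact (sq_le_sq₀ (norm_nonneg _) (norm_nonneg _)).1 h

theorem MED_L_lip {M k : ℕ} (c : Fin k → ℂ) (hc : ∑ j, ‖c j‖ ^ 2 = 1) (Y Z : MM M k) :
    |‖MED_L c Y‖ - ‖MED_L c Z‖| ≤ ‖Y - Z‖ := by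
  refine (abs_norm_sub_norm_le _ _).trans ?_
  rw [MED_L_sub]
  exact MED_L_le c hc _

theorem MED_L_cont {M k : ℕ} (c : Fin k → ℂ) :
    Continuous (fun Y : MM M k => ‖MED_L c Y‖) := by
  refine Continuous.norm ?_
  unfold MED_L
  fun_prop

/-- the sum over the columns -/
theorem MED_sum {M k : ℕ} (Y : MM M k) :
    ∑ j : Fin k, ‖MED_L (fun l => if l = j then (1 : ℂ) else 0) Y‖ ^ 2 = ‖Y‖ ^ 2 := by
  simp_rw [MED_L_sq]
  rw [MED_norm_sq, Finset.sum_comm]
  refine Finset.sum_congr rfl fun i _ => Finset.sum_congr rfl fun j _ => ?_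
  simp

theorem MED_unit {k : ℕ} (j : Fin k) : ∑ l, ‖(if l = j then (1 : ℂ) else 0)‖ ^ 2 = 1 := by
  rw [Finset.sum_eq_single j]
  · simp
  · intro b _ hb; simp [hb]
  · intro h; exact absurd (Finset.mem_univ _) h

/-- a unitary matrix with a given column -/
theorem MED_unitary {k : ℕ} (j₀ : Fin k) (c : Fin k → ℂ) (hc : ∑ j, ‖c j‖ ^ 2 = 1) :
    ∃ a ∈ Matrix.unitaryGroup (Fin k) ℂ, ∀ l, a l j₀ = c l := by
  classical
  have hn : ‖(WithLp.toLp 2 c : EuclideanSpace ℂ (Fin k))‖ = 1 := by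
    rw [EuclideanSpace.norm_eq]
    have : ∑ i, ‖(WithLp.toLp 2 c : EuclideanSpace ℂ (Fin k)) i‖ ^ 2 = 1 := hc
    rw [this, Real.sqrt_one]
  obtain ⟨b, hb⟩ := Orthonormal.exists_orthonormalBasis_extension_of_card_eq (𝕜 := ℂ)
    (E := EuclideanSpace ℂ (Fin k)) (ι := Fin k) (by simp)
    (v := fun _ => (WithLp.toLp 2 c : EuclideanSpace ℂ (Fin k))) (s := {j₀}) (by
      rw [orthonormal_iff_ite]
      intro i j
      have : i = j := Subsingleton.elim _ _
      subst this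
      simp [inner_self_eq_norm_sq_to_K, hn])
  refine ⟨(EuclideanSpace.basisFun (Fin k) ℂ).toBasis.toMatrix b,
    (EuclideanSpace.basisFun (Fin k) ℂ).toMatrix_orthonormalBasis_mem_unitary b, fun l => ?_⟩
  rw [Module.Basis.toMatrix_apply, hb j₀ (by simp)]
  simp

theorem t_MED (hC : S_CONC) (hI : S_ISO) (hR : S_RMUL) : S_MED := by
  intro k hk η ε hη hε
  obtain ⟨R, hRη⟩ := exists_nat_gt (10 / η)
  have hR0 : (0:ℝ) < R := lt_of_le_of_lt (by positivity) hRη
  have hR1 : (1:ℝ) ≤ R := by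
    have : 0 < R := by exact_mod_cast hR0
    exact_mod_cast this
  obtain ⟨t, ht⟩ : ∃ t : ℝ, t = 1 / R := ⟨_, rfl⟩
  have ht0 : 0 < t := by rw [ht]; positivity
  have htR : t * R = 1 := by rw [ht]; field_simp
  have htη : 10 * t ≤ η := by
    rw [div_lt_iff₀ hη] at hRη
    have h1 : 10 * t < (R * η) * t := by
      exact mul_lt_mul_of_pos_right hRη ht0
    have h2 : (R * η) * t = η := by
      calc (R * η) * t = (t * R) * η := by ring
        _ = η := by rw [htR, one_mul]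
    linarith
  have ht1 : t ≤ 1 := by
    rw [ht, div_le_one hR0]; exact hR1
  obtain ⟨ε', hε'⟩ : ∃ ε' : ℝ, ε' = min ε (1 / (2 * (k + 1))) := ⟨_, rfl⟩
  have hε'0 : 0 < ε' := by rw [hε']; positivity
  have hε'ε : ε' ≤ ε := by rw [hε']; exact min_le_left _ _
  have hε'k : (k + 1) * ε' ≤ 1 / 2 := by
    have h1 : ε' ≤ 1 / (2 * (k + 1)) := by rw [hε']; exact min_le_right _ _
    calc (k + 1) * ε' ≤ (k + 1) * (1 / (2 * (k + 1))) := by gcongr
      _ = 1 / 2 := by field_simp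
  obtain ⟨M₁, hM₁⟩ := hC k hk t (1 / (2 * R)) ε' ht0 (by positivity) hε'0
  obtain ⟨n, hn⟩ := exists_pow_lt_of_lt_one hε'0 (by linarith : 1 - t < 1)
  refine ⟨max M₁ n, fun M hM _ _ ν _ c hc => ?_⟩
  have hMM1 : M₁ ≤ M := le_trans (le_max_left _ _) hM
  have hMn : n ≤ M := le_trans (le_max_right _ _) hM
  -- the measure of the ball
  obtain ⟨nb, hnb⟩ : ∃ nb, nb = ν (Metric.closedBall (0 : MM M k) 1) := ⟨_, rfl⟩
  have hnb0 : nb ≠ 0 := by
    rw [hnb]
    exact (Metric.measure_closedBall_pos ν _ one_pos).ne'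
  have hnbT : nb ≠ ⊤ := by
    rw [hnb]
    exact (isCompact_closedBall (0 : MM M k) 1).measure_lt_top.ne
  -- a small multiple of `nb` is smaller than `nb`
  have hlt : ∀ r : ℝ, r ≤ 1 / 2 → ENNReal.ofReal r * nb < nb := by
    intro r hr
    calc ENNReal.ofReal r * nb ≤ ENNReal.ofReal (1 / 2) * nb := by
          gcongr
      _ < 1 * nb := by
          refine ENNReal.mul_lt_mul_left hnb0 hnbT ?_
          rw [← ENNReal.ofReal_one]
          exact (ENNReal.ofReal_lt_ofReal_iff one_pos).2 (by norm_num)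
      _ = nb := one_mul _
  have j₀ : Fin k := ⟨0, hk⟩
  obtain ⟨c₀, hc₀⟩ : ∃ c₀ : Fin k → ℂ, c₀ = fun l => if l = j₀ then (1 : ℂ) else 0 := ⟨_, rfl⟩
  have hc₀1 : ∑ j, ‖c₀ j‖ ^ 2 = 1 := by rw [hc₀]; exact MED_unit j₀
  -- the level set which is not small
  have hlev : ∃ r : ℕ, r < R ∧ ¬ Small ν (1 / (2 * R))
      {Y : MM M k | ‖Y‖ ≤ 1 ∧ r * t ≤ ‖MED_L c₀ Y‖ ∧ ‖MED_L c₀ Y‖ ≤ (r + 1) * t} := by
    by_contra hcon
    push Not at hcon
    have hcov : Metric.closedBall (0 : MM M k) 1 ⊆ ⋃ r ∈ Finset.range R,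
        ({Y : MM M k | ‖Y‖ ≤ 1 ∧ r * t ≤ ‖MED_L c₀ Y‖ ∧ ‖MED_L c₀ Y‖ ≤ (r + 1) * t} ∩
          Metric.closedBall 0 1) := by
      intro Y hY
      have hY1 : ‖Y‖ ≤ 1 := by simpa using hY
      have hL1 : ‖MED_L c₀ Y‖ ≤ 1 := (MED_L_le c₀ hc₀1 Y).trans hY1
      have hL0 : 0 ≤ ‖MED_L c₀ Y‖ := norm_nonneg _
      obtain ⟨x, hx⟩ : ∃ x, x = ‖MED_L c₀ Y‖ := ⟨_, rfl⟩
      rw [← hx] at hL1 hL0
      have : ∃ r : ℕ, r < R ∧ r * t ≤ x ∧ x ≤ (r + 1) * t := by
        by_cases h1 : x < 1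
        · refine ⟨⌊x * R⌋₊, ?_, ?_, ?_⟩
          · rw [Nat.floor_lt (by positivity)]
            nlinarith
          · have := Nat.floor_le (show 0 ≤ x * R by positivity)
            calc (⌊x * R⌋₊ : ℝ) * t ≤ (x * R) * t := by gcongr
              _ = x * (t * R) := by ring
              _ = x := by rw [htR, mul_one]
          · have := (Nat.lt_floor_add_one (x * R)).le
            calc x = x * (t * R) := by rw [htR, mul_one]
              _ = (x * R) * t := by ring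
              _ ≤ (⌊x * R⌋₊ + 1) * t := by gcongr
        · have hx1 : x = 1 := le_antisymm hL1 (not_lt.1 h1)
          have hRpos : 0 < R := by exact_mod_cast hR0
          refine ⟨R - 1, by omega, ?_, ?_⟩
          · rw [Nat.cast_sub hRpos, hx1]
            push_cast
            nlinarith
          · rw [Nat.cast_sub hRpos, hx1]
            push_cast
            nlinarith
      obtain ⟨r, hr, h1, h2⟩ := this
      simp only [Set.mem_iUnion, Finset.mem_range]
      refine ⟨r, hr, ⟨hY1, ?_, ?_⟩, hY⟩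
      · rw [← hx]; exact h1
      · rw [← hx]; exact h2
    have h1 : nb ≤ ∑ r ∈ Finset.range R, ENNReal.ofReal (1 / (2 * R)) * nb := by
      calc nb = ν (Metric.closedBall (0 : MM M k) 1) := hnb
        _ ≤ _ := measure_mono hcov
        _ ≤ ∑ r ∈ Finset.range R, ν _ := measure_biUnion_finset_le _ _
        _ ≤ ∑ r ∈ Finset.range R, ENNReal.ofReal (1 / (2 * R)) * nb := by
            refine Finset.sum_le_sum fun r hr => ?_
            have := hcon r (Finset.mem_range.1 hr)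
            unfold Small at this
            rw [hnb]
            exact this
    rw [Finset.sum_const, Finset.card_range, nsmul_eq_mul, ← mul_assoc] at h1
    have h2 : (R : ENNReal) * ENNReal.ofReal (1 / (2 * R)) = ENNReal.ofReal (1 / 2) := by
      rw [← ENNReal.ofReal_natCast, ← ENNReal.ofReal_mul (by positivity)]
      congr 1
      field_simp
    rw [h2] at h1
    exact absurd h1 (not_le.2 (hlt _ le_rfl))
  obtain ⟨r, hrR, hr⟩ := hlev
  obtain ⟨m, hm⟩ : ∃ m : ℝ, m = r * t := ⟨_, rfl⟩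
  have hm0 : 0 ≤ m := by rw [hm]; positivity
  have hm1 : m ≤ 1 := by
    rw [hm, ← htR, mul_comm t]
    have : (r : ℝ) ≤ R := by exact_mod_cast hrR.le
    gcongr
  -- concentration for `c₀`
  have hc0small : Small ν ε' {Y : MM M k | 2 * t < |‖MED_L c₀ Y‖ - m|} := by
    have h1 := hM₁ M hMM1 ν _ (fun Y hY => by simpa using hY.1) hr
    unfold Small at h1 ⊢
    refine le_trans (measure_mono ?_) h1
    rintro Y ⟨hY, hYb⟩
    refine ⟨?_, hYb⟩
    rintro ⟨Z, ⟨hZ1, hZ2, hZ3⟩, hZY⟩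
    have h2 := MED_L_lip c₀ hc₀1 Z Y
    rw [← hm] at hZ2
    have hZ3' : ‖MED_L c₀ Z‖ ≤ m + t := by rw [hm]; linarith
    have h3 : |‖MED_L c₀ Z‖ - ‖MED_L c₀ Y‖| < t := lt_of_le_of_lt h2 hZY
    rw [abs_lt] at h3
    have hY' : 2 * t < |‖MED_L c₀ Y‖ - m| := hY
    rw [lt_abs] at hY'
    rcases hY' with h | h <;> linarith [h3.1, h3.2]
  -- concentration for all unit vectors
  have hall : ∀ c : Fin k → ℂ, ∑ j, ‖c j‖ ^ 2 = 1 →
      Small ν ε' {Y : MM M k | 2 * t < |‖MED_L c Y‖ - m|} := by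
    intro c hc
    obtain ⟨a, ha, hac⟩ := MED_unitary j₀ c hc
    obtain ⟨T, hT⟩ := hR M k a ha
    have hTc : ∀ Y : MM M k, MED_L c₀ (T Y) = MED_L c Y := by
      intro Y
      ext i
      simp only [MED_L, hT, hc₀]
      simp [hac]
    have hmp := hI (MM M k) ν ⟨T.toLinearEquiv.restrictScalars ℝ, fun x => T.norm_map x⟩
    unfold Small at hc0small ⊢
    have hms : MeasurableSet ({Y : MM M k | 2 * t < |‖MED_L c₀ Y‖ - m|} ∩
        Metric.closedBall 0 1) := by
      refine (IsOpen.measurableSet ?_).inter Metric.isClosed_closedBall.measurableSet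
      exact isOpen_lt continuous_const (((MED_L_cont c₀).sub continuous_const).abs)
    rw [← hmp.measure_preimage hms.nullMeasurableSet] at hc0small
    refine le_trans (measure_mono ?_) hc0small
    rintro Y ⟨hY, hYb⟩
    refine ⟨?_, ?_⟩
    · show 2 * t < |‖MED_L c₀ (T Y)‖ - m|
      rw [hTc]; exact hY
    · have : ‖T Y‖ = ‖Y‖ := T.norm_map Y
      show (T Y) ∈ Metric.closedBall (0 : MM M k) 1
      simp only [Metric.mem_closedBall, dist_zero_right] at hYb ⊢
      rw [this]; exact hYb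
  -- the norm is close to one
  have hsph : Small ν ε' {Y : MM M k | ‖Y‖ < 1 - t} := by
    unfold Small
    have hfr : M ≤ Module.finrank ℝ (MM M k) := by
      have : Module.finrank ℝ (MM M k) = 2 * Module.finrank ℂ (MM M k) :=
        finrank_real_of_complex _
      rw [this, finrank_euclideanSpace, Fintype.card_prod, Fintype.card_fin, Fintype.card_fin]
      nlinarith
    calc ν ({Y : MM M k | ‖Y‖ < 1 - t} ∩ Metric.closedBall 0 1)
        ≤ ν (Metric.closedBall (0 : MM M k) (1 - t)) := by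
          refine measure_mono ?_
          rintro Y ⟨hY, -⟩
          simp only [Metric.mem_closedBall, dist_zero_right]
          exact le_of_lt hY
      _ = ENNReal.ofReal ((1 - t) ^ Module.finrank ℝ (MM M k)) *
            ν (Metric.closedBall (0 : MM M k) 1) :=
          Measure.addHaar_closedBall' ν 0 (by linarith)
      _ ≤ ENNReal.ofReal ε' * ν (Metric.closedBall (0 : MM M k) 1) := by
          gcongr
          calc (1 - t) ^ Module.finrank ℝ (MM M k) ≤ (1 - t) ^ n :=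
                pow_le_pow_of_le_one (by linarith) (by linarith) (hMn.trans hfr)
            _ ≤ ε' := hn.le
  -- a typical point
  have hpt : ∃ Y : MM M k, ‖Y‖ ≤ 1 ∧ 1 - t ≤ ‖Y‖ ∧
      ∀ j : Fin k, |‖MED_L (fun l => if l = j then (1 : ℂ) else 0) Y‖ - m| ≤ 2 * t := by
    by_contra hcon
    push Not at hcon
    have hcov : Metric.closedBall (0 : MM M k) 1 ⊆
        ({Y : MM M k | ‖Y‖ < 1 - t} ∩ Metric.closedBall 0 1) ∪ ⋃ j ∈ (Finset.univ : Finset (Fin k)),
        ({Y : MM M k | 2 * t < |‖MED_L (fun l => if l = j then (1 : ℂ) else 0) Y‖ - m|} ∩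
          Metric.closedBall 0 1) := by
      intro Y hY
      have hY1 : ‖Y‖ ≤ 1 := by simpa using hY
      by_cases h1 : ‖Y‖ < 1 - t
      · exact Or.inl ⟨h1, hY⟩
      · right
        obtain ⟨j, hj⟩ := hcon Y hY1 (not_lt.1 h1)
        simp only [Set.mem_iUnion, Finset.mem_univ]
        exact ⟨j, trivial, hj, hY⟩
    have h1 : nb ≤ ENNReal.ofReal ε' * nb + ∑ j : Fin k, ENNReal.ofReal ε' * nb := by
      calc nb = ν (Metric.closedBall (0 : MM M k) 1) := hnb
        _ ≤ _ := measure_mono hcov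
        _ ≤ _ := measure_union_le _ _
        _ ≤ ENNReal.ofReal ε' * nb + ∑ j : Fin k, ENNReal.ofReal ε' * nb := by
            rw [hnb]
            refine add_le_add hsph ?_
            refine (measure_biUnion_finset_le _ _).trans ?_
            exact Finset.sum_le_sum fun j _ => hall _ (MED_unit j)
    rw [Finset.sum_const, Finset.card_univ, Fintype.card_fin, nsmul_eq_mul] at h1
    have h2 : ENNReal.ofReal ε' * nb + k * (ENNReal.ofReal ε' * nb) =
        ENNReal.ofReal ((k + 1) * ε') * nb := by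
      rw [ENNReal.ofReal_mul (by positivity), ENNReal.ofReal_add (by positivity) (by positivity),
        ENNReal.ofReal_natCast, ENNReal.ofReal_one]
      ring
    rw [h2] at h1
    exact absurd h1 (not_le.2 (hlt _ hε'k))
  have hmk : |m ^ 2 - 1 / k| ≤ 6 * t := by
    obtain ⟨Y, hY1, hY2, hY3⟩ := hpt
    have hk1 : (1:ℝ) ≤ k := by exact_mod_cast hk
    have hsq : ∀ j : Fin k,
        |‖MED_L (fun l => if l = j then (1 : ℂ) else 0) Y‖ ^ 2 - m ^ 2| ≤ 4 * t := by
      intro j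
      have h1 := hY3 j
      have h2 : ‖MED_L (fun l => if l = j then (1 : ℂ) else 0) Y‖ ≤ 1 :=
        (MED_L_le _ (MED_unit j) Y).trans hY1
      have h3 := norm_nonneg (MED_L (fun l => if l = j then (1 : ℂ) else 0) Y)
      rw [sq_sub_sq, abs_mul]
      have h4 : |‖MED_L (fun l => if l = j then (1 : ℂ) else 0) Y‖ + m| ≤ 2 := by
        rw [abs_of_nonneg (by positivity)]; linarith
      calc _ ≤ 2 * (2 * t) := mul_le_mul h4 h1 (abs_nonneg _) (by norm_num)
        _ = 4 * t := by ring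
    have h5 : |‖Y‖ ^ 2 - k * m ^ 2| ≤ k * (4 * t) := by
      rw [← MED_sum Y]
      have h6 : (k : ℝ) * m ^ 2 = ∑ j : Fin k, m ^ 2 := by simp
      have h7 : (k : ℝ) * (4 * t) = ∑ j : Fin k, 4 * t := by simp
      rw [h6, h7, ← Finset.sum_sub_distrib]
      exact (Finset.abs_sum_le_sum_abs _ _).trans (Finset.sum_le_sum fun j _ => hsq j)
    have h8 : |‖Y‖ ^ 2 - 1| ≤ 2 * t := by
      rw [abs_le]
      constructor
      · nlinarith
      · nlinarith [norm_nonneg Y]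
    have h9 : |k * m ^ 2 - 1| ≤ k * (6 * t) := by
      have : (k : ℝ) * m ^ 2 - 1 = -(‖Y‖ ^ 2 - k * m ^ 2) + (‖Y‖ ^ 2 - 1) := by ring
      rw [this]
      refine (abs_add_le _ _).trans ?_
      rw [abs_neg]
      nlinarith
    have h10 : m ^ 2 - 1 / k = (k * m ^ 2 - 1) / k := by field_simp
    rw [h10, abs_div, abs_of_pos (by positivity : (0:ℝ) < k), div_le_iff₀ (by positivity)]
    linarith
  -- conclusion
  have hfin := hall c hc
  unfold Small at hfin ⊢
  calc ν ({Y : MM M k | η < |∑ i : Fin M, ‖∑ j, Y (i, j) * c j‖ ^ 2 - 1 / k|} ∩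
        Metric.closedBall 0 1)
      ≤ ν ({Y : MM M k | 2 * t < |‖MED_L c Y‖ - m|} ∩ Metric.closedBall 0 1) := by
        refine measure_mono ?_
        rintro Y ⟨hY, hYb⟩
        refine ⟨?_, hYb⟩
        have hY1 : ‖Y‖ ≤ 1 := by simpa using hYb
        have hY' : η < |∑ i : Fin M, ‖∑ j, Y (i, j) * c j‖ ^ 2 - 1 / k| := hY
        rw [← MED_L_sq] at hY'
        show 2 * t < |‖MED_L c Y‖ - m|
        by_contra hcon
        rw [not_lt] at hcon
        have h2 : ‖MED_L c Y‖ ≤ 1 := (MED_L_le c hc Y).trans hY1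
        have h3 := norm_nonneg (MED_L c Y)
        have h4 : |‖MED_L c Y‖ ^ 2 - m ^ 2| ≤ 4 * t := by
          rw [sq_sub_sq, abs_mul]
          have h4 : |‖MED_L c Y‖ + m| ≤ 2 := by
            rw [abs_of_nonneg (by positivity)]; linarith
          calc _ ≤ 2 * (2 * t) := mul_le_mul h4 hcon (abs_nonneg _) (by norm_num)
            _ = 4 * t := by ring
        have h5 : |‖MED_L c Y‖ ^ 2 - 1 / k| ≤ 10 * t := by
          have : ‖MED_L c Y‖ ^ 2 - 1 / k = (‖MED_L c Y‖ ^ 2 - m ^ 2) + (m ^ 2 - 1 / k) := by ring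
          rw [this]
          refine (abs_add_le _ _).trans ?_
          linarith
        linarith
    _ ≤ ENNReal.ofReal ε' * ν (Metric.closedBall (0 : MM M k) 1) := hfin
    _ ≤ ENNReal.ofReal ε * ν (Metric.closedBall (0 : MM M k) 1) := by gcongr

end Pool.Agent.H566U
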