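import Pool.Agent.H566U.Spec

set_option autoImplicit false

namespace Pool.Agent.H566U

theorem ORTHF_not_finite (he : Orthonormal ℂ e) : ¬ FiniteDimensional ℂ H := by
  intro h
  have h1 := he.linearIndependent.lt_aleph0_of_finite
  simp at h1

theorem t_ORTHF (h : S_SOTB) : S_ORTHF := by
  intro V hV k
  have he : Orthonormal ℂ e := h.2.2.1
  induction k with
  | zero => exact ⟨fun i => i.elim0, ⟨fun i => i.elim0, fun i => i.elim0⟩, fun i => i.elim0⟩
  | succ k ih =>
    obtain ⟨b, hb, hbV⟩ := ih
    set V' : Submodule ℂ H := V ⊔ Submodule.span ℂ (Set.range b) with hV'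
    have hfin : FiniteDimensional ℂ V' := by
      have : FiniteDimensional ℂ (Submodule.span ℂ (Set.range b)) :=
        FiniteDimensional.span_of_finite ℂ (Set.finite_range b)
      exact Submodule.finite_sup _ _
    have hne : V'ᗮ ≠ ⊥ := by
      intro h0
      rw [Submodule.orthogonal_eq_bot_iff] at h0
      rw [h0] at hfin
      exact ORTHF_not_finite he (Module.Finite.of_surjective (Submodule.topEquiv (R := ℂ) (M := H)).toLinearMap
        (Submodule.topEquiv (R := ℂ) (M := H)).surjective)
    obtain ⟨u, hu, hu0⟩ := (Submodule.ne_bot_iff _).1 hne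
    have hun : ‖u‖ ≠ 0 := norm_ne_zero_iff.2 hu0
    have hu' : ((‖u‖⁻¹ : ℝ) : ℂ) • u ∈ V'ᗮ := Submodule.smul_mem _ _ hu
    set w : H := ((‖u‖⁻¹ : ℝ) : ℂ) • u with hw
    have hwn : ‖w‖ = 1 := by
      rw [hw, norm_smul, Complex.norm_real, norm_inv, norm_norm, inv_mul_cancel₀ hun]
    have hwb : ∀ i, inner ℂ (b i) w = (0 : ℂ) := by
      intro i
      apply (Submodule.mem_orthogonal _ _).1 hu'
      exact Submodule.mem_sup_right (Submodule.subset_span ⟨i, rfl⟩)
    have hwb' : ∀ i, inner ℂ w (b i) = (0 : ℂ) := by
      intro i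
      rw [← inner_conj_symm, hwb, map_zero]
    have hwV : w ∈ Vᗮ := by
      rw [Submodule.mem_orthogonal]
      intro x hx
      exact (Submodule.mem_orthogonal _ _).1 hu' x (Submodule.mem_sup_left hx)
    refine ⟨Fin.snoc b w, ?_, ?_⟩
    · constructor
      · intro i
        refine Fin.lastCases ?_ (fun j => ?_) i
        · simp [hwn]
        · simp [hb.1 j]
      · intro i j
        refine Fin.lastCases ?_ (fun i' => ?_) i
        · refine Fin.lastCases ?_ (fun j' => ?_) j
          · intro hij; exact absurd rfl hij
          · intro _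
            simp [hwb']
        · refine Fin.lastCases ?_ (fun j' => ?_) j
          · intro _
            simp [hwb]
          · intro hij
            simp only [Fin.snoc_castSucc]
            exact hb.2 (fun h' => hij (by rw [h']))
    · intro i
      refine Fin.lastCases ?_ (fun j => ?_) i
      · simp [hwV]
      · simp only [Fin.snoc_castSucc]
        exact hbV j

end Pool.Agent.H566U
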