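import Mathlib
import Pool.Agent.H566U.Spec

/-! Task OV: a unitary moving one unit vector to another, close to the identity. -/

set_option autoImplicit false

namespace Pool.Agent.H566U

open Filter Topology Set

/-- `x + (z - 1) <v, x> v` -/
noncomputable def OV_D (v : H) (z : ℂ) : H →ₗ[ℂ] H where
  toFun x := x + ((z - 1) * inner ℂ v x) • v
  map_add' x y := by
    rw [inner_add_right, mul_add, add_smul]
    abel
  map_smul' r x := by
    simp only [inner_smul_right, RingHom.id_apply, smul_add, smul_smul]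
    congr 2
    ring

theorem OV_D_apply (v : H) (z : ℂ) (x : H) : OV_D v z x = x + ((z - 1) * inner ℂ v x) • v := rfl

theorem OV_inner_self (v : H) (hv : ‖v‖ = 1) : inner ℂ v v = (1 : ℂ) := by
  rw [inner_self_eq_norm_sq_to_K, hv]
  simp

theorem OV_D_comp (v : H) (hv : ‖v‖ = 1) (z w : ℂ) (x : H) :
    OV_D v z (OV_D v w x) = OV_D v (z * w) x := by
  simp only [OV_D_apply, inner_add_right, inner_smul_right, OV_inner_self v hv]
  rw [add_assoc, ← add_smul]
  congr 2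
  ring

theorem OV_conj_mul (z : ℂ) (hz : ‖z‖ = 1) : (starRingEnd ℂ) z * z = 1 := by
  rw [mul_comm, Complex.mul_conj, Complex.normSq_eq_norm_sq, hz]
  simp

theorem OV_D_inner (v : H) (hv : ‖v‖ = 1) (z : ℂ) (hz : ‖z‖ = 1) (x : H) :
    inner ℂ (OV_D v z x) (OV_D v z x) = (inner ℂ x x : ℂ) := by
  simp only [OV_D_apply, inner_add_right, inner_add_left, inner_smul_right, inner_smul_left,
    OV_inner_self v hv, map_mul, map_sub, map_one]
  have h1 : (starRingEnd ℂ) (inner ℂ v x) = inner ℂ x v := inner_conj_symm x v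
  rw [h1]
  have h2 := OV_conj_mul z hz
  linear_combination (inner ℂ x v * inner ℂ v x) * h2

/-- the unitary -/
noncomputable def OV_U (v : H) (hv : ‖v‖ = 1) (z : ℂ) (hz : ‖z‖ = 1) : G where
  toFun := OV_D v z
  invFun := OV_D v ((starRingEnd ℂ) z)
  map_add' := (OV_D v z).map_add
  map_smul' := (OV_D v z).map_smul
  left_inv x := by
    rw [OV_D_comp v hv, OV_conj_mul z hz, OV_D_apply]
    simp
  right_inv x := by
    rw [OV_D_comp v hv, mul_comm, OV_conj_mul z hz, OV_D_apply]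
    simp
  norm_map' x := by
    have h := OV_D_inner v hv z hz x
    rw [inner_self_eq_norm_sq_to_K, inner_self_eq_norm_sq_to_K] at h
    have h' : ‖OV_D v z x‖ ^ 2 = ‖x‖ ^ 2 := by exact_mod_cast h
    exact (sq_eq_sq₀ (norm_nonneg _) (norm_nonneg _)).mp h'

theorem OV_U_apply (v : H) (hv : ‖v‖ = 1) (z : ℂ) (hz : ‖z‖ = 1) (x : H) :
    OV_U v hv z hz x = x + ((z - 1) * inner ℂ v x) • v := rfl

theorem OV_near (v : H) (hv : ‖v‖ = 1) (z : ℂ) (hz : ‖z‖ = 1) (x : H) :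
    ‖OV_U v hv z hz x - x‖ ≤ ‖z - 1‖ * ‖x‖ := by
  rw [OV_U_apply, add_sub_cancel_left, norm_smul, norm_mul, hv, mul_one]
  apply mul_le_mul_of_nonneg_left _ (norm_nonneg _)
  have := norm_inner_le_norm (𝕜 := ℂ) v x
  rwa [hv, one_mul] at this

theorem OV_minus : ‖(-1 : ℂ)‖ = 1 := by simp

theorem OV_refl_diff (a m : H) (ha : ‖a‖ = 1) (hm : ‖m‖ = 1) (z : H) :
    ‖OV_U m hm (-1) OV_minus z - OV_U a ha (-1) OV_minus z‖ ≤ 4 * ‖m - a‖ * ‖z‖ := by
  have e : OV_U m hm (-1) OV_minus z - OV_U a ha (-1) OV_minus z =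
      (-2 * inner ℂ m z : ℂ) • (m - a) + (-2 * inner ℂ (m - a) z : ℂ) • a := by
    rw [OV_U_apply, OV_U_apply, inner_sub_left]
    module
  rw [e]
  refine le_trans (norm_add_le _ _) ?_
  rw [norm_smul, norm_smul, norm_mul, norm_mul, ha, mul_one]
  have h1 := norm_inner_le_norm (𝕜 := ℂ) m z
  have h2 := norm_inner_le_norm (𝕜 := ℂ) (m - a) z
  rw [hm, one_mul] at h1
  have h3 : ‖(-2 : ℂ)‖ = 2 := by simp
  rw [h3]
  have h4 := mul_le_mul_of_nonneg_right h1 (norm_nonneg (m - a))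
  nlinarith

theorem t_OV : S_OV := by
  intro a b ha hb
  set c : ℂ := inner ℂ a b with hc
  have hc1 : ‖c - 1‖ ≤ ‖a - b‖ := by
    have e1 : c - 1 = inner ℂ a (b - a) := by
      rw [inner_sub_right, OV_inner_self a ha]
    rw [e1]
    have := norm_inner_le_norm (𝕜 := ℂ) a (b - a)
    rwa [ha, one_mul, norm_sub_rev] at this
  obtain ⟨ω, hω, hωc, hω1⟩ : ∃ ω : ℂ, ‖ω‖ = 1 ∧ (starRingEnd ℂ) ω * c = (‖c‖ : ℂ) ∧
      ‖ω - 1‖ ≤ 2 * ‖c - 1‖ := by
    by_cases h0 : c = 0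
    · refine ⟨1, by simp, by simp [h0], ?_⟩
      simp
    · have hn : (0 : ℝ) < ‖c‖ := norm_pos_iff.mpr h0
      have hnC : (‖c‖ : ℂ) ≠ 0 := by exact_mod_cast hn.ne'
      refine ⟨c / (‖c‖ : ℂ), ?_, ?_, ?_⟩
      · rw [norm_div, Complex.norm_real, norm_norm, div_self hn.ne']
      · rw [map_div₀, Complex.conj_ofReal, div_mul_eq_mul_div, div_eq_iff hnC, mul_comm,
          Complex.mul_conj, Complex.normSq_eq_norm_sq]
        push_cast
        ring
      · have e1 : c / (‖c‖ : ℂ) - 1 = (c / (‖c‖ : ℂ)) * (1 - (‖c‖ : ℂ)) + (c - 1) := by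
          field_simp
          ring
        rw [e1]
        refine le_trans (norm_add_le _ _) ?_
        rw [norm_mul, norm_div, Complex.norm_real, norm_norm, div_self hn.ne', one_mul]
        have e2 : ‖(1 : ℂ) - (‖c‖ : ℂ)‖ ≤ ‖c - 1‖ := by
          have : (1 : ℂ) - (‖c‖ : ℂ) = ((1 - ‖c‖ : ℝ) : ℂ) := by push_cast; ring
          rw [this, Complex.norm_real, Real.norm_eq_abs]
          have h5 := abs_norm_sub_norm_le (1 : ℂ) c
          rw [norm_one, norm_sub_rev] at h5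
          exact h5
        linarith
  have hω2 : ‖ω - 1‖ ≤ 2 * ‖a - b‖ := by linarith
  have hωω := OV_conj_mul ω hω
  set b₂ : H := (starRingEnd ℂ) ω • b with hb₂
  have hb₂n : ‖b₂‖ = 1 := by
    rw [hb₂, norm_smul, hb, mul_one, RCLike.norm_conj, hω]
  have hab₂ : inner ℂ a b₂ = (‖c‖ : ℂ) := by
    rw [hb₂, inner_smul_right, ← hc, hωc]
  have hb₂a : inner ℂ b₂ a = (‖c‖ : ℂ) := by
    rw [← inner_conj_symm, hab₂, Complex.conj_ofReal]
  have hclose : ‖a - b₂‖ ≤ 3 * ‖a - b‖ := by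
    have e1 : a - b₂ = (a - b) + (1 - (starRingEnd ℂ) ω) • b := by
      rw [hb₂, sub_smul, one_smul]
      abel
    rw [e1]
    refine le_trans (norm_add_le _ _) ?_
    rw [norm_smul, hb, mul_one]
    have e2 : ‖(1 : ℂ) - (starRingEnd ℂ) ω‖ = ‖ω - 1‖ := by
      have : (1 : ℂ) - (starRingEnd ℂ) ω = (starRingEnd ℂ) (1 - ω) := by simp
      rw [this, RCLike.norm_conj, norm_sub_rev]
    rw [e2]
    linarith
  set s : H := a + b₂ with hs
  have hss : inner ℂ s s = ((2 + 2 * ‖c‖ : ℝ) : ℂ) := by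
    rw [hs, inner_add_left, inner_add_right, inner_add_right, OV_inner_self a ha,
      OV_inner_self b₂ hb₂n, hab₂, hb₂a]
    push_cast
    ring
  have hs2 : ‖s‖ ^ 2 = 2 + 2 * ‖c‖ := by
    rw [inner_self_eq_norm_sq_to_K] at hss
    have h5 : ((‖s‖ ^ 2 : ℝ) : ℂ) = ((2 + 2 * ‖c‖ : ℝ) : ℂ) := by
      rw [← hss]
      push_cast
      rfl
    exact Complex.ofReal_injective h5
  have hs14 : 1.4 ≤ ‖s‖ := by
    by_contra hlt
    rw [not_le] at hlt
    have h1 := norm_nonneg s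
    have h2 := norm_nonneg c
    nlinarith
  have hspos : 0 < ‖s‖ := by linarith
  have hsC : (‖s‖ : ℂ) ≠ 0 := by exact_mod_cast hspos.ne'
  set m : H := ((‖s‖ : ℂ)⁻¹) • s with hm
  have hmn : ‖m‖ = 1 := by
    rw [hm, norm_smul, norm_inv, Complex.norm_real, norm_norm, inv_mul_cancel₀ hspos.ne']
  have hma : ‖m - a‖ ≤ 2 / 1.4 * ‖a - b₂‖ := by
    have e1 : m - a = ((‖s‖ : ℂ)⁻¹) • ((b₂ - a) + ((2 - ‖s‖ : ℝ) : ℂ) • a) := by
      have e5 : ∀ r : ℂ, (b₂ - a) + (2 - r) • a = s - r • a := by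
        intro r
        rw [hs]
        module
      have e6 : ((2 - ‖s‖ : ℝ) : ℂ) = 2 - (‖s‖ : ℂ) := by push_cast; rfl
      rw [e6, e5, smul_sub, smul_smul, inv_mul_cancel₀ hsC, one_smul]
    rw [e1, norm_smul, norm_inv, Complex.norm_real, norm_norm]
    have e2 : |2 - ‖s‖| ≤ ‖a - b₂‖ := by
      have h1 := abs_norm_sub_norm_le ((2 : ℂ) • a) s
      have h2 : ‖(2 : ℂ) • a‖ = 2 := by rw [norm_smul, ha]; simp
      have h3 : (2 : ℂ) • a - s = a - b₂ := by
        rw [hs]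
        module
      rw [h2, h3] at h1
      exact h1
    have e3 : ‖(b₂ - a) + ((2 - ‖s‖ : ℝ) : ℂ) • a‖ ≤ 2 * ‖a - b₂‖ := by
      refine le_trans (norm_add_le _ _) ?_
      rw [norm_smul, ha, mul_one, Complex.norm_real, Real.norm_eq_abs, norm_sub_rev b₂ a]
      linarith
    have e4 : ‖s‖⁻¹ ≤ 1 / 1.4 := by
      rw [inv_eq_one_div]
      exact one_div_le_one_div_of_le (by norm_num) hs14
    calc ‖s‖⁻¹ * ‖(b₂ - a) + ((2 - ‖s‖ : ℝ) : ℂ) • a‖ ≤ (1 / 1.4) * (2 * ‖a - b₂‖) := by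
          apply mul_le_mul e4 e3 (norm_nonneg _) (by norm_num)
      _ = 2 / 1.4 * ‖a - b₂‖ := by ring
  -- the unitary
  refine ⟨(OV_U a ha (-1) OV_minus).trans ((OV_U m hmn (-1) OV_minus).trans
    (OV_U b hb ω hω)), ?_, ?_, ?_⟩
  · simp only [LinearIsometryEquiv.trans_apply]
    have s1 : OV_U a ha (-1) OV_minus a = -a := by
      rw [OV_U_apply, OV_inner_self a ha]
      module
    have s2 : OV_U m hmn (-1) OV_minus (-a) = b₂ := by
      rw [OV_U_apply]
      have e1 : inner ℂ m (-a) = -((‖s‖ : ℂ)⁻¹ * (1 + ‖c‖)) := by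
        rw [hm, inner_smul_left, inner_neg_right, hs, inner_add_left, OV_inner_self a ha, hb₂a,
          map_inv₀, Complex.conj_ofReal]
        ring
      rw [e1, hm, smul_smul]
      have e2 : (-1 - 1 : ℂ) * -((‖s‖ : ℂ)⁻¹ * (1 + ‖c‖)) * (‖s‖ : ℂ)⁻¹ = 1 := by
        have e3 : (‖s‖ : ℂ) ^ 2 = 2 + 2 * ‖c‖ := by exact_mod_cast hs2
        have e4 : (-1 - 1 : ℂ) * -((‖s‖ : ℂ)⁻¹ * (1 + ‖c‖)) * (‖s‖ : ℂ)⁻¹ =
            (2 + 2 * ‖c‖) / (‖s‖ : ℂ) ^ 2 := by
          field_simp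
          ring
        rw [e4, ← e3, div_self (pow_ne_zero 2 hsC)]
      rw [e2, one_smul, hs]
      abel
    rw [s1, s2, OV_U_apply, hb₂, inner_smul_right, OV_inner_self b hb, mul_one, ← add_smul]
    have e5 : (starRingEnd ℂ) ω + (ω - 1) * (starRingEnd ℂ) ω = 1 := by
      linear_combination hωω
    rw [e5, one_smul]
  · intro x hxa hxb
    simp only [LinearIsometryEquiv.trans_apply]
    have s1 : OV_U a ha (-1) OV_minus x = x := by
      rw [OV_U_apply, hxa]
      simp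
    have s2 : OV_U m hmn (-1) OV_minus x = x := by
      have e1 : inner ℂ m x = (0 : ℂ) := by
        rw [hm, inner_smul_left, hs, inner_add_left, hxa, hb₂, inner_smul_left, hxb]
        simp
      rw [OV_U_apply, e1]
      simp
    rw [s1, s2, OV_U_apply, hxb]
    simp
  · intro x
    simp only [LinearIsometryEquiv.trans_apply]
    set z : H := OV_U a ha (-1) OV_minus x with hz
    have hzn : ‖z‖ = ‖x‖ := LinearIsometryEquiv.norm_map _ _
    have hzz : OV_U a ha (-1) OV_minus z = x := by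
      rw [hz]
      have := OV_D_comp a ha (-1) (-1) x
      have e1 : OV_D a (-1 * -1) x = x := by
        rw [OV_D_apply]
        simp
      rw [e1] at this
      exact this
    set y : H := OV_U m hmn (-1) OV_minus z with hy
    have hyn : ‖y‖ = ‖x‖ := by
      rw [hy, LinearIsometryEquiv.norm_map, hzn]
    have t1 : ‖OV_U b hb ω hω y - y‖ ≤ 2 * ‖a - b‖ * ‖x‖ := by
      refine le_trans (OV_near b hb ω hω y) ?_
      rw [hyn]
      exact mul_le_mul_of_nonneg_right hω2 (norm_nonneg _)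
    have t2 : ‖y - x‖ ≤ 4 * (2 / 1.4 * (3 * ‖a - b‖)) * ‖x‖ := by
      have h1 := OV_refl_diff a m ha hmn z
      rw [hzz, ← hy, hzn] at h1
      refine le_trans h1 ?_
      apply mul_le_mul_of_nonneg_right _ (norm_nonneg _)
      apply mul_le_mul_of_nonneg_left _ (by norm_num)
      refine le_trans hma ?_
      apply mul_le_mul_of_nonneg_left hclose (by norm_num)
    have t3 : OV_U b hb ω hω y - x = (OV_U b hb ω hω y - y) + (y - x) := by abel
    rw [t3]
    refine le_trans (norm_add_le _ _) ?_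
    have t4 : (0 : ℝ) ≤ ‖a - b‖ * ‖x‖ := by positivity
    norm_num at t2 ⊢
    linarith

end Pool.Agent.H566U
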