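import Pool.Agent.H566U.Spec

/-! OVI: a unitary moving a finite orthonormal family to a close one. -/

set_option autoImplicit false

namespace Pool.Agent.H566U

open Filter Topology Set MeasureTheory

theorem t_OVI (hOV : S_OV) : S_OVI := by
  intro k
  induction k with
  | zero =>
    refine ⟨0, le_rfl, fun a b _ _ η _ _ => ⟨1, fun i => i.elim0, fun x _ _ => rfl, fun v => ?_⟩⟩
    show ‖v - v‖ ≤ 0 * η * ‖v‖
    rw [sub_self, norm_zero]
    simp
  | succ k ih =>
    obtain ⟨C, hC, ih⟩ := ih
    refine ⟨C + 20 * (C + 1), by positivity, fun a b ha hb η hη hab => ?_⟩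
    obtain ⟨h0, h0a, h0x, h0n⟩ := ih (fun i => a i.castSucc) (fun i => b i.castSucc)
      (ha.comp _ (Fin.castSucc_injective k)) (hb.comp _ (Fin.castSucc_injective k)) η hη
      (fun i => hab _)
    set L := Fin.last k with hL
    set β : H := h0.symm (b L) with hβ
    have h0β : h0 β = b L := h0.apply_symm_apply _
    have haL : ‖a L‖ = 1 := ha.1 L
    have hβ1 : ‖β‖ = 1 := by
      rw [hβ, LinearIsometryEquiv.norm_map]
      exact hb.1 L
    obtain ⟨h1, h1a, h1x, h1n⟩ := hOV (a L) β haL hβ1
    have hd : ‖a L - β‖ ≤ (C + 1) * η := by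
      have e1 : ‖a L - β‖ = ‖h0 (a L) - b L‖ := by
        rw [← h0β, ← map_sub, LinearIsometryEquiv.norm_map]
      have e2 := h0n (a L)
      rw [haL, mul_one] at e2
      have e3 := hab L
      have e4 : h0 (a L) - b L = (h0 (a L) - a L) + (a L - b L) := by abel
      rw [e1, e4]
      refine (norm_add_le _ _).trans ?_
      linarith
    have hne : ∀ i : Fin k, L ≠ i.castSucc := fun i => (Fin.castSucc_lt_last i).ne'
    have hβa : ∀ i : Fin k, inner ℂ β (a i.castSucc) = (0 : ℂ) := by
      intro i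
      rw [← h0.inner_map_map, h0β, h0a]
      exact hb.2 (hne i)
    have h1ai : ∀ i : Fin k, h1 (a i.castSucc) = a i.castSucc := by
      intro i
      exact h1x _ (ha.2 (hne i)) (hβa i)
    refine ⟨h0 * h1, fun i => ?_, fun x hxa hxb => ?_, fun v => ?_⟩
    · show h0 (h1 (a i)) = b i
      refine Fin.lastCases ?_ (fun i => ?_) i
      · rw [h1a, h0β]
      · rw [h1ai, h0a]
    · show h0 (h1 x) = x
      have h0x' : h0 x = x := h0x x (fun i => hxa _) (fun i => hxb _)
      have h1x' : h1 x = x := by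
        refine h1x x (hxa L) ?_
        rw [← h0.inner_map_map, h0β, h0x']
        exact hxb L
      rw [h1x', h0x']
    · show ‖h0 (h1 v) - v‖ ≤ (C + 20 * (C + 1)) * η * ‖v‖
      have e1 := h0n (h1 v)
      rw [LinearIsometryEquiv.norm_map] at e1
      have e2 := h1n v
      have e3 : h0 (h1 v) - v = (h0 (h1 v) - h1 v) + (h1 v - v) := by abel
      have e4 : 20 * ‖a L - β‖ * ‖v‖ ≤ 20 * ((C + 1) * η) * ‖v‖ := by
        have := norm_nonneg v
        gcongr
      rw [e3]
      refine (norm_add_le _ _).trans ?_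
      have e5 : (C + 20 * (C + 1)) * η * ‖v‖ = C * η * ‖v‖ + 20 * ((C + 1) * η) * ‖v‖ := by ring
      rw [e5]
      exact add_le_add e1 (e2.trans e4)

end Pool.Agent.H566U
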