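import Pool.Agent.H566U.Spec

/-! PATH: the path `θ ↦ lim rot n θ • y`. -/

set_option autoImplicit false

namespace Pool.Agent.H566U

open Filter Topology Set MeasureTheory

theorem PATH_tr (h0 : S_SOTB) (tr : ℕ → ℕ → G) (htr : ∀ m n, tr m n (e m) = e n ∧
    tr m n (e n) = e m ∧ ∀ i, i ≠ m → i ≠ n → tr m n (e i) = e i)
    (X : Type) [MetricSpace X] [MulAction G X] (rot : ℕ → ℝ → G) (hrot : IsRot rot)
    (d : ℕ) (hd : 1 ≤ d) (y : X) (hy : FixedBy (UF d) y) (θ : ℝ) (m n : ℕ) (hm : d ≤ m)
    (hn : d ≤ n) : tr m n • (rot m θ • y) = rot n θ • y := by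
  have hUF : tr m n ∈ UF d := by
    intro i hi
    exact (htr m n).2.2 i (by omega) (by omega)
  have hcomm : tr m n * rot m θ = rot n θ * tr m n := by
    rcases eq_or_ne m n with rfl | hmn
    · have h1 : tr m m = 1 := by
        refine h0.2.1 _ _ fun i => ?_
        by_cases hi : i = m
        · subst hi
          exact (htr i i).1
        · exact (htr m m).2.2 i hi hi
      rw [h1, one_mul, mul_one]
    · refine h0.2.1 _ _ fun i => ?_
      show tr m n (rot m θ (e i)) = rot n θ (tr m n (e i))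
      obtain ⟨m0, m1, m2, -, -⟩ := (hrot m (by omega)).2 θ
      obtain ⟨n0, n1, n2, -, -⟩ := (hrot n (by omega)).2 θ
      have e0 : tr m n (e 0) = e 0 := (htr m n).2.2 0 (by omega) (by omega)
      by_cases hi0 : i = 0
      · subst hi0
        rw [m0, map_add, map_smul, map_smul, e0, (htr m n).1, n0]
      by_cases him : i = m
      · subst him
        rw [m1, map_add, (htr i n).1, n1, map_smul (tr i n) ((Real.cos θ : ℝ) : ℂ),
          (htr i n).1]
        congr 1
        simp only [neg_smul, map_neg, map_smul, e0]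
      by_cases hin : i = n
      · subst hin
        rw [m2 i hi0 him, (htr m i).2.1, n2 m (by omega) hmn]
      · rw [m2 i hi0 him, (htr m n).2.2 i him hin, n2 i hi0 hin]
  rw [smul_smul, hcomm, mul_smul, hy _ hUF]

theorem t_PATH (h0 : S_SOTB) (hT : S_TR) (hU : S_UC) (hW : S_WL) (hK : S_WKB) : S_PATH := by
  intro X _ _ hAct rot hrot d y K θ₀ hd hKc hθ₀ hy hrK
  obtain ⟨tr, htr⟩ := hT
  have he1 : ∀ i, ‖e i‖ = 1 := fun i => h0.2.2.1.1 i
  -- the limit
  have hlim : ∀ θ, ∃ z, θ ∈ Icc 0 θ₀ → z ∈ K ∧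
      Tendsto (fun n => rot n θ • y) atTop (𝓝 z) := by
    intro θ
    by_cases hθ : θ ∈ Icc 0 θ₀
    swap
    · exact ⟨y, fun h => absurd h hθ⟩
    have hx : ∀ n, d ≤ n → rot n θ • y ∈ K := fun n hn => hrK θ hθ.1 hθ.2 n hn
    obtain ⟨z, hz, φ, hφ, hφz⟩ := hKc.tendsto_subseq (x := fun n => rot (n + d) θ • y)
      (fun n => hx _ (by omega))
    refine ⟨z, fun _ => ⟨hz, ?_⟩⟩
    refine tendsto_of_subseq_tendsto fun ns hns => ?_
    -- shift
    obtain ⟨N, hN⟩ := (hns.eventually_ge_atTop d).exists_forall_of_atTop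
    obtain ⟨z', hz', ψ, hψ, hψz⟩ := hKc.tendsto_subseq (x := fun j => rot (ns (j + N)) θ • y)
      (fun j => hx _ (hN _ (by omega)))
    refine ⟨fun j => ψ j + N, ?_⟩
    have hzz : z' = z := by
      have hψt : Tendsto (fun j => ns (ψ j + N)) atTop atTop :=
        hns.comp ((tendsto_add_atTop_nat N).comp hψ.tendsto_atTop)
      have hsot : SOT (fun j => tr (φ j + d) (ns (ψ j + N))) 1 := by
        refine h0.1 _ _ fun i => ?_
        have h1 : ∀ᶠ j in atTop, tr (φ j + d) (ns (ψ j + N)) (e i) = e i := by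
          filter_upwards [hφ.tendsto_atTop.eventually_gt_atTop i,
            hψt.eventually_gt_atTop i] with j hj1 hj2
          exact (htr _ _).2.2 i (by omega) (by omega)
        exact (tendsto_congr' h1).2 tendsto_const_nhds
      have h2 := hAct _ _ _ _ hsot hφz
      rw [one_smul] at h2
      have h3 : (fun j => tr (φ j + d) (ns (ψ j + N)) •
          ((fun n => rot (n + d) θ • y) ∘ φ) j) =
          (fun j => rot (ns (j + N)) θ • y) ∘ ψ := by
        funext j
        exact PATH_tr h0 tr htr X rot hrot d hd y hy θ _ _ (by omega) (hN _ (by omega))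
      rw [h3] at h2
      exact tendsto_nhds_unique hψz h2
    rw [← hzz]
    exact hψz
  choose γ hγ using hlim
  refine ⟨γ, ?_, ?_, fun θ hθ => ⟨(hγ θ hθ).1, ?_, (hγ θ hθ).2⟩⟩
  · rw [Metric.continuousOn_iff]
    intro θ hθ ε hε
    obtain ⟨N, δ, hδ, hN⟩ := hU X hAct K hKc (ε / 2) (by positivity)
    refine ⟨δ, hδ, fun θ' hθ' hdist => ?_⟩
    rw [Real.dist_eq] at hdist
    have h1 : ∀ n, d ≤ n → dist (rot n θ' • y) (rot n θ • y) ≤ ε / 2 := by
      intro n hn
      obtain ⟨-, -, -, r3, r4⟩ := (hrot n (by omega)).2 (θ' - θ)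
      have h2 : rot n θ' = rot n (θ' - θ) * rot n θ := by
        rw [r3 θ]
        congr 1
        ring
      rw [h2, mul_smul]
      refine (hN _ (hrK θ hθ.1 hθ.2 n hn) _ fun i _ => ?_).le
      have h3 := r4 (e i)
      rw [he1, mul_one] at h3
      exact h3.trans hdist.le
    have h4 : Tendsto (fun n => dist (rot n θ' • y) (rot n θ • y)) atTop
        (𝓝 (dist (γ θ') (γ θ))) := (hγ θ' hθ').2.dist (hγ θ hθ).2
    have h5 : dist (γ θ') (γ θ) ≤ ε / 2 := le_of_tendsto h4 ((eventually_ge_atTop d).mono h1)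
    linarith
  · have h1 := (hγ 0 ⟨le_rfl, hθ₀⟩).2
    have h2 : Tendsto (fun n => rot n 0 • y) atTop (𝓝 y) := by
      have h3 : ∀ᶠ n in atTop, rot n 0 • y = y := by
        filter_upwards [eventually_ge_atTop 1] with n hn
        rw [(hrot n hn).1, one_smul]
      exact (tendsto_congr' h3).2 tendsto_const_nhds
    exact tendsto_nhds_unique h1 h2
  · -- fixed by UF d
    set w : Fin d → H := fun i => if (i : ℕ) = 0 then (Real.cos θ : ℂ) • e 0 else e i with hw
    have hort : Orthonormal ℂ (fun i : Fin d => e i) := h0.2.2.1.comp _ Fin.val_injective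
    have hyf : FixedBy {u : G | ∀ i : Fin d, u (e i) = e i} y := by
      intro u hu
      exact hy u fun i hi => hu ⟨i, hi⟩
    have hinn : ∀ i j : ℕ, (inner ℂ (e i) (e j) : ℂ) = if i = j then 1 else 0 :=
      fun i j => orthonormal_iff_ite.1 h0.2.2.1 i j
    have hweak : ∀ (i : Fin d) (v : H), Tendsto (fun j => inner ℂ v (rot (j + d) θ (e i)))
        atTop (𝓝 (inner ℂ v (w i))) := by
      intro i v
      by_cases hi : (i : ℕ) = 0
      · have hwi : w i = (Real.cos θ : ℂ) • e 0 := by simp only [hw, hi, if_true]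
        rw [hwi, hi]
        refine hK (fun j => rot (j + d) θ (e 0)) ((Real.cos θ : ℂ) • e 0) (fun j => ?_)
          (fun l => ?_) v
        · rw [LinearIsometryEquiv.norm_map, he1]
        · have h1 : ∀ᶠ j in atTop, inner ℂ (e l) (rot (j + d) θ (e 0)) =
              (inner ℂ (e l) ((Real.cos θ : ℂ) • e 0) : ℂ) := by
            filter_upwards [eventually_gt_atTop l] with j hj
            rw [((hrot (j + d) (by omega)).2 θ).1, inner_add_right, inner_smul_right,
              inner_smul_right, hinn l (j + d), if_neg (by omega), mul_zero,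
              add_zero]
          exact (tendsto_congr' h1).2 tendsto_const_nhds
      · have hwi : w i = e i := by simp only [hw, hi, if_false]
        rw [hwi]
        have h1 : ∀ j, rot (j + d) θ (e i) = e i := by
          intro j
          have := i.2
          exact ((hrot (j + d) (by omega)).2 θ).2.2.1 i hi (by omega)
        simp only [h1]
        exact tendsto_const_nhds
    have hten : Tendsto (fun j => rot (j + d) θ • y) atTop (𝓝 (γ θ)) :=
      (hγ θ hθ).2.comp (tendsto_add_atTop_nat d)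
    have hfix := hW X hAct d (fun i : Fin d => e i) w hort y (γ θ) hyf
      (fun j => rot (j + d) θ) hweak hten
    intro u hu
    refine hfix u fun i => ?_
    by_cases hi : (i : ℕ) = 0
    · have hwi : w i = (Real.cos θ : ℂ) • e 0 := by simp only [hw, hi, if_true]
      rw [hwi, map_smul, hu 0 (by omega)]
    · have hwi : w i = e i := by simp only [hw, hi, if_false]
      rw [hwi]
      exact hu i i.2

end Pool.Agent.H566U
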