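import Mathlib
import Pool.Agent.H566U.Spec

/-! Task QM: alternating stabilisers. -/

set_option autoImplicit false

namespace Pool.Agent.H566U

open Filter Topology Set MeasureTheory

/-- the bound of LAM -/
def QM_ang (S₁ S₂ : Submodule ℂ H) (l : ℝ) : Prop :=
  ∀ s ∈ S₁, (∀ r ∈ S₁ ⊓ S₂, inner ℂ r s = (0 : ℂ)) →
    ∃ p ∈ S₂, (∀ q ∈ S₂, inner ℂ q (s - p) = (0 : ℂ)) ∧ ‖p‖ ≤ l * ‖s‖

theorem QM_aux (h1 : S_SWAP) (l : ℝ) (hl : 0 ≤ l) (m : ℕ) :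
    ∀ (S₁ S₂ : Submodule ℂ H), FiniteDimensional ℂ S₁ → FiniteDimensional ℂ S₂ →
      QM_ang S₁ S₂ l → QM_ang S₂ S₁ l → ∀ V : Submodule ℂ H, FiniteDimensional ℂ V →
      ∃ k ∈ Subgroup.closure (PS S₁ ∪ PS S₂), ∀ s ∈ S₁,
        (∀ r ∈ S₁ ⊓ S₂, inner ℂ r s = (0 : ℂ)) →
        ∀ b ∈ V, ‖(inner ℂ (k s) b : ℂ)‖ ≤ l ^ m * ‖s‖ * ‖b‖ := by
  induction m with
  | zero =>
    intro S₁ S₂ _ _ _ _ V _
    refine ⟨1, one_mem _, fun s _ _ b _ => ?_⟩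
    rw [pow_zero, one_mul]
    exact norm_inner_le_norm s b
  | succ m ih =>
    intro S₁ S₂ hS₁ hS₂ h12 h21 V hV
    obtain ⟨k', hk', hk'b⟩ := ih S₂ S₁ hS₂ hS₁ h21 h12 V hV
    have hA : FiniteDimensional ℂ ((S₁ ⊔ S₂) ⊓ S₂ᗮ : Submodule ℂ H) :=
      Submodule.finiteDimensional_of_le (inf_le_left : (S₁ ⊔ S₂) ⊓ S₂ᗮ ≤ S₁ ⊔ S₂)
    have hW : FiniteDimensional ℂ (V.map (k'.symm.toLinearEquiv : H →ₗ[ℂ] H)) := inferInstance
    obtain ⟨u, hu, huA⟩ := h1 S₂ ((S₁ ⊔ S₂) ⊓ S₂ᗮ)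
      (V.map (k'.symm.toLinearEquiv : H →ₗ[ℂ] H)) hS₂ hA hW
      (fun s hs a ha => (Submodule.mem_orthogonal _ _).mp ha.2 s hs)
    refine ⟨k' * u, ?_, ?_⟩
    · refine mul_mem ?_ (Subgroup.subset_closure (Or.inr hu))
      rw [union_comm]
      exact hk'
    · intro s hs hsr b hb
      obtain ⟨p, hp, hpo, hpn⟩ := h12 s hs hsr
      have e1 : (k' * u) s = k' p + k' (u (s - p)) := by
        show k' (u s) = k' p + k' (u (s - p))
        rw [map_sub u s p, hu p hp, ← map_add]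
        congr 1
        abel
      have e2 : inner ℂ (k' (u (s - p))) b = (0 : ℂ) := by
        have e3 : b = k' (k'.symm b) := (k'.apply_symm_apply b).symm
        rw [e3, LinearIsometryEquiv.inner_map_map]
        apply huA
        · refine ⟨?_, ?_⟩
          · exact Submodule.sub_mem _ (Submodule.mem_sup_left hs) (Submodule.mem_sup_right hp)
          · rw [SetLike.mem_coe, Submodule.mem_orthogonal]
            exact hpo
        · exact ⟨b, hb, rfl⟩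
      rw [e1, inner_add_left, e2, add_zero]
      have e4 : ∀ r ∈ S₂ ⊓ S₁, inner ℂ r p = (0 : ℂ) := by
        intro r hr
        have e5 := hpo r hr.1
        rw [inner_sub_right, hsr r ⟨hr.2, hr.1⟩] at e5
        simpa using e5
      refine (hk'b p hp e4 b hb).trans ?_
      have e6 : l ^ (m + 1) * ‖s‖ * ‖b‖ = l ^ m * (l * ‖s‖) * ‖b‖ := by ring
      rw [e6]
      have e7 : 0 ≤ l ^ m := pow_nonneg hl m
      gcongr

theorem t_QM (h1 : S_SWAP) (h2 : S_LAM) : S_QM := by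
  intro S₁ S₂ hS₁ hS₂
  obtain ⟨l₁, a1, a2, a3⟩ := h2 S₁ S₂ hS₁ hS₂
  obtain ⟨l₂, b1, b2, b3⟩ := h2 S₂ S₁ hS₂ hS₁
  refine ⟨max l₁ l₂, le_max_of_le_left a1, max_lt a2 b2, ?_⟩
  intro m V hV
  refine QM_aux h1 (max l₁ l₂) (le_max_of_le_left a1) m S₁ S₂ hS₁ hS₂ ?_ ?_ V hV
  · intro s hs hr
    obtain ⟨p, c1, c2, c3⟩ := a3 s hs hr
    exact ⟨p, c1, c2, c3.trans (mul_le_mul_of_nonneg_right (le_max_left _ _) (norm_nonneg s))⟩
  · intro s hs hr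
    obtain ⟨p, c1, c2, c3⟩ := b3 s hs hr
    exact ⟨p, c1, c2, c3.trans (mul_le_mul_of_nonneg_right (le_max_right _ _) (norm_nonneg s))⟩

end Pool.Agent.H566U
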