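import Pool.Agent.H566U.Spec

/-! RCL: closedness of `RR`. -/

set_option autoImplicit false

namespace Pool.Agent.H566U

open Filter Topology Set MeasureTheory

theorem t_RCL : S_RCL := by
  intro X _ _ d y τ τ₀ z z₀ h hτ hz ε hε N
  have h1 : ∀ᶠ j in atTop, dist (τ j) τ₀ < ε / 2 :=
    (Metric.tendsto_nhds.1 hτ) (ε / 2) (half_pos hε)
  have h2 : ∀ᶠ j in atTop, dist (z j) z₀ < ε / 2 :=
    (Metric.tendsto_nhds.1 hz) (ε / 2) (half_pos hε)
  obtain ⟨j, hj1, hj2⟩ := (h1.and h2).exists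
  obtain ⟨g, hg1, hg2, hg3⟩ := h j (ε / 2) (half_pos hε) N
  refine ⟨g, hg1, fun i hi => ?_, ?_⟩
  · have h3 := hg2 i hi
    have h4 : ‖(if i = 0 then (τ j : ℂ) else 0) - (if i = 0 then (τ₀ : ℂ) else 0)‖ ≤
        dist (τ j) τ₀ := by
      split_ifs with h0
      · rw [← Complex.ofReal_sub, Complex.norm_real, Real.dist_eq, Real.norm_eq_abs]
      · rw [sub_zero, norm_zero]; exact dist_nonneg
    calc ‖(inner ℂ (e i) (g (e 0)) : ℂ) - (if i = 0 then (τ₀ : ℂ) else 0)‖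
        = ‖((inner ℂ (e i) (g (e 0)) : ℂ) - (if i = 0 then (τ j : ℂ) else 0)) +
            ((if i = 0 then (τ j : ℂ) else 0) - (if i = 0 then (τ₀ : ℂ) else 0))‖ := by
          rw [sub_add_sub_cancel]
      _ ≤ ‖(inner ℂ (e i) (g (e 0)) : ℂ) - (if i = 0 then (τ j : ℂ) else 0)‖ +
            ‖(if i = 0 then (τ j : ℂ) else 0) - (if i = 0 then (τ₀ : ℂ) else 0)‖ := norm_add_le _ _
      _ < ε := by linarith
  · calc dist (g • y) z₀ ≤ dist (g • y) (z j) + dist (z j) z₀ := dist_triangle _ _ _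
      _ < ε := by linarith

end Pool.Agent.H566U
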