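import Pool.Agent.H566U.Spec

/-! RMUL: right multiplication by a unitary matrix (helper493) -/

set_option autoImplicit false

namespace Pool.Agent.H566U

open Filter Topology Set MeasureTheory

/-- right multiplication as a linear map -/
noncomputable def RMUL_lin {M k : ℕ} (a : Matrix (Fin k) (Fin k) ℂ) : MM M k →ₗ[ℂ] MM M k where
  toFun Y := WithLp.toLp 2 fun p => ∑ l, Y (p.1, l) * a l p.2
  map_add' Y Z := by
    ext p
    simp only [PiLp.add_apply]
    rw [← Finset.sum_add_distrib]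
    exact Finset.sum_congr rfl fun l _ => by ring
  map_smul' c Y := by
    ext p
    simp only [PiLp.smul_apply, smul_eq_mul, RingHom.id_apply]
    rw [Finset.mul_sum]
    exact Finset.sum_congr rfl fun l _ => by ring

theorem RMUL_apply {M k : ℕ} (a : Matrix (Fin k) (Fin k) ℂ) (Y : MM M k) (i : Fin M)
    (j : Fin k) : RMUL_lin a Y (i, j) = ∑ l, Y (i, l) * a l j := rfl

theorem RMUL_comp {M k : ℕ} (a b : Matrix (Fin k) (Fin k) ℂ) (Y : MM M k) :
    RMUL_lin b (RMUL_lin a Y) = RMUL_lin (a * b) Y := by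
  ext ⟨i, j⟩
  rw [RMUL_apply, RMUL_apply]
  simp only [RMUL_apply, Matrix.mul_apply, Finset.sum_mul, Finset.mul_sum]
  rw [Finset.sum_comm]
  refine Finset.sum_congr rfl fun l _ => Finset.sum_congr rfl fun m _ => ?_
  ring

theorem RMUL_one {M k : ℕ} (Y : MM M k) : RMUL_lin (1 : Matrix (Fin k) (Fin k) ℂ) Y = Y := by
  ext ⟨i, j⟩
  rw [RMUL_apply]
  simp [Matrix.one_apply]

theorem RMUL_row {k : ℕ} (a : Matrix (Fin k) (Fin k) ℂ) (ha : a * star a = 1)
    (y : Fin k → ℂ) : ∑ j, ‖∑ l, y l * a l j‖ ^ 2 = ∑ l, ‖y l‖ ^ 2 := by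
  have key : ∀ z : Fin k → ℂ, ((∑ j, ‖z j‖ ^ 2 : ℝ) : ℂ) = z ⬝ᵥ star z := by
    intro z
    rw [dotProduct, Complex.ofReal_sum]
    refine Finset.sum_congr rfl fun j _ => ?_
    rw [Pi.star_apply, RCLike.star_def, Complex.mul_conj']
    push_cast
    rfl
  have h1 : (fun j => ∑ l, y l * a l j) = Matrix.vecMul y a := by
    funext j
    rfl
  have h2 : ((∑ j, ‖∑ l, y l * a l j‖ ^ 2 : ℝ) : ℂ) = ((∑ l, ‖y l‖ ^ 2 : ℝ) : ℂ) := by
    rw [key (fun j => ∑ l, y l * a l j), key y, h1, Matrix.star_vecMul,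
      ← Matrix.dotProduct_mulVec, Matrix.mulVec_mulVec]
    have h3 : a * a.conjTranspose = 1 := ha
    rw [h3, Matrix.one_mulVec]
  exact_mod_cast h2

theorem RMUL_norm {M k : ℕ} (a : Matrix (Fin k) (Fin k) ℂ) (ha : a * star a = 1)
    (Y : MM M k) : ‖RMUL_lin a Y‖ = ‖Y‖ := by
  rw [EuclideanSpace.norm_eq, EuclideanSpace.norm_eq, Fintype.sum_prod_type,
    Fintype.sum_prod_type]
  congr 1
  refine Finset.sum_congr rfl fun i _ => ?_
  exact RMUL_row a ha fun l => Y (i, l)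

theorem t_RMUL : S_RMUL := by
  intro M k a ha
  have h1 : a * star a = 1 := (Matrix.mem_unitaryGroup_iff).1 ha
  have h2 : star a * a = 1 := (Matrix.mem_unitaryGroup_iff').1 ha
  let e0 : MM M k ≃ₗ[ℂ] MM M k :=
    { RMUL_lin a with
      invFun := RMUL_lin (star a)
      left_inv := fun Y => by
        show RMUL_lin (star a) (RMUL_lin a Y) = Y
        rw [RMUL_comp, h1, RMUL_one]
      right_inv := fun Y => by
        show RMUL_lin a (RMUL_lin (star a) Y) = Y
        rw [RMUL_comp, h2, RMUL_one] }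
  refine ⟨{ e0 with norm_map' := fun Y => RMUL_norm a h1 Y }, fun Y i j => rfl⟩

end Pool.Agent.H566U
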