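import Pool.Agent.H566U.Spec

/-! Task ROT: rotations in the planes `e 0, e n` -/

set_option autoImplicit false

namespace Pool.Agent.H566U

open Filter Topology Set MeasureTheory

section

variable {E : Type} [NormedAddCommGroup E] [InnerProductSpace ℂ E]

/-- the rotation as a linear map -/
noncomputable def ROT_lin (f g : E) (c s : ℝ) : E →ₗ[ℂ] E where
  toFun x := x + (((c : ℂ) - 1) * inner ℂ f x - (s : ℂ) * inner ℂ g x) • f +
    ((s : ℂ) * inner ℂ f x + ((c : ℂ) - 1) * inner ℂ g x) • g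
  map_add' x y := by
    simp only [inner_add_right]
    module
  map_smul' r x := by
    simp only [inner_smul_right, RingHom.id_apply]
    module

theorem ROT_lin_apply (f g : E) (c s : ℝ) (x : E) : ROT_lin f g c s x =
    x + (((c : ℂ) - 1) * inner ℂ f x - (s : ℂ) * inner ℂ g x) • f +
    ((s : ℂ) * inner ℂ f x + ((c : ℂ) - 1) * inner ℂ g x) • g := rfl

variable {f g : E} (hf : inner ℂ f f = (1 : ℂ)) (hg : inner ℂ g g = (1 : ℂ))
  (hfg : inner ℂ f g = (0 : ℂ)) (hgf : inner ℂ g f = (0 : ℂ))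

include hf hfg in
theorem ROT_inner_f (c s : ℝ) (x : E) : inner ℂ f (ROT_lin f g c s x) =
    (c : ℂ) * inner ℂ f x - (s : ℂ) * inner ℂ g x := by
  rw [ROT_lin_apply, inner_add_right, inner_add_right, inner_smul_right, inner_smul_right, hf, hfg]
  ring

include hg hgf in
theorem ROT_inner_g (c s : ℝ) (x : E) : inner ℂ g (ROT_lin f g c s x) =
    (s : ℂ) * inner ℂ f x + (c : ℂ) * inner ℂ g x := by
  rw [ROT_lin_apply, inner_add_right, inner_add_right, inner_smul_right, inner_smul_right, hg, hgf]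
  ring

include hf hg hfg hgf in
theorem ROT_comp (c s c' s' : ℝ) (x : E) : ROT_lin f g c s (ROT_lin f g c' s' x) =
    ROT_lin f g (c * c' - s * s') (s * c' + c * s') x := by
  rw [ROT_lin_apply f g c s, ROT_inner_f hf hfg, ROT_inner_g hg hgf, ROT_lin_apply, ROT_lin_apply]
  push_cast
  module

include hf hg hfg hgf in
theorem ROT_norm_comb (α β : ℂ) : ‖α • f + β • g‖ ^ 2 = ‖α‖ ^ 2 + ‖β‖ ^ 2 := by
  have hf1 : ‖f‖ ^ 2 = 1 := by
    have := inner_self_eq_norm_sq (𝕜 := ℂ) f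
    rw [hf] at this
    simpa using this.symm
  have hg1 : ‖g‖ ^ 2 = 1 := by
    have := inner_self_eq_norm_sq (𝕜 := ℂ) g
    rw [hg] at this
    simpa using this.symm
  have h1 : inner ℂ (α • f) (β • g) = (0 : ℂ) := by
    rw [inner_smul_left, inner_smul_right, hfg]
    ring
  have h2 := norm_add_sq_eq_norm_sq_add_norm_sq_of_inner_eq_zero (𝕜 := ℂ) (α • f) (β • g) h1
  rw [norm_smul, norm_smul] at h2
  calc ‖α • f + β • g‖ ^ 2 = ‖α • f + β • g‖ * ‖α • f + β • g‖ := sq _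
    _ = ‖α‖ * ‖f‖ * (‖α‖ * ‖f‖) + ‖β‖ * ‖g‖ * (‖β‖ * ‖g‖) := h2
    _ = ‖α‖ ^ 2 * ‖f‖ ^ 2 + ‖β‖ ^ 2 * ‖g‖ ^ 2 := by ring
    _ = _ := by rw [hf1, hg1]; ring

include hf hg hfg hgf in
theorem ROT_bessel (x : E) : ‖(inner ℂ f x : ℂ)‖ ^ 2 + ‖(inner ℂ g x : ℂ)‖ ^ 2 ≤ ‖x‖ ^ 2 := by
  set a : ℂ := inner ℂ f x with ha
  set b : ℂ := inner ℂ g x with hb
  have h1 : inner ℂ (a • f + b • g) (x - (a • f + b • g)) = (0 : ℂ) := by
    simp only [inner_add_left, inner_smul_left, inner_sub_right, inner_add_right, inner_smul_right,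
      hf, hg, hfg, hgf, ← ha, ← hb]
    ring
  have h2 := norm_add_sq_eq_norm_sq_add_norm_sq_of_inner_eq_zero (𝕜 := ℂ) _ _ h1
  rw [add_sub_cancel] at h2
  have h3 := ROT_norm_comb hf hg hfg hgf a b
  nlinarith [mul_self_nonneg ‖x - (a • f + b • g)‖]

theorem ROT_coef (c s : ℝ) (hcs : c ^ 2 + s ^ 2 = 1) (a b : ℂ) :
    ‖((c : ℂ) - 1) * a - (s : ℂ) * b‖ ^ 2 + ‖(s : ℂ) * a + ((c : ℂ) - 1) * b‖ ^ 2 =
      (2 - 2 * c) * (‖a‖ ^ 2 + ‖b‖ ^ 2) := by
  rw [← Complex.normSq_eq_norm_sq, ← Complex.normSq_eq_norm_sq, ← Complex.normSq_eq_norm_sq,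
    ← Complex.normSq_eq_norm_sq]
  simp only [Complex.normSq_apply, Complex.add_re, Complex.sub_re, Complex.mul_re,
    Complex.ofReal_re, Complex.ofReal_im, Complex.one_re, Complex.one_im, Complex.sub_im,
    Complex.add_im, Complex.mul_im]
  linear_combination (a.re ^ 2 + a.im ^ 2 + b.re ^ 2 + b.im ^ 2) * hcs

include hf hg hfg hgf in
theorem ROT_diff (c s : ℝ) (hcs : c ^ 2 + s ^ 2 = 1) (x : E) :
    ‖ROT_lin f g c s x - x‖ ^ 2 = (2 - 2 * c) * (‖(inner ℂ f x : ℂ)‖ ^ 2 + ‖(inner ℂ g x : ℂ)‖ ^ 2) := by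
  have e1 : ROT_lin f g c s x - x =
      (((c : ℂ) - 1) * inner ℂ f x - (s : ℂ) * inner ℂ g x) • f +
      ((s : ℂ) * inner ℂ f x + ((c : ℂ) - 1) * inner ℂ g x) • g := by
    rw [ROT_lin_apply]
    module
  rw [e1, ROT_norm_comb hf hg hfg hgf, ROT_coef c s hcs]

include hf hg hfg hgf in
theorem ROT_norm (c s : ℝ) (hcs : c ^ 2 + s ^ 2 = 1) (x : E) : ‖ROT_lin f g c s x‖ = ‖x‖ := by
  have h1 := ROT_diff hf hg hfg hgf c s hcs x
  set a : ℂ := inner ℂ f x with ha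
  set b : ℂ := inner ℂ g x with hb
  have hxf : inner ℂ x f = (starRingEnd ℂ) a := by rw [ha, inner_conj_symm]
  have hxg : inner ℂ x g = (starRingEnd ℂ) b := by rw [hb, inner_conj_symm]
  have h2 : ‖ROT_lin f g c s x‖ ^ 2 = ‖x‖ ^ 2 + 2 * (inner ℂ x (ROT_lin f g c s x - x) : ℂ).re +
      ‖ROT_lin f g c s x - x‖ ^ 2 := by
    have h3 := norm_add_sq (𝕜 := ℂ) x (ROT_lin f g c s x - x)
    rw [add_sub_cancel] at h3
    exact h3
  have h4 : (inner ℂ x (ROT_lin f g c s x - x) : ℂ).re = (c - 1) * (‖a‖ ^ 2 + ‖b‖ ^ 2) := by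
    have e1 : ROT_lin f g c s x - x =
        (((c : ℂ) - 1) * a - (s : ℂ) * b) • f + ((s : ℂ) * a + ((c : ℂ) - 1) * b) • g := by
      rw [ROT_lin_apply]
      module
    rw [e1, inner_add_right, inner_smul_right, inner_smul_right, hxf, hxg,
      ← Complex.normSq_eq_norm_sq, ← Complex.normSq_eq_norm_sq]
    simp only [Complex.normSq_apply, Complex.add_re, Complex.sub_re, Complex.mul_re,
      Complex.ofReal_re, Complex.ofReal_im, Complex.one_re, Complex.one_im, Complex.sub_im,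
      Complex.add_im, Complex.mul_im, Complex.conj_re, Complex.conj_im]
    ring
  have h5 : ‖ROT_lin f g c s x‖ ^ 2 = ‖x‖ ^ 2 := by
    rw [h2, h4, h1]
    ring
  exact (pow_left_inj₀ (norm_nonneg _) (norm_nonneg _) two_ne_zero).1 h5

/-- the rotation as a unitary -/
noncomputable def ROT_iso (hf : inner ℂ f f = (1 : ℂ)) (hg : inner ℂ g g = (1 : ℂ))
    (hfg : inner ℂ f g = (0 : ℂ)) (hgf : inner ℂ g f = (0 : ℂ)) (θ : ℝ) : E ≃ₗᵢ[ℂ] E where
  toLinearEquiv := LinearEquiv.ofLinearMap (ROT_lin f g (Real.cos θ) (Real.sin θ))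
    (ROT_lin f g (Real.cos θ) (-Real.sin θ))
    (by
      ext x
      rw [LinearMap.comp_apply, ROT_comp hf hg hfg hgf, ROT_lin_apply]
      have e1 : Real.cos θ * Real.cos θ - Real.sin θ * -Real.sin θ = 1 := by
        have := Real.cos_sq_add_sin_sq θ
        nlinarith
      have e2 : Real.sin θ * Real.cos θ + Real.cos θ * -Real.sin θ = 0 := by ring
      rw [e1, e2]
      simp)
    (by
      ext x
      rw [LinearMap.comp_apply, ROT_comp hf hg hfg hgf, ROT_lin_apply]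
      have e1 : Real.cos θ * Real.cos θ - -Real.sin θ * Real.sin θ = 1 := by
        have := Real.cos_sq_add_sin_sq θ
        nlinarith
      have e2 : -Real.sin θ * Real.cos θ + Real.cos θ * Real.sin θ = 0 := by ring
      rw [e1, e2]
      simp)
  norm_map' x := ROT_norm hf hg hfg hgf _ _ (Real.cos_sq_add_sin_sq θ) x

theorem ROT_iso_apply (θ : ℝ) (x : E) : ROT_iso hf hg hfg hgf θ x =
    ROT_lin f g (Real.cos θ) (Real.sin θ) x := rfl

end

theorem t_ROT (h : S_SOTB) : S_ROT := by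
  obtain ⟨-, -, hon, -⟩ := h
  have h1 : ∀ i, inner ℂ (e i) (e i) = (1 : ℂ) := fun i => by
    have := inner_self_eq_norm_sq_to_K (𝕜 := ℂ) (e i)
    rw [this, hon.1 i]
    simp
  have h0 : ∀ i j, i ≠ j → inner ℂ (e i) (e j) = (0 : ℂ) := fun i j hij => hon.2 hij
  classical
  refine ⟨fun n θ => if hn : 1 ≤ n then ROT_iso (h1 0) (h1 n) (h0 0 n (by omega))
    (h0 n 0 (by omega)) θ else 1, ?_⟩
  intro n hn
  have hn0 : n ≠ 0 := by omega
  simp only [dif_pos hn]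
  refine ⟨?_, fun θ => ⟨?_, ?_, ?_, ?_, ?_⟩⟩
  · ext1 x
    rw [ROT_iso_apply, ROT_lin_apply]
    simp
  · rw [ROT_iso_apply, ROT_lin_apply, h1 0, h0 n 0 hn0]
    module
  · rw [ROT_iso_apply, ROT_lin_apply, h1 n, h0 0 n (Ne.symm hn0)]
    module
  · intro i hi0 hin
    rw [ROT_iso_apply, ROT_lin_apply, h0 0 i (Ne.symm hi0), h0 n i (Ne.symm hin)]
    simp
  · intro θ'
    ext1 x
    change ROT_lin (e 0) (e n) (Real.cos θ) (Real.sin θ)
      (ROT_lin (e 0) (e n) (Real.cos θ') (Real.sin θ') x) =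
      ROT_lin (e 0) (e n) (Real.cos (θ + θ')) (Real.sin (θ + θ')) x
    rw [ROT_comp (h1 0) (h1 n) (h0 0 n (Ne.symm hn0)) (h0 n 0 hn0), Real.cos_add, Real.sin_add]
  · intro x
    rw [ROT_iso_apply]
    have e1 := ROT_diff (h1 0) (h1 n) (h0 0 n (Ne.symm hn0)) (h0 n 0 hn0) (Real.cos θ)
      (Real.sin θ) (Real.cos_sq_add_sin_sq θ) x
    have e2 := ROT_bessel (h1 0) (h1 n) (h0 0 n (Ne.symm hn0)) (h0 n 0 hn0) x
    have e3 := Real.one_sub_sq_div_two_le_cos (x := θ)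
    have e4 : 0 ≤ ‖(inner ℂ (e 0) x : ℂ)‖ ^ 2 + ‖(inner ℂ (e n) x : ℂ)‖ ^ 2 := by positivity
    have e5 : ‖ROT_lin (e 0) (e n) (Real.cos θ) (Real.sin θ) x - x‖ ^ 2 ≤ (|θ| * ‖x‖) ^ 2 := by
      rw [e1, mul_pow, sq_abs]
      exact mul_le_mul (by linarith) e2 e4 (sq_nonneg _)
    exact (pow_le_pow_iff_left₀ (norm_nonneg _) (by positivity) two_ne_zero).1 e5

end Pool.Agent.H566U
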