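import Pool.Agent.H566U.Spec

/-! RSG: composition with a rotation (helper493) -/

set_option autoImplicit false

namespace Pool.Agent.H566U

open Filter Topology Set MeasureTheory

theorem RSG_cont {X : Type} [MetricSpace X] [MulAction G X] (hA : Act X) (g : G) (z : X) (ε : ℝ)
    (hε : 0 < ε) : ∃ δ : ℝ, 0 < δ ∧ ∀ x, dist x z < δ → dist (g • x) (g • z) < ε := by
  have h1 : Tendsto (fun x : X => g • x) (𝓝 z) (𝓝 (g • z)) := by
    rw [tendsto_iff_seq_tendsto]
    intro x hx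
    exact hA (fun _ => g) g x z (fun v => tendsto_const_nhds) hx
  obtain ⟨δ, hδ, h2⟩ := Metric.tendsto_nhds_nhds.1 h1 ε hε
  exact ⟨δ, hδ, fun x hx => h2 hx⟩

theorem t_RSG (_h0 : S_SOTB) : S_RSG := by
  intro X _ _ hA rot hrot d y τ θ z z' hd hRR hlim ε hε N
  obtain ⟨n0, hn0⟩ := Metric.tendsto_atTop.1 hlim (ε / 2) (by linarith)
  set n := max n0 (max N d) with hn
  have hn1 : n0 ≤ n := le_max_left _ _
  have hn2 : N ≤ n := (le_max_left _ _).trans (le_max_right _ _)
  have hn3 : d ≤ n := (le_max_right _ _).trans (le_max_right _ _)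
  obtain ⟨δ, hδ, hcont⟩ := RSG_cont hA (rot n θ) z (ε / 2) (by linarith)
  obtain ⟨g, hg1, hg2, hg3⟩ := hRR (min δ (ε / 4)) (lt_min hδ (by linarith)) (n + 1)
  obtain ⟨hr0, hr⟩ := hrot n (by omega)
  have hinv : ∀ v : H, rot n θ (rot n (-θ) v) = v := by
    intro v
    have h1 : rot n θ * rot n (-θ) = 1 := by
      rw [(hr θ).2.2.2.1 (-θ), add_neg_cancel, hr0]
    have h2 := congrArg (fun u : G => u v) h1
    exact h2
  have hinner : ∀ u v : H, inner ℂ u (rot n θ v) = (inner ℂ (rot n (-θ) u) v : ℂ) := by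
    intro u v
    conv_lhs => rw [← hinv u]
    rw [LinearIsometryEquiv.inner_map_map]
  refine ⟨rot n θ * g, ?_, ?_, ?_⟩
  · intro i hi1 hi2
    show rot n θ (g (e i)) = e i
    rw [hg1 i hi1 hi2]
    exact (hr θ).2.2.1 i (by omega) (by omega)
  · intro i hi
    show ‖(inner ℂ (e i) (rot n θ (g (e 0))) : ℂ) -
      (if i = 0 then ((Real.cos θ * τ : ℝ) : ℂ) else 0)‖ < ε
    rw [hinner]
    by_cases hi0 : i = 0
    · subst hi0
      rw [if_pos rfl, (hr (-θ)).1, Real.cos_neg, Real.sin_neg, inner_add_left, inner_smul_left,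
        inner_smul_left]
      have a1 := hg2 0 (by omega)
      have a2 := hg2 n (by omega)
      rw [if_pos rfl] at a1
      rw [if_neg (by omega : ¬ n = 0), sub_zero] at a2
      have b1 := (min_le_right δ (ε / 4))
      rw [Complex.conj_ofReal, Complex.conj_ofReal]
      have c1 : (Real.cos θ : ℂ) * (inner ℂ (e 0) (g (e 0)) : ℂ) +
          ((-Real.sin θ : ℝ) : ℂ) * (inner ℂ (e n) (g (e 0)) : ℂ) - ((Real.cos θ * τ : ℝ) : ℂ) =
          (Real.cos θ : ℂ) * ((inner ℂ (e 0) (g (e 0)) : ℂ) - (τ : ℂ)) +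
          ((-Real.sin θ : ℝ) : ℂ) * (inner ℂ (e n) (g (e 0)) : ℂ) := by
        push_cast
        ring
      rw [c1]
      refine lt_of_le_of_lt (norm_add_le _ _) ?_
      rw [norm_mul, norm_mul, Complex.norm_real, Complex.norm_real, Real.norm_eq_abs,
        Real.norm_eq_abs, abs_neg]
      have d1 := Real.abs_cos_le_one θ
      have d2 := Real.abs_sin_le_one θ
      have e1 : |Real.cos θ| * ‖(inner ℂ (e 0) (g (e 0)) : ℂ) - (τ : ℂ)‖ ≤
          1 * ‖(inner ℂ (e 0) (g (e 0)) : ℂ) - (τ : ℂ)‖ :=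
        mul_le_mul_of_nonneg_right d1 (norm_nonneg _)
      have e2 : |Real.sin θ| * ‖(inner ℂ (e n) (g (e 0)) : ℂ)‖ ≤
          1 * ‖(inner ℂ (e n) (g (e 0)) : ℂ)‖ :=
        mul_le_mul_of_nonneg_right d2 (norm_nonneg _)
      linarith
    · rw [if_neg hi0, (hr (-θ)).2.2.1 i hi0 (by omega)]
      have a1 := hg2 i (by omega)
      rw [if_neg hi0] at a1
      have b1 := (min_le_right δ (ε / 4))
      linarith
  · have h1 : (rot n θ * g) • y = rot n θ • (g • y) := mul_smul _ _ _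
    rw [h1]
    have h2 := hcont (g • y) (lt_of_lt_of_le hg3 (min_le_left _ _))
    have h3 := hn0 n hn1
    calc dist (rot n θ • (g • y)) z' ≤ dist (rot n θ • (g • y)) (rot n θ • z) +
          dist (rot n θ • z) z' := dist_triangle _ _ _
      _ < ε := by linarith

end Pool.Agent.H566U
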