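import Pool.Agent.H566U.Spec

/-! Task RZ (helper265): `τ = 0`. -/

set_option autoImplicit false

namespace Pool.Agent.H566U

open Filter Topology Set MeasureTheory

theorem t_RZ (h0 : S_SOTB) (hW : S_WL) (hK : S_WKB) : S_RZ := by
  classical
  intro X _ _ hAct d y z hd hy hR
  obtain ⟨_, _, hon, _⟩ := h0
  have hex : ∀ j : ℕ, ∃ g : G, (∀ i, 1 ≤ i → i < d → g (e i) = e i) ∧
      (∀ i < j, ‖(inner ℂ (e i) (g (e 0)) : ℂ) - (if i = 0 then ((0 : ℝ) : ℂ) else 0)‖ <
        1 / ((j : ℝ) + 1)) ∧ dist (g • y) z < 1 / ((j : ℝ) + 1) := by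
    intro j
    exact hR (1 / ((j : ℝ) + 1)) (by positivity) j
  choose g hg1 hg2 hg3 using hex
  have hlim0 : Tendsto (fun j : ℕ => 1 / ((j : ℝ) + 1)) atTop (𝓝 0) :=
    tendsto_one_div_add_atTop_nhds_zero_nat
  have hweak : ∀ v : H, Tendsto (fun j => inner ℂ v (g j (e 0))) atTop (𝓝 (inner ℂ v (0 : H))) := by
    refine hK (fun j => g j (e 0)) 0 ?_ ?_
    · intro j
      show ‖g j (e 0)‖ ≤ 1
      rw [LinearIsometryEquiv.norm_map, hon.1 0]
    · intro i
      rw [inner_zero_right, tendsto_zero_iff_norm_tendsto_zero]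
      refine squeeze_zero' (Eventually.of_forall fun j => norm_nonneg _) ?_ hlim0
      filter_upwards [eventually_gt_atTop i] with j hj
      have := hg2 j i hj
      have e1 : (if i = 0 then ((0 : ℝ) : ℂ) else 0) = 0 := by split_ifs <;> simp
      rw [e1, sub_zero] at this
      exact this.le
  have hcon := hW X hAct d (fun i => e i) (fun i => if (i : ℕ) = 0 then (0 : H) else e i)
    (hon.comp _ Fin.val_injective) y z
    (by
      intro u hu
      exact hy u fun i hi => hu ⟨i, hi⟩)
    g
    (by
      intro i v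
      by_cases hi : (i : ℕ) = 0
      · simp only [hi, if_true]
        exact hweak v
      · simp only [if_neg hi]
        have : ∀ j, inner ℂ v (g j (e i)) = inner ℂ v (e i) := by
          intro j
          rw [hg1 j i (Nat.one_le_iff_ne_zero.2 hi) i.2]
        simp only [this]
        exact tendsto_const_nhds)
    (by
      rw [tendsto_iff_dist_tendsto_zero]
      exact squeeze_zero (fun j => dist_nonneg) (fun j => (hg3 j).le) hlim0)
  intro u hu
  refine hcon u fun i => ?_
  by_cases hi : (i : ℕ) = 0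
  · simp only [hi, if_true]
    exact map_zero u
  · simp only [if_neg hi]
    exact hu i (Nat.one_le_iff_ne_zero.2 hi) i.2

end Pool.Agent.H566U
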