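import Pool.Agent.H566U.Spec

/-! STEP (helper196): one step of the rotation flow stays in the `U(d)`-orbit. -/

set_option autoImplicit false

namespace Pool.Agent.H566U

open Filter Topology Set

private theorem STEP_cont {X : Type} [MetricSpace X] [MulAction G X] (hA : Act X) (g : G) :
    Continuous (fun z : X => g • z) := by
  apply SeqContinuous.continuous
  intro x x₀ hx
  exact hA (fun _ => g) g x x₀ (fun v => tendsto_const_nhds) hx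

theorem t_STEP (h0 : S_SOTB) (hL : S_LC) (hP : S_PATH) (hF : S_INVF) (hC : S_CANT)
    (hE : S_EQS) : S_STEP := by
  intro X _ _ hA F hFc hFi hNC rot hrot d hd hmin y hy hfix hne
  obtain ⟨δ, K, hδ, hK, hKB, hvK⟩ := hL X hA F hFc hFi y hy d hfix
  have hnorm : ∀ i, ‖e i‖ = 1 := h0.2.2.1.norm_eq_one
  set θ₀ : ℝ := min δ 1 with hθ₀
  have hθ₀p : 0 < θ₀ := lt_min hδ one_pos
  have hθ₀1 : θ₀ ≤ 1 := min_le_right _ _
  have hθ₀δ : θ₀ ≤ δ := min_le_left _ _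
  have hin : ∀ θ, 0 ≤ θ → θ ≤ θ₀ → ∀ n, d ≤ n → rot n θ • y ∈ K := by
    intro θ h1 h2 n hn
    apply hvK
    intro i _
    have h3 := ((hrot n (by omega)).2 θ).2.2.2.2 (e i)
    rw [hnorm, mul_one, abs_of_nonneg h1] at h3
    linarith
  obtain ⟨γ, hγc, hγ0, hγ⟩ := hP X hA rot hrot d y K θ₀ hd hK hθ₀p.le hfix hin
  obtain ⟨g₀, hg₀⟩ := hne
  -- the path stays away from the fixed points for a while
  have hev : ∀ᶠ θ in 𝓝[Icc 0 θ₀] (0 : ℝ), g₀ • γ θ ≠ γ θ := by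
    have h1 : ContinuousWithinAt γ (Icc 0 θ₀) 0 := hγc 0 ⟨le_rfl, hθ₀p.le⟩
    have h2 : IsOpen {z : X | g₀ • z ≠ z} := isOpen_ne_fun (STEP_cont hA g₀) continuous_id
    exact h1.eventually (h2.mem_nhds (by rw [hγ0]; exact hg₀))
  rw [Metric.nhdsWithin_basis_ball.eventually_iff] at hev
  obtain ⟨ε, hε, hev⟩ := hev
  set θ₁ : ℝ := min (ε / 2) θ₀ with hθ₁
  have hθ₁p : 0 < θ₁ := lt_min (by positivity) hθ₀p
  have hθ₁₀ : θ₁ ≤ θ₀ := min_le_right _ _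
  have hθ₁ε : θ₁ ≤ ε / 2 := min_le_left _ _
  have hnf : ∀ θ ∈ Icc 0 θ₁, g₀ • γ θ ≠ γ θ := by
    intro θ hθ
    apply hev
    refine ⟨?_, hθ.1, hθ.2.trans hθ₁₀⟩
    rw [Metric.mem_ball, Real.dist_eq, sub_zero, abs_of_nonneg hθ.1]
    linarith [hθ.2]
  have hsub : Icc 0 θ₁ ⊆ Icc 0 θ₀ := Icc_subset_Icc_right hθ₁₀
  obtain ⟨f, hfc, hfinv, hfy, hf0⟩ := hF X hA d y
  by_cases hcst : ∃ s ∈ Icc 0 θ₁, f (γ s) ≠ f (γ 0)
  · exfalso
    obtain ⟨c, hc, hcI, hcinj⟩ := hC 0 θ₁ (fun s => f (γ s)) hθ₁p.le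
      (hfc.comp_continuousOn (hγc.mono hsub)) hcst
    apply hNC
    refine ⟨fun x => γ (c x), ?_, ?_, ?_⟩
    · exact (hγc.mono hsub).comp_continuous hc hcI
    · intro A
      exact hKB (hγ _ (hsub (hcI A))).1
    · rintro A A' ⟨g, hg'⟩
      have hg : g • γ (c A) = γ (c A') := hg'
      have h1 := hγ _ (hsub (hcI A))
      have h2 := hγ _ (hsub (hcI A'))
      obtain ⟨u, hu, hu2⟩ := hE X hA (⋃ k, F k) d hmin (γ (c A)) (hKB h1.1) h1.2.1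
        ⟨g₀, hnf _ (hcI A)⟩ g (by rw [hg]; exact h2.2.1)
      apply hcinj
      show f (γ (c A)) = f (γ (c A'))
      rw [← hg, ← hu2, hfinv _ u hu]
  · push Not at hcst
    have h1 := hcst θ₁ ⟨hθ₁p.le, le_rfl⟩
    rw [hγ0, hfy] at h1
    obtain ⟨w, hw, hw2⟩ := hf0 _ h1
    refine ⟨θ₁, hθ₁p, ?_, w, hw, ?_⟩
    · have := Real.pi_gt_three
      linarith
    · rw [hw2]
      exact (hγ θ₁ ⟨hθ₁p.le, hθ₁₀⟩).2.2

end Pool.Agent.H566U
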