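import Mathlib
import Pool.Agent.H566U.Spec

/-! Task SWAP: moving a finite dimensional space away. -/

set_option autoImplicit false

namespace Pool.Agent.H566U

open Filter Topology Set MeasureTheory

/-- an orthonormal basis of a finite dimensional subspace, as vectors of the whole space -/
theorem SWAP_basis (A : Submodule ℂ H) [FiniteDimensional ℂ A] :
    ∃ a : Fin (Module.finrank ℂ A) → H, Orthonormal ℂ a ∧ (∀ i, a i ∈ A) ∧
      ∀ x ∈ A, ∃ c : Fin (Module.finrank ℂ A) → ℂ, x = ∑ i, c i • a i := by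
  refine ⟨fun i => ((stdOrthonormalBasis ℂ A) i : H), ?_, fun i => Subtype.mem _, ?_⟩
  · exact (stdOrthonormalBasis ℂ A).orthonormal.comp_linearIsometry A.subtypeₗᵢ
  · intro x hx
    refine ⟨fun i => (stdOrthonormalBasis ℂ A).repr ⟨x, hx⟩ i, ?_⟩
    have h := (stdOrthonormalBasis ℂ A).sum_repr ⟨x, hx⟩
    have h2 : ((∑ i, (stdOrthonormalBasis ℂ A).repr ⟨x, hx⟩ i • (stdOrthonormalBasis ℂ A) i : A) : H)
        = x := congrArg (Subtype.val) h
    rw [Submodule.coe_sum] at h2
    exact h2.symm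

theorem t_SWAP (h1 : S_OVI) (h2 : S_ORTHF) : S_SWAP := by
  intro S A W hS hA hW hSA
  obtain ⟨a, ha, haA, hspan⟩ := SWAP_basis A
  have hfin : FiniteDimensional ℂ (S ⊔ A ⊔ W : Submodule ℂ H) := inferInstance
  obtain ⟨b, hb, hbV⟩ := h2 (S ⊔ A ⊔ W) hfin (Module.finrank ℂ A)
  obtain ⟨C, -, hC⟩ := h1 (Module.finrank ℂ A)
  obtain ⟨h, hh, hfix, -⟩ := hC a b ha hb 2 (by norm_num) (by
    intro i
    refine (norm_sub_le _ _).trans ?_
    rw [ha.1 i, hb.1 i]
    norm_num)
  have hbz : ∀ i, ∀ v ∈ (S ⊔ A ⊔ W : Submodule ℂ H), inner ℂ (b i) v = (0 : ℂ) := by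
    intro i v hv
    rw [← inner_conj_symm]
    have := (Submodule.mem_orthogonal _ _).mp (hbV i) v hv
    rw [this, map_zero]
  refine ⟨h, ?_, ?_⟩
  · intro s hs
    apply hfix
    · intro i
      rw [← inner_conj_symm, hSA s hs (a i) (haA i), map_zero]
    · intro i
      exact hbz i s (Submodule.mem_sup_left (Submodule.mem_sup_left hs))
  · intro x hx w hw
    obtain ⟨c, rfl⟩ := hspan x hx
    rw [map_sum, sum_inner]
    apply Finset.sum_eq_zero
    intro i _
    rw [map_smul, inner_smul_left, hh i, hbz i w (Submodule.mem_sup_right hw), mul_zero]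

end Pool.Agent.H566U
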