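import Pool.Agent.H566U.Spec

/-! Task TR: transpositions of basis vectors (by helper804, for the project of helper566). -/

set_option autoImplicit false

namespace Pool.Agent.H566U

open Filter Topology Set MeasureTheory

theorem TR_inner (i j : ℕ) : inner ℂ (e i) (e j) = if i = j then (1 : ℂ) else 0 := by
  unfold e
  rw [lp.inner_single_left]
  by_cases h : i = j
  · subst h
    simp
  · rw [if_neg h, lp.single_apply_ne]
    · simp
    · exact h

theorem t_TR : S_TR := by
  refine ⟨fun m n => ((Submodule.span ℂ {e m - e n})ᗮ).reflection, fun m n => ?_⟩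
  have h1 : ((Submodule.span ℂ {e m - e n})ᗮ).reflection (e m - e n) = -(e m - e n) := by
    refine Submodule.reflection_mem_subspace_orthogonalComplement_eq_neg ?_
    rw [Submodule.orthogonal_orthogonal]
    exact Submodule.mem_span_singleton_self _
  have h2 : ((Submodule.span ℂ {e m - e n})ᗮ).reflection (e m + e n) = e m + e n := by
    refine Submodule.reflection_mem_subspace_eq_self ?_
    rw [Submodule.mem_orthogonal_singleton_iff_inner_right]
    rw [inner_sub_left, inner_add_right, inner_add_right, TR_inner, TR_inner, TR_inner, TR_inner]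
    by_cases h : m = n
    · simp [h]
    · simp [h, Ne.symm h]
  have h3 : ((Submodule.span ℂ {e m - e n})ᗮ).reflection (e m) +
      ((Submodule.span ℂ {e m - e n})ᗮ).reflection (e n) = e m + e n := by
    rw [← map_add]; exact h2
  have h4 : ((Submodule.span ℂ {e m - e n})ᗮ).reflection (e m) -
      ((Submodule.span ℂ {e m - e n})ᗮ).reflection (e n) = -(e m - e n) := by
    rw [← map_sub]; exact h1
  refine ⟨?_, ?_, fun i hm hn => ?_⟩
  · have h5 : (2 : ℂ) • ((Submodule.span ℂ {e m - e n})ᗮ).reflection (e m) = (2 : ℂ) • e n := by
      rw [two_smul, two_smul]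
      calc _ = (((Submodule.span ℂ {e m - e n})ᗮ).reflection (e m) +
          ((Submodule.span ℂ {e m - e n})ᗮ).reflection (e n)) +
          (((Submodule.span ℂ {e m - e n})ᗮ).reflection (e m) -
          ((Submodule.span ℂ {e m - e n})ᗮ).reflection (e n)) := by abel
        _ = _ := by rw [h3, h4]; abel
    exact smul_right_injective _ two_ne_zero h5
  · have h5 : (2 : ℂ) • ((Submodule.span ℂ {e m - e n})ᗮ).reflection (e n) = (2 : ℂ) • e m := by
      rw [two_smul, two_smul]
      calc _ = (((Submodule.span ℂ {e m - e n})ᗮ).reflection (e m) +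
          ((Submodule.span ℂ {e m - e n})ᗮ).reflection (e n)) -
          (((Submodule.span ℂ {e m - e n})ᗮ).reflection (e m) -
          ((Submodule.span ℂ {e m - e n})ᗮ).reflection (e n)) := by abel
        _ = _ := by rw [h3, h4]; abel
    exact smul_right_injective _ two_ne_zero h5
  · refine Submodule.reflection_mem_subspace_eq_self ?_
    rw [Submodule.mem_orthogonal_singleton_iff_inner_right]
    rw [inner_sub_left, TR_inner, TR_inner, if_neg (Ne.symm hm), if_neg (Ne.symm hn), sub_zero]

end Pool.Agent.H566U
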