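import Pool.Agent.H566U.Spec

/-! Task UC: uniform continuity on compact sets. -/

set_option autoImplicit false

namespace Pool.Agent.H566U

open Filter Topology Set MeasureTheory

theorem t_UC (h0 : S_SOTB) : S_UC := by
  intro X _ _ hAct K hK ε hε
  by_contra hcon
  push Not at hcon
  have h1 : ∀ j : ℕ, ∃ z ∈ K, ∃ v : G, (∀ i < j, ‖v (e i) - e i‖ ≤ 1 / ((j : ℝ) + 1)) ∧
      ε ≤ dist (v • z) z := fun j => hcon j (1 / ((j : ℝ) + 1)) (by positivity)
  choose z hzK v hv hd using h1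
  obtain ⟨z0, -, φ, hφ, hz⟩ := hK.tendsto_subseq hzK
  have hsot : SOT (fun j => v (φ j)) 1 := by
    refine h0.1 _ _ fun i => ?_
    show Tendsto (fun j => v (φ j) (e i)) atTop (𝓝 (e i))
    rw [tendsto_iff_norm_sub_tendsto_zero]
    have hlim : Tendsto (fun j => 1 / ((φ j : ℝ) + 1)) atTop (𝓝 0) :=
      (tendsto_one_div_add_atTop_nhds_zero_nat (𝕜 := ℝ)).comp hφ.tendsto_atTop
    refine squeeze_zero' (Eventually.of_forall fun j => norm_nonneg _) ?_ hlim
    filter_upwards [eventually_gt_atTop i] with j hj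
    exact hv (φ j) i (lt_of_lt_of_le hj (hφ.id_le j))
  have hlim := hAct (fun j => v (φ j)) 1 (fun j => z (φ j)) z0 hsot hz
  rw [one_smul] at hlim
  have hd0 : Tendsto (fun j => dist (v (φ j) • z (φ j)) (z (φ j))) atTop (𝓝 0) := by
    have := hlim.dist hz
    rwa [dist_self] at this
  have hge : ε ≤ 0 := ge_of_tendsto' hd0 fun j => hd (φ j)
  linarith

end Pool.Agent.H566U
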