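import Pool.Agent.H566U.Spec

/-! Task WKB: weak convergence on the basis. -/

set_option autoImplicit false

namespace Pool.Agent.H566U

open Filter Topology Set MeasureTheory

theorem WKB_span (x : ℕ → H) (w : H)
    (h : ∀ i, Tendsto (fun j => inner ℂ (e i) (x j)) atTop (𝓝 (inner ℂ (e i) w))) (v : H)
    (hv : v ∈ Submodule.span ℂ (range e)) :
    Tendsto (fun j => inner ℂ v (x j)) atTop (𝓝 (inner ℂ v w)) := by
  induction hv using Submodule.span_induction with
  | mem v hv =>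
    obtain ⟨i, rfl⟩ := hv
    exact h i
  | zero =>
    simp only [inner_zero_left]
    exact tendsto_const_nhds
  | add a b _ _ ha hb =>
    simp only [inner_add_left]
    exact ha.add hb
  | smul c a _ ha =>
    simp only [inner_smul_left]
    exact ha.const_mul _

theorem t_WKB (h : S_SOTB) : S_WKB := by
  intro x w hx hw v
  obtain ⟨-, -, -, htot⟩ := h
  have hdense : (Submodule.span ℂ (range e)).topologicalClosure = ⊤ := by
    rw [Submodule.topologicalClosure_eq_top_iff, Submodule.eq_bot_iff]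
    intro z hz
    refine htot z fun i => ?_
    exact (Submodule.mem_orthogonal _ _).1 hz (e i) (Submodule.subset_span ⟨i, rfl⟩)
  rw [Metric.tendsto_atTop]
  intro ε hε
  have hvc : v ∈ closure ((Submodule.span ℂ (range e) : Submodule ℂ H) : Set H) := by
    have : v ∈ (Submodule.span ℂ (range e)).topologicalClosure := by
      rw [hdense]
      trivial
    exact this
  set δ := ε / (2 * (1 + ‖w‖)) with hδ
  have hw0 : 0 ≤ ‖w‖ := norm_nonneg _
  have hδ0 : 0 < δ := by positivity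
  obtain ⟨v', hv', hvv⟩ := Metric.mem_closure_iff.1 hvc δ hδ0
  rw [dist_eq_norm] at hvv
  obtain ⟨N, hN⟩ := Metric.tendsto_atTop.1 (WKB_span x w hw v' hv') (ε / 2) (by positivity)
  refine ⟨N, fun j hj => ?_⟩
  have h1 := hN j hj
  rw [dist_eq_norm] at h1 ⊢
  have e1 : (inner ℂ v (x j) : ℂ) - inner ℂ v w = inner ℂ (v - v') (x j) +
      (inner ℂ v' (x j) - inner ℂ v' w) - inner ℂ (v - v') w := by
    rw [inner_sub_left, inner_sub_left]
    ring
  rw [e1]
  have h2 : ‖(inner ℂ (v - v') (x j) : ℂ)‖ ≤ ‖v - v'‖ := by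
    calc ‖(inner ℂ (v - v') (x j) : ℂ)‖ ≤ ‖v - v'‖ * ‖x j‖ := norm_inner_le_norm _ _
      _ ≤ ‖v - v'‖ * 1 := mul_le_mul_of_nonneg_left (hx j) (norm_nonneg _)
      _ = ‖v - v'‖ := mul_one _
  have h3 : ‖(inner ℂ (v - v') w : ℂ)‖ ≤ ‖v - v'‖ * ‖w‖ := norm_inner_le_norm _ _
  have h4 : ‖v - v'‖ * (1 + ‖w‖) < ε / 2 := by
    have h5 : δ * (1 + ‖w‖) = ε / 2 := by
      rw [hδ]
      field_simp
    rw [← h5]
    exact mul_lt_mul_of_pos_right hvv (by positivity)
  have h6 := norm_sub_le ((inner ℂ (v - v') (x j) : ℂ) +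
      (inner ℂ v' (x j) - inner ℂ v' w)) (inner ℂ (v - v') w)
  have h7 := norm_add_le (inner ℂ (v - v') (x j) : ℂ) (inner ℂ v' (x j) - inner ℂ v' w)
  linarith

end Pool.Agent.H566U
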