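import Mathlib
import Pool.Agent.H566U.Spec

/-! Task WL: the weak limit lemma. -/

set_option autoImplicit false

namespace Pool.Agent.H566U

open Filter Topology Set MeasureTheory

/-- an orthonormal basis of a finite dimensional subspace, as vectors of the whole space -/
theorem WL_basis (A : Submodule ℂ H) [FiniteDimensional ℂ A] :
    ∃ a : Fin (Module.finrank ℂ A) → H, Orthonormal ℂ a ∧ (∀ i, a i ∈ A) ∧
      ∀ x ∈ A, ∃ c : Fin (Module.finrank ℂ A) → ℂ, x = ∑ i, c i • a i := by
  refine ⟨fun i => ((stdOrthonormalBasis ℂ A) i : H), ?_, fun i => Subtype.mem _, ?_⟩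
  · exact (stdOrthonormalBasis ℂ A).orthonormal.comp_linearIsometry A.subtypeₗᵢ
  · intro x hx
    refine ⟨fun i => (stdOrthonormalBasis ℂ A).repr ⟨x, hx⟩ i, ?_⟩
    have h := (stdOrthonormalBasis ℂ A).sum_repr ⟨x, hx⟩
    have h2 : ((∑ i, (stdOrthonormalBasis ℂ A).repr ⟨x, hx⟩ i • (stdOrthonormalBasis ℂ A) i : A) : H)
        = x := congrArg (Subtype.val) h
    rw [Submodule.coe_sum] at h2
    exact h2.symm

/-- the finite dimensional part converges in norm -/
theorem WL_fin (W : Submodule ℂ H) [FiniteDimensional ℂ W] (u : G) (hu : ∀ x ∈ Wᗮ, u x = x)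
    (x : ℕ → H) (w : H) (hx : ∀ v : H, Tendsto (fun j => inner ℂ v (x j)) atTop (𝓝 (inner ℂ v w)))
    (hw : u w = w) : Tendsto (fun j => ‖u (x j) - x j‖) atTop (𝓝 0) := by
  obtain ⟨b, hb, hbW, hspan⟩ := WL_basis W
  have hin : ∀ i j, inner ℂ (b i) (b j) = (if i = j then (1 : ℂ) else 0) :=
    orthonormal_iff_ite.mp hb
  set P : H → H := fun v => ∑ k, (inner ℂ (b k) v : ℂ) • b k with hP
  have hPo : ∀ v, v - P v ∈ Wᗮ := by
    intro v
    rw [Submodule.mem_orthogonal]
    intro s hs
    obtain ⟨c, rfl⟩ := hspan s hs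
    rw [sum_inner]
    apply Finset.sum_eq_zero
    intro i _
    rw [inner_smul_left, inner_sub_right, hP, inner_sum]
    simp only [inner_smul_right, hin]
    rw [Finset.sum_eq_single i]
    · simp
    · intro k _ hk
      rw [if_neg (Ne.symm hk), mul_zero]
    · intro h
      exact absurd (Finset.mem_univ i) h
  have hkey : ∀ v, u v - v = u (P v) - P v := by
    intro v
    have e1 := hu _ (hPo v)
    rw [map_sub] at e1
    have e2 : u v - v = (u v - u (P v)) - (v - P v) + (u (P v) - P v) := by abel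
    rw [e2, e1, sub_self, zero_add]
  have hPt : Tendsto (fun j => P (x j)) atTop (𝓝 (P w)) := by
    apply tendsto_finsetSum
    intro k _
    exact (hx (b k)).smul_const (b k)
  have h1 : Tendsto (fun j => ‖u (P (x j)) - P (x j)‖) atTop (𝓝 ‖u (P w) - P w‖) := by
    apply Tendsto.norm
    exact ((u.continuous.tendsto _).comp hPt).sub hPt
  have h2 : u (P w) - P w = 0 := by
    rw [← hkey, hw, sub_self]
  rw [h2, norm_zero] at h1
  refine h1.congr fun j => ?_
  rw [hkey (x j)]

theorem WL_near (X : Type) [MetricSpace X] [MulAction G X] (hAct : Act X) (h1 : S_L1) (d : ℕ)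
    (a : Fin d → H) (ha : Orthonormal ℂ a) (y z : X)
    (hy : FixedBy {u | ∀ i, u (a i) = a i} y) (g : ℕ → G)
    (hz : Tendsto (fun j => g j • y) atTop (𝓝 z)) (u : G)
    (hu : ∀ i, Tendsto (fun j => ‖u (g j (a i)) - g j (a i)‖) atTop (𝓝 0)) : u • z = z := by
  have key : ∀ m : ℕ, ∃ j : ℕ, m ≤ j ∧ ∃ k : G, Near (1 / ((m : ℝ) + 1)) k ∧
      u • g j • y = k • g j • y := by
    intro m
    obtain ⟨η, hη, hL⟩ := h1 d a ha (1 / ((m : ℝ) + 1)) (by positivity)
    have hev : ∀ᶠ j in atTop, ∀ i, ‖u (g j (a i)) - g j (a i)‖ < η := by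
      rw [eventually_all]
      intro i
      exact (hu i).eventually_lt_const hη
    obtain ⟨j, hj1, hj2⟩ := (hev.and (eventually_ge_atTop m)).exists
    obtain ⟨h, hh1, hh2⟩ := hL ((g j)⁻¹ * u * g j) (by
      intro i
      have e1 : ((g j)⁻¹ * u * g j) (a i) - a i = (g j)⁻¹ (u (g j (a i)) - g j (a i)) := by
        rw [map_sub]
        congr 1
        exact ((g j).symm_apply_apply (a i)).symm
      rw [e1, LinearIsometryEquiv.norm_map]
      exact (hj1 i).le)
    refine ⟨j, hj2, g j * h * (g j)⁻¹, ?_, ?_⟩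
    · intro v
      have e1 : (g j * h * (g j)⁻¹) v - v = g j (h ((g j)⁻¹ v) - (g j)⁻¹ v) := by
        rw [map_sub]
        congr 1
        exact ((g j).apply_symm_apply v).symm
      rw [e1, LinearIsometryEquiv.norm_map]
      have e2 := hh2 ((g j)⁻¹ v)
      rwa [LinearIsometryEquiv.norm_map] at e2
    · have e1 : h⁻¹ * ((g j)⁻¹ * u * g j) ∈ {u : G | ∀ i, u (a i) = a i} := by
        intro i
        show h⁻¹ (((g j)⁻¹ * u * g j) (a i)) = a i
        rw [← hh1 i]
        exact h.symm_apply_apply (a i)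
      have e2 := hy _ e1
      have e3 : ((g j)⁻¹ * u * g j) • y = h • y := by
        rw [mul_smul] at e2
        have := congrArg (fun t => h • t) e2
        simp only [smul_inv_smul] at this
        exact this
      have e4 : u • g j • y = g j • (((g j)⁻¹ * u * g j) • y) := by
        simp only [mul_smul, smul_inv_smul]
      rw [e4, e3]
      simp only [mul_smul, inv_smul_smul]
  choose j hj k hk hkj using key
  have hjt : Tendsto j atTop atTop := tendsto_atTop_mono hj tendsto_id
  have hgz : Tendsto (fun m => g (j m) • y) atTop (𝓝 z) := hz.comp hjt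
  have hk1 : SOT k 1 := by
    intro v
    rw [tendsto_iff_norm_sub_tendsto_zero]
    have e1 : Tendsto (fun m : ℕ => 1 / ((m : ℝ) + 1) * ‖v‖) atTop (𝓝 (0 * ‖v‖)) :=
      tendsto_one_div_add_atTop_nhds_zero_nat.mul_const _
    rw [zero_mul] at e1
    exact squeeze_zero (fun m => norm_nonneg _) (fun m => hk m v) e1
  have l1 : Tendsto (fun m => k m • g (j m) • y) atTop (𝓝 ((1 : G) • z)) :=
    hAct k 1 (fun m => g (j m) • y) z hk1 hgz
  have l2 : Tendsto (fun m => u • g (j m) • y) atTop (𝓝 (u • z)) :=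
    hAct (fun _ => u) u (fun m => g (j m) • y) z (fun v => tendsto_const_nhds) hgz
  rw [one_smul] at l1
  refine tendsto_nhds_unique l2 ?_
  refine l1.congr fun m => ?_
  exact (hkj m).symm

theorem t_WL (h0 : S_SOTB) (h1 : S_L1) (hD : S_DENS) : S_WL := by
  intro X _ _ hAct d a w ha y z hy g hg hz u hu
  choose v hvw hve W hW hWu using fun N => hD d w u hu N
  have hvz : ∀ N, v N • z = z := by
    intro N
    have := hW N
    exact WL_near X hAct h1 d a ha y z hy g hz (v N) (fun i =>
      WL_fin (W N) (v N) (hWu N) (fun j => g j (a i)) (w i) (fun t => hg i t) (hvw N i))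
  have hSOT : SOT v u := by
    apply h0.1
    intro i
    apply tendsto_const_nhds.congr'
    filter_upwards [eventually_gt_atTop i] with N hN
    exact (hve N i hN).symm
  have l1 : Tendsto (fun N => v N • z) atTop (𝓝 (u • z)) :=
    hAct v u (fun _ => z) z hSOT tendsto_const_nhds
  simp only [hvz] at l1
  exact tendsto_nhds_unique l1 tendsto_const_nhds

end Pool.Agent.H566U
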