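import Pool.Agent.H566U.ALLF
import Pool.Agent.H566U.BMB
import Pool.Agent.H566U.CANT
import Pool.Agent.H566U.CONC
import Pool.Agent.H566U.CONTR
import Pool.Agent.H566U.CPT
import Pool.Agent.H566U.DENS
import Pool.Agent.H566U.DENS2
import Pool.Agent.H566U.EA
import Pool.Agent.H566U.EAF
import Pool.Agent.H566U.EQS
import Pool.Agent.H566U.FINAL
import Pool.Agent.H566U.FINS
import Pool.Agent.H566U.FRAME
import Pool.Agent.H566U.GOODP
import Pool.Agent.H566U.GS
import Pool.Agent.H566U.INT
import Pool.Agent.H566U.INVF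
import Pool.Agent.H566U.ISO
import Pool.Agent.H566U.L1
import Pool.Agent.H566U.LAM
import Pool.Agent.H566U.LC
import Pool.Agent.H566U.LC0
import Pool.Agent.H566U.LEVY
import Pool.Agent.H566U.MED
import Pool.Agent.H566U.ORTHF
import Pool.Agent.H566U.OV
import Pool.Agent.H566U.OVI
import Pool.Agent.H566U.PATH
import Pool.Agent.H566U.QM
import Pool.Agent.H566U.RCL
import Pool.Agent.H566U.RMUL
import Pool.Agent.H566U.ROT
import Pool.Agent.H566U.RSG
import Pool.Agent.H566U.RZ
import Pool.Agent.H566U.SOTB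
import Pool.Agent.H566U.STEP
import Pool.Agent.H566U.SWAP
import Pool.Agent.H566U.TR
import Pool.Agent.H566U.UC
import Pool.Agent.H566U.WKB
import Pool.Agent.H566U.WL
import Pool.Agent.Helper289.UO.Top
import Pool.Agent.H623R2.VE.PerfSet

/-! Assembly: the countable-or-perfect dichotomy for actions of the unitary group of `ℓ²` and
σ-compact sets. -/

set_option autoImplicit false

namespace Pool.Agent.H566U

open Filter Topology Set TopologicalSpace

theorem final : S_FINAL := by
  have sotb := t_SOTB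
  have wkb := t_WKB sotb
  have ovi := t_OVI t_OV
  have l1 := t_L1 ovi
  have dens := t_DENS ovi
  have gs := t_GS
  have dens2 := t_DENS2 sotb ovi gs
  have orthf := t_ORTHF sotb
  have swap := t_SWAP ovi orthf
  have qm := t_QM swap t_LAM
  have rot := t_ROT sotb
  have conc := t_CONC t_BMB
  have med := t_MED conc t_ISO t_RMUL
  have goodp := t_GOODP med
  have levy := t_LEVY conc goodp t_ISO
  have frame := t_FRAME sotb ovi gs
  have uc := t_UC sotb
  have eaf := t_EAF uc levy frame t_RMUL sotb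
  have ea := t_EA eaf sotb dens2
  have lc0 := t_LC0 sotb
  have lc := t_LC sotb l1 lc0
  have wl := t_WL sotb l1 dens
  have int := t_INT sotb wl qm wkb
  have cpt := t_CPT sotb ovi
  have invf := t_INVF cpt
  have path := t_PATH sotb t_TR uc wl wkb
  have eqs := t_EQS sotb ovi int
  have step := t_STEP sotb lc path invf t_CANT eqs
  have contr := t_CONTR sotb rot step cpt t_RCL (t_RSG sotb) (t_RZ sotb wl wkb)
  have fins := t_FINS sotb ovi contr
  have allf := t_ALLF sotb fins ea lc0 uc
  exact t_FINAL allf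

/-- The theorem for the topological group `UU` of `Helper289`. -/
theorem main (X : Type) [TopologicalSpace X] [MetrizableSpace X]
    [MulAction Helper289.UO.UU X]
    (hc : Continuous (fun q : Helper289.UO.UU × X => q.1 • q.2)) (B : Set X)
    (hB : ∃ F : ℕ → Set X, (∀ k, IsCompact (F k)) ∧ B = ⋃ k, F k)
    (hi : ∀ x ∈ B, ∀ g : Helper289.UO.UU, g • x ∈ B) :
    (B.Countable ∧ ∀ x ∈ B, ∀ g : Helper289.UO.UU, g • x = x) ∨
    ∃ P : Set X, P.Nonempty ∧ Perfect P ∧ P ⊆ B ∧
      ∀ x ∈ P, ∀ y ∈ P, (∃ g : Helper289.UO.UU, g • x = y) → x = y := by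
  letI : MetricSpace X := metrizableSpaceMetric X
  obtain ⟨F, hF, rfl⟩ := hB
  have hA : @Act X _ ‹MulAction Helper289.UO.UU X› := by
    intro g g₀ x x₀ hg hx
    have h1 : Tendsto g atTop (𝓝 (g₀ : Helper289.UO.UU)) :=
      Helper289.UO.uu_topgroup_tendsto.2 hg
    exact (hc.tendsto (g₀, x₀)).comp (h1.prodMk_nhds hx)
  rcases final X hA F hF hi with h | ⟨c, hc1, hc2, hc3⟩
  · exact Or.inl h
  · right
    have hinj : Function.Injective c := fun A A' h => hc3 A A' ⟨1, by rw [one_smul, h]⟩
    obtain ⟨h3, h4⟩ := Pool.Agent.H623R2.VE.perfect_range c hc1 hinj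
    refine ⟨range c, h3, h4, ?_, ?_⟩
    · rintro _ ⟨A, rfl⟩
      exact hc2 A
    · rintro _ ⟨A, rfl⟩ _ ⟨A', rfl⟩ h5
      rw [hc3 A A' h5]

end Pool.Agent.H566U
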