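import Pool.Agent.H566U.Spec

/-! INVF: a continuous `U(d)`-invariant function which vanishes exactly on the orbit of `y`. -/

set_option autoImplicit false

namespace Pool.Agent.H566U

open Filter Topology Set MeasureTheory

private theorem INVF_one (d : ℕ) : (1 : G) ∈ US d := fun _ _ => rfl

private theorem INVF_mul {d : ℕ} {u v : G} (hu : u ∈ US d) (hv : v ∈ US d) : u * v ∈ US d := by
  intro i hi
  show u (v (e i)) = e i
  rw [hv i hi, hu i hi]

private theorem INVF_inv {d : ℕ} {u : G} (hu : u ∈ US d) : u⁻¹ ∈ US d := by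
  intro i hi
  show u.symm (e i) = e i
  rw [LinearIsometryEquiv.symm_apply_eq]
  exact (hu i hi).symm

private theorem INVF_equi {X : Type} [MetricSpace X] [MulAction G X] (hA : Act X) (hC : S_CPT)
    (d : ℕ) (x₀ : X) (ε : ℝ) (hε : 0 < ε) : ∃ δ : ℝ, 0 < δ ∧ ∀ x : X, dist x x₀ < δ →
      ∀ w ∈ US d, dist (w • x) (w • x₀) < ε := by
  by_contra hcon
  push Not at hcon
  have h1 : ∀ j : ℕ, ∃ x : X, dist x x₀ < 1 / ((j : ℝ) + 1) ∧ ∃ w ∈ US d,
      ε ≤ dist (w • x) (w • x₀) := fun j => hcon _ (by positivity)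
  choose x hx w hw hd using h1
  obtain ⟨w₀, hw₀, φ, hφ, hs⟩ := hC d w hw
  have hx0 : Tendsto x atTop (𝓝 x₀) := by
    rw [tendsto_iff_dist_tendsto_zero]
    exact squeeze_zero (fun j => dist_nonneg) (fun j => (hx j).le)
      tendsto_one_div_add_atTop_nhds_zero_nat
  have hx1 : Tendsto (fun j => x (φ j)) atTop (𝓝 x₀) := hx0.comp hφ.tendsto_atTop
  have h2 := hA (fun j => w (φ j)) w₀ (fun j => x (φ j)) x₀ hs hx1
  have h3 := hA (fun j => w (φ j)) w₀ (fun _ => x₀) x₀ hs tendsto_const_nhds
  have h4 := h2.dist h3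
  rw [dist_self] at h4
  have h5 : ε ≤ 0 := ge_of_tendsto h4 (Eventually.of_forall fun j => hd (φ j))
  linarith

theorem t_INVF (hC : S_CPT) : S_INVF := by
  intro X _ _ hA d y
  set O : Set X := {z | ∃ w ∈ US d, w • y = z} with hO
  have hyO : y ∈ O := ⟨1, INVF_one d, one_smul _ _⟩
  have hOne : O.Nonempty := ⟨y, hyO⟩
  have hOcl : IsClosed O := by
    rw [← isSeqClosed_iff_isClosed]
    intro z z₀ hz hz0
    choose w hw hwz using hz
    obtain ⟨w₀, hw₀, φ, hφ, hs⟩ := hC d w hw
    have h2 := hA (fun j => w (φ j)) w₀ (fun _ => y) y hs tendsto_const_nhds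
    have h3 : Tendsto (fun j => z (φ j)) atTop (𝓝 z₀) := hz0.comp hφ.tendsto_atTop
    have h4 : (fun j => w (φ j) • y) = fun j => z (φ j) := by
      funext j; exact hwz (φ j)
    rw [h4] at h2
    exact ⟨w₀, hw₀, tendsto_nhds_unique h2 h3⟩
  have : Nonempty (US d) := ⟨⟨1, INVF_one d⟩⟩
  let g : X → US d → ℝ := fun x w => min (Metric.infDist ((w : G) • x) O) 1
  have hbdd : ∀ x, BddAbove (range (g x)) := by
    intro x
    refine ⟨1, ?_⟩
    rintro _ ⟨w, rfl⟩
    exact min_le_right _ _
  have hg0 : ∀ x w, 0 ≤ g x w := fun x w => le_min Metric.infDist_nonneg zero_le_one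
  let f : X → ℝ := fun x => ⨆ w : US d, g x w
  have hf0 : ∀ x, 0 ≤ f x := fun x => Real.iSup_nonneg (hg0 x)
  have hinv : ∀ x, ∀ w' ∈ US d, f (w' • x) ≤ f x := by
    intro x w' hw'
    refine ciSup_le fun w => ?_
    have : g (w' • x) w = g x ⟨(w : G) * w', INVF_mul w.2 hw'⟩ := by
      show min (Metric.infDist ((w : G) • (w' • x)) O) 1 = min (Metric.infDist (((w : G) * w') • x) O) 1
      rw [mul_smul]
    rw [this]
    exact le_ciSup (hbdd x) _
  refine ⟨f, ?_, ?_, ?_, ?_⟩
  · rw [Metric.continuous_iff]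
    intro x₀ ε hε
    obtain ⟨δ, hδ, hδ'⟩ := INVF_equi hA hC d x₀ (ε / 2) (by positivity)
    refine ⟨δ, hδ, fun x hx => ?_⟩
    have hcmp : ∀ w : US d, |g x w - g x₀ w| ≤ ε / 2 := by
      intro w
      have h1 : |Metric.infDist ((w : G) • x) O - Metric.infDist ((w : G) • x₀) O| ≤
          dist ((w : G) • x) ((w : G) • x₀) := by
        rw [abs_le]
        constructor
        · have := Metric.infDist_le_infDist_add_dist (s := O) (x := (w : G) • x₀) (y := (w : G) • x)
          rw [dist_comm] at this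
          linarith
        · have := Metric.infDist_le_infDist_add_dist (s := O) (x := (w : G) • x) (y := (w : G) • x₀)
          linarith
      have h2 := hδ' x hx w w.2
      have h3 : |min (Metric.infDist ((w : G) • x) O) 1 - min (Metric.infDist ((w : G) • x₀) O) 1| ≤
          |Metric.infDist ((w : G) • x) O - Metric.infDist ((w : G) • x₀) O| := by
        have := abs_min_sub_min_le_max (Metric.infDist ((w : G) • x) O) 1
          (Metric.infDist ((w : G) • x₀) O) 1
        simpa using this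
      exact (h3.trans h1).trans h2.le
    have hle1 : f x ≤ f x₀ + ε / 2 := by
      refine ciSup_le fun w => ?_
      have h1 := (abs_le.mp (hcmp w)).2
      have h2 : g x₀ w ≤ f x₀ := le_ciSup (hbdd x₀) w
      linarith
    have hle2 : f x₀ ≤ f x + ε / 2 := by
      refine ciSup_le fun w => ?_
      have h1 := (abs_le.mp (hcmp w)).1
      have h2 : g x w ≤ f x := le_ciSup (hbdd x) w
      linarith
    rw [Real.dist_eq, abs_lt]
    constructor <;> linarith
  · intro x w hw
    refine le_antisymm (hinv x w hw) ?_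
    have h1 := hinv (w • x) w⁻¹ (INVF_inv hw)
    rwa [inv_smul_smul] at h1
  · refine le_antisymm (ciSup_le fun w => ?_) (hf0 y)
    have : (w : G) • y ∈ O := ⟨w, w.2, rfl⟩
    show min (Metric.infDist ((w : G) • y) O) 1 ≤ 0
    rw [Metric.infDist_zero_of_mem this]
    exact min_le_left _ _
  · intro x hx
    have h1 : g x ⟨1, INVF_one d⟩ ≤ f x := le_ciSup (hbdd x) _
    have h2 : min (Metric.infDist ((1 : G) • x) O) 1 ≤ 0 := by rw [← hx]; exact h1
    rw [one_smul] at h2
    have h3 : Metric.infDist x O = 0 := by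
      rcases min_le_iff.mp h2 with h | h
      · exact le_antisymm h Metric.infDist_nonneg
      · exact absurd h (by norm_num)
    have h4 : x ∈ O := (hOcl.mem_iff_infDist_zero hOne).mpr h3
    exact h4

end Pool.Agent.H566U
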