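import Pool.Agent.H566U.Spec

set_option autoImplicit false

/-! Task SOTB: basis facts for l2 (helper303). -/

open Filter Topology

namespace Pool.Agent.H566U

theorem SOTB_inner (i : ℕ) (x : H) : inner ℂ (e i) x = x i := by
  unfold e
  rw [lp.inner_single_left]
  simp

theorem SOTB_zero (x : H) (h : ∀ i, inner ℂ (e i) x = (0 : ℂ)) : x = 0 := by
  apply lp.ext
  funext i
  have := h i
  rw [SOTB_inner] at this
  rw [this]; rfl

theorem SOTB_orth : Orthonormal ℂ e := by
  rw [orthonormal_iff_ite]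
  intro i j
  rw [SOTB_inner]
  unfold e
  by_cases h : i = j
  · subst h
    rw [if_pos rfl]
    exact lp.single_apply_self _ _ _
  · rw [if_neg h]
    exact lp.single_apply_ne _ _ _ h

theorem SOTB_dense : Dense ((Submodule.span ℂ (Set.range e) : Submodule ℂ H) : Set H) := by
  rw [Submodule.dense_iff_topologicalClosure_eq_top, Submodule.topologicalClosure_eq_top_iff,
    Submodule.eq_bot_iff]
  intro x hx
  apply SOTB_zero
  intro i
  exact (Submodule.mem_orthogonal _ _).1 hx (e i) (Submodule.subset_span ⟨i, rfl⟩)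

theorem SOTB_sot (g : ℕ → G) (g₀ : G)
    (h : ∀ i, Tendsto (fun k => g k (e i)) atTop (𝓝 (g₀ (e i)))) : SOT g g₀ := by
  have h1 : ∀ w ∈ Submodule.span ℂ (Set.range e), Tendsto (fun k => g k w) atTop (𝓝 (g₀ w)) := by
    intro w hw
    induction hw using Submodule.span_induction with
    | mem x hx =>
      obtain ⟨i, rfl⟩ := hx
      exact h i
    | zero => simp only [map_zero]; exact tendsto_const_nhds
    | add x y _ _ hx hy =>
      simp only [map_add]
      exact hx.add hy
    | smul a x _ hx =>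
      simp only [map_smul]
      exact hx.const_smul a
  intro v
  rw [Metric.tendsto_atTop]
  intro ε hε
  obtain ⟨w, hw, hvw⟩ := Metric.dense_iff.1 SOTB_dense v (ε / 4) (by positivity)
  rw [Metric.mem_ball, dist_eq_norm] at hw
  obtain ⟨N, hN⟩ := (Metric.tendsto_atTop.1 (h1 w hvw)) (ε / 4) (by positivity)
  refine ⟨N, fun k hk => ?_⟩
  have h2 := hN k hk
  rw [dist_eq_norm] at h2 ⊢
  have e1 : g k v - g₀ v = g k (v - w) + (g k w - g₀ w) + g₀ (w - v) := by
    rw [map_sub, map_sub]; abel
  rw [e1]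
  have a1 : ‖g k (v - w)‖ = ‖v - w‖ := (g k).norm_map _
  have a2 : ‖g₀ (w - v)‖ = ‖w - v‖ := g₀.norm_map _
  have a3 : ‖v - w‖ = ‖w - v‖ := norm_sub_rev _ _
  have a4 := norm_add_le (g k (v - w) + (g k w - g₀ w)) (g₀ (w - v))
  have a5 := norm_add_le (g k (v - w)) (g k w - g₀ w)
  linarith

theorem t_SOTB : S_SOTB := by
  refine ⟨SOTB_sot, ?_, SOTB_orth, SOTB_zero⟩
  intro g h hgh
  have h1 := SOTB_sot (fun _ => g) h (fun i => by rw [hgh i]; exact tendsto_const_nhds)
  apply LinearIsometryEquiv.ext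
  intro v
  exact tendsto_nhds_unique tendsto_const_nhds (h1 v)

end Pool.Agent.H566U
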